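import Pool.Agent.H152R3.Cut

open Set Filter Topology Real ContDiff MeasureTheory

namespace Pool.Agent.H152R3

noncomputable section

instance instHaarV : (volume : Measure V).IsAddHaarMeasure := by
  change ((volume : Measure E7).prod (volume : Measure E7)).IsAddHaarMeasure
  infer_instance

/-- The trace as a linear functional on continuous endomorphisms. -/
def trL : (V →L[ℝ] V) →ₗ[ℝ] ℝ := (LinearMap.trace ℝ V).comp (ContinuousLinearMap.coeLM ℝ)

lemma continuous_trL : Continuous trL := LinearMap.continuous_of_finiteDimensional _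

lemma dv_eq (F : V → V) (w : V) : dv F w = trL (fderiv ℝ F w) := rfl

lemma continuous_dv {F : V → V} (hF : ContDiff ℝ 1 F) : Continuous (dv F) :=
  continuous_trL.comp (hF.continuous_fderiv (by simp))

lemma dv_zero_of_notMem {F : V → V} {w : V} (h : w ∉ tsupport F) : dv F w = 0 := by
  rw [dv_eq, fderiv_of_notMem_tsupport _ h, map_zero]

lemma hasCompactSupport_dv {F : V → V} (hc : HasCompactSupport F) : HasCompactSupport (dv F) :=
  HasCompactSupport.intro hc (fun _ h => dv_zero_of_notMem h)

lemma integrable_dv {F : V → V} (hF : ContDiff ℝ 1 F) (hc : HasCompactSupport F) :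
    Integrable (dv F) := (continuous_dv hF).integrable_of_hasCompactSupport (hasCompactSupport_dv hc)

lemma int_fderiv_zero {g : V → ℝ} (hg : ContDiff ℝ 1 g) (hc : HasCompactSupport g) (v : V) :
    ∫ w, fderiv ℝ g w v = 0 := by
  have h1 := integral_mul_fderiv_eq_neg_fderiv_mul_of_integrable (μ := (volume : Measure V))
    (f := fun _ : V => (1 : ℝ)) (g := g) (v := v) (by simp)
    (by
      simp only [one_mul]
      exact ((hg.continuous_fderiv (by simp)).clm_apply continuous_const).integrable_of_hasCompactSupport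
        (hc.fderiv_apply (𝕜 := ℝ) v))
    (by simp only [one_mul]; exact hg.continuous.integrable_of_hasCompactSupport hc)
    (fun _ _ => differentiableAt_const _) (fun x _ => (hg.differentiable (by simp)) x)
  simp only [one_mul] at h1
  rw [h1]
  simp

lemma int_dv_zero {F : V → V} (hF : ContDiff ℝ 1 F) (hc : HasCompactSupport F) :
    ∫ w, dv F w = 0 := by
  let b := Module.finBasis ℝ V
  have h1 : ∀ w, dv F w = ∑ i, fderiv ℝ (fun z => (b.coord i).toContinuousLinearMap (F z)) w (b i) := by
    intro w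
    unfold dv
    rw [LinearMap.trace_eq_matrix_trace ℝ b]
    unfold Matrix.trace
    apply Finset.sum_congr rfl
    intro i _
    have hd : HasFDerivAt F (fderiv ℝ F w) w := ((hF.differentiable (by simp)) w).hasFDerivAt
    have h2 : HasFDerivAt (fun z => (b.coord i).toContinuousLinearMap (F z))
        (((b.coord i).toContinuousLinearMap).comp (fderiv ℝ F w)) w :=
      ((b.coord i).toContinuousLinearMap).hasFDerivAt.comp w hd
    rw [h2.fderiv]
    simp [LinearMap.toMatrix_apply]
  have h3 : ∀ i, ContDiff ℝ 1 (fun z => (b.coord i).toContinuousLinearMap (F z)) := fun i =>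
    ((b.coord i).toContinuousLinearMap).contDiff.comp hF
  have h4 : ∀ i, HasCompactSupport (fun z => (b.coord i).toContinuousLinearMap (F z)) := fun i =>
    hc.comp_left (g := fun v => (b.coord i).toContinuousLinearMap v) (map_zero _)
  simp_rw [h1]
  rw [integral_finsetSum]
  · exact Finset.sum_eq_zero fun i _ => int_fderiv_zero (h3 i) (h4 i) (b i)
  · intro i _
    exact (((h3 i).continuous_fderiv (by simp)).clm_apply
      continuous_const).integrable_of_hasCompactSupport ((h4 i).fderiv_apply (𝕜 := ℝ) (b i))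

/-- The region. -/
def Om : Set V := {w | w ∈ U ∧ P ‖w.1‖ < Q ‖w.2‖}

lemma isOpen_Om : IsOpen Om :=
  isOpen_U.inter (isOpen_lt (continuous_P.comp continuous_fst.norm)
            (continuous_Q.comp continuous_snd.norm))

lemma Phi_neg_iff {w : V} (h : w ∈ W) : Phi w < 0 ↔ w ∈ Om := by
  have hp := W_pos h
  have h1 : 0 < P ‖w.1‖ := by unfold P; nlinarith [hp.1, sq_nonneg ‖w.1‖]
  have h2 := Q_pos hp.2.1 hp.2.2
  unfold Phi
  constructor
  · intro h3
    refine ⟨h.2.2, ?_⟩
    have h4 : P ‖w.1‖ ^ 3 < Q ‖w.2‖ ^ 3 := by linarith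
    exact lt_of_pow_lt_pow_left₀ 3 h2.le h4
  · intro h3
    have h4 : P ‖w.1‖ ^ 3 < Q ‖w.2‖ ^ 3 := pow_lt_pow_left₀ h3.2 h1.le (by norm_num)
    linarith

lemma continuous_Phi : Continuous Phi := by
  unfold Phi
  have h1 := continuous_P.comp (continuous_norm.comp (continuous_fst (X := E7) (Y := E7)))
  have h2 := continuous_Q.comp (continuous_norm.comp (continuous_snd (X := E7) (Y := E7)))
  exact ((h1.pow 3).sub (h2.pow 3)).div_const 3

/-- Smoothed indicator of the region. -/
def fn (n : ℕ) (w : V) : ℝ := SS (-(n * Phi w))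

lemma cd_fn (n : ℕ) {w : V} (hw : w ∈ W) : ContDiffAt ℝ 1 (fn n) w := by
  have h1 : ContDiffAt ℝ 1 Phi w := (cd_Phi hw).of_le (by simp)
  exact ContDiffAt.comp (g := SS) (f := fun w : V => -((n : ℝ) * Phi w)) w contDiff_SS.contDiffAt
    (contDiffAt_const.mul h1).neg

lemma continuous_fn (n : ℕ) : Continuous (fn n) :=
  Continuous.comp (g := SS) (f := fun w : V => -((n : ℝ) * Phi w)) contDiff_SS.continuous
    (continuous_const.mul continuous_Phi).neg

lemma fderiv_fn (n : ℕ) {w : V} (hw : w ∈ W) (v : V) :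
    fderiv ℝ (fn n) w v = -(dSS (-((n : ℝ) * Phi w)) * (n * fderiv ℝ Phi w v)) := by
  have h4 : HasFDerivAt Phi (fderiv ℝ Phi w) w :=
    ((cd_Phi hw).differentiableAt (by simp)).hasFDerivAt
  have h4' : HasFDerivAt (fun w : V => -((n : ℝ) * Phi w)) (-((n : ℝ) • fderiv ℝ Phi w)) w :=
    (h4.const_mul (n : ℝ)).fun_neg
  have h5 := HasDerivAt.comp_hasFDerivAt (h₂ := SS) (f := fun w : V => -((n : ℝ) * Phi w)) w
    (hasDerivAt_SS _) h4'
  have h6 : fderiv ℝ (fn n) w = dSS (-((n : ℝ) * Phi w)) • (-((n : ℝ) • fderiv ℝ Phi w)) := h5.fderiv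
  rw [h6]
  simp

lemma tendsto_fn {w : V} (hw : w ∈ W) (hO : w ∈ Om) : Tendsto (fun n : ℕ => fn n w) atTop (𝓝 1) := by
  have h1 : Phi w < 0 := (Phi_neg_iff hw).2 hO
  have h3 : Tendsto (fun n : ℕ => (n : ℝ) * (-Phi w)) atTop atTop :=
    tendsto_natCast_atTop_atTop.atTop_mul_const (by linarith)
  refine (tendsto_SS.comp h3).congr ?_
  intro n
  simp only [Function.comp, fn]
  congr 1
  ring

lemma fn_zero {w : V} (hw : w ∈ W) (hO : w ∉ Om) (n : ℕ) : fn n w = 0 := by
  have h1 : 0 ≤ Phi w := not_lt.1 (fun h => hO ((Phi_neg_iff hw).1 h))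
  apply SS_zero
  have : 0 ≤ (n : ℝ) * Phi w := by positivity
  linarith

lemma cd_fnZ {Z : V → V} (hZ : ContDiff ℝ 1 Z) (hs : tsupport Z ⊆ W) (n : ℕ) :
    ContDiff ℝ 1 (fun w => fn n w • Z w) := by
  rw [contDiff_iff_contDiffAt]
  intro w
  by_cases hw : w ∈ W
  · exact (cd_fn n hw).smul hZ.contDiffAt
  · have h1 : w ∉ tsupport Z := fun h => hw (hs h)
    have h2 : (fun w => fn n w • Z w) =ᶠ[𝓝 w] fun _ => 0 := by
      filter_upwards [notMem_tsupport_iff_eventuallyEq.1 h1] with z hz
      rw [hz]; simp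
    exact contDiffAt_const.congr_of_eventuallyEq h2

lemma dv_fnZ_le {Z : V → V} (hZ : ContDiff ℝ 1 Z) (hs : tsupport Z ⊆ W)
    (hpos : ∀ w ∈ W, 0 ≤ fderiv ℝ Phi w (Z w)) (n : ℕ) (w : V) :
    dv (fun w => fn n w • Z w) w ≤ fn n w * dv Z w := by
  by_cases hw : w ∈ W
  · have h1 : DifferentiableAt ℝ (fn n) w := (cd_fn n hw).differentiableAt (by simp)
    have h2 : DifferentiableAt ℝ Z w := hZ.differentiable (by simp) w
    rw [dv_smul h1 h2, fderiv_fn n hw]
    have h8 := dSS_nonneg (-((n : ℝ) * Phi w))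
    have h9 := hpos w hw
    have : 0 ≤ dSS (-((n : ℝ) * Phi w)) * (n * fderiv ℝ Phi w (Z w)) := by positivity
    linarith
  · have h1 : w ∉ tsupport Z := fun h => hw (hs h)
    have h2 : (fun w => fn n w • Z w) =ᶠ[𝓝 w] fun _ => 0 := by
      filter_upwards [notMem_tsupport_iff_eventuallyEq.1 h1] with z hz
      rw [hz]; simp
    rw [dv_zero_of_notMem h1, dv_eq, h2.fderiv_eq]
    simp

/-- Outgoing fields have nonnegative flux. -/
lemma flux_nonneg {Z : V → V} (hZ : ContDiff ℝ 1 Z) (hc : HasCompactSupport Z)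
    (hs : tsupport Z ⊆ W) (hpos : ∀ w ∈ W, 0 ≤ fderiv ℝ Phi w (Z w)) :
    0 ≤ ∫ w in Om, dv Z w := by
  have hint : ∀ n, 0 ≤ ∫ w, fn n w * dv Z w := by
    intro n
    have hFs : HasCompactSupport (fun w => fn n w • Z w) :=
      HasCompactSupport.intro hc (fun w hw => by rw [image_eq_zero_of_notMem_tsupport hw, smul_zero])
    rw [← int_dv_zero (cd_fnZ hZ hs n) hFs]
    apply integral_mono (integrable_dv (cd_fnZ hZ hs n) hFs) _ (dv_fnZ_le hZ hs hpos n)
    exact ((continuous_fn n).mul (continuous_dv hZ)).integrable_of_hasCompactSupport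
      ((hasCompactSupport_dv hc).mul_left)
  have hlim : Tendsto (fun n => ∫ w, fn n w * dv Z w) atTop (𝓝 (∫ w, Om.indicator (dv Z) w)) := by
    apply tendsto_integral_of_dominated_convergence (fun w => |dv Z w|)
    · intro n
      exact ((continuous_fn n).mul (continuous_dv hZ)).aestronglyMeasurable
    · exact (integrable_dv hZ hc).abs
    · intro n
      apply Eventually.of_forall
      intro w
      have h0 : 0 ≤ fn n w := SS_nonneg _
      rw [Real.norm_eq_abs, abs_mul, abs_of_nonneg h0]
      exact mul_le_of_le_one_left (abs_nonneg _) (SS_le_one _)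
    · apply Eventually.of_forall
      intro w
      by_cases hw : w ∈ W
      · by_cases hO : w ∈ Om
        · rw [indicator_of_mem hO]
          have h3 := (tendsto_fn hw hO).mul_const (dv Z w)
          rw [one_mul] at h3
          exact h3
        · rw [indicator_of_notMem hO]
          simp_rw [fn_zero hw hO, zero_mul]
          exact tendsto_const_nhds
      · have h1 : w ∉ tsupport Z := fun h => hw (hs h)
        have h0 : dv Z w = 0 := dv_zero_of_notMem h1
        have h2 : Om.indicator (dv Z) w = 0 := by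
          by_cases hO : w ∈ Om
          · rw [indicator_of_mem hO, h0]
          · rw [indicator_of_notMem hO]
        rw [h2, h0]
        simp
  rw [← integral_indicator isOpen_Om.measurableSet]
  exact ge_of_tendsto' hlim hint

lemma intOn1 (R : ℝ) : IntegrableOn (fun w : V => 4 / ‖w.1‖) (Metric.ball 0 R) := by
  have h0 : Metric.ball (0 : V) R = Metric.ball (0 : E7) R ×ˢ Metric.ball (0 : E7) R :=
    (ball_prod_same (0 : E7) (0 : E7) R).symm
  have h1 : IntegrableOn (fun x : E7 => 4 / ‖x‖) (Metric.ball 0 R) := by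
    have h2 := (integrableOn_fun_norm_addHaar (E := E7) (μ := volume) (f := fun s => 4 / s) (r := R))
    rw [h2]
    have h3 : IntegrableOn (fun y : ℝ => 4 * y ^ 5) (Ioo 0 R) := by
      apply (Continuous.integrableOn_Icc (a := (0 : ℝ)) (b := R) (by fun_prop)).mono_set
      exact Ioo_subset_Icc_self
    refine h3.congr_fun ?_ measurableSet_Ioo
    intro y hy
    have : y ≠ 0 := hy.1.ne'
    simp
    field_simp
  rw [h0, IntegrableOn, Measure.volume_eq_prod, ← Measure.prod_restrict]
  have : IsFiniteMeasure ((volume : Measure E7).restrict (Metric.ball 0 R)) :=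
    ⟨by rw [Measure.restrict_apply_univ]; exact measure_ball_lt_top⟩
  exact Integrable.comp_fst h1 _

lemma intOn2 (R : ℝ) : IntegrableOn (fun w : V => 4 / ‖w.2‖) (Metric.ball 0 R) := by
  have h0 : Metric.ball (0 : V) R = Metric.ball (0 : E7) R ×ˢ Metric.ball (0 : E7) R :=
    (ball_prod_same (0 : E7) (0 : E7) R).symm
  have h1 : IntegrableOn (fun x : E7 => 4 / ‖x‖) (Metric.ball 0 R) := by
    have h2 := (integrableOn_fun_norm_addHaar (E := E7) (μ := volume) (f := fun s => 4 / s) (r := R))
    rw [h2]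
    have h3 : IntegrableOn (fun y : ℝ => 4 * y ^ 5) (Ioo 0 R) := by
      apply (Continuous.integrableOn_Icc (a := (0 : ℝ)) (b := R) (by fun_prop)).mono_set
      exact Ioo_subset_Icc_self
    refine h3.congr_fun ?_ measurableSet_Ioo
    intro y hy
    have : y ≠ 0 := hy.1.ne'
    simp
    field_simp
  rw [h0, IntegrableOn, Measure.volume_eq_prod, ← Measure.prod_restrict]
  have : IsFiniteMeasure ((volume : Measure E7).restrict (Metric.ball 0 R)) :=
    ⟨by rw [Measure.restrict_apply_univ]; exact measure_ball_lt_top⟩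
  exact Integrable.comp_snd h1 _

end

end Pool.Agent.H152R3
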