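import Pool.Agent.H152R3.Kap

open Set Filter Topology Real ContDiff MeasureTheory

namespace Pool.Agent.H152R3

noncomputable section

lemma exp_psi_bound : ∃ C > 0, ∀ y, 0 ≤ y → y < 1 / 2 →
    Real.exp (psi (y ^ 2)) / (1 - 4 * y ^ 2) ^ 4 ≤ C := by
  have hS : 0 < expNegInvGlue (5 / 64) := expNegInvGlue.pos_of_pos (by norm_num)
  set S := expNegInvGlue (5 / 64) with hSdef
  refine ⟨32 + 2 / S ^ 2, by positivity, ?_⟩
  intro y hy hy'
  have hm := one_sub_pos hy hy'
  have hS2 : 0 < 2 / S ^ 2 := by positivity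
  by_cases hy3 : y < 3 / 8
  · have h1 : Real.exp (psi (y ^ 2)) ≤ 1 := Real.exp_le_one_iff.2 (psi_nonpos _)
    have h2 : (1 / 32 : ℝ) ≤ (1 - 4 * y ^ 2) ^ 4 := by
      have h3 : 7 / 16 ≤ 1 - 4 * y ^ 2 := by nlinarith
      calc (1 / 32 : ℝ) ≤ (7 / 16) ^ 4 := by norm_num
        _ ≤ _ := pow_le_pow_left₀ (by norm_num) h3 4
    have h3 : Real.exp (psi (y ^ 2)) / (1 - 4 * y ^ 2) ^ 4 ≤ 1 / (1 / 32) :=
      div_le_div₀ (by norm_num) h1 (by norm_num) h2
    have h4 : (1 : ℝ) / (1 / 32) = 32 := by norm_num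
    linarith
  · push Not at hy3
    set z := S / (1 - 4 * y ^ 2) ^ 2 with hz
    have hz0 : 0 < z := by positivity
    have h1 : psi (y ^ 2) ≤ -z := by
      unfold psi
      apply neg_le_neg
      rw [hz]
      apply div_le_div_of_nonneg_right _ (by positivity)
      exact expNegInvGlue.monotone (by nlinarith)
    have h2 : Real.exp (-z) ≤ 2 / z ^ 2 := by
      rw [Real.exp_neg, inv_eq_one_div]
      rw [div_le_div_iff₀ (Real.exp_pos _) (by positivity)]
      have := Real.quadratic_le_exp_of_nonneg hz0.le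
      nlinarith
    have h3 : Real.exp (psi (y ^ 2)) ≤ 2 / z ^ 2 := (Real.exp_le_exp.2 h1).trans h2
    have h4 : 2 / z ^ 2 = 2 / S ^ 2 * (1 - 4 * y ^ 2) ^ 4 := by
      rw [hz]; field_simp
    rw [h4] at h3
    rw [div_le_iff₀ (by positivity)]
    have : 0 ≤ 32 * (1 - 4 * y ^ 2) ^ 4 := by positivity
    linarith

lemma Om_bdd : Om ⊆ Metric.ball (0 : V) 1 := by
  rintro w ⟨h1, h2⟩
  rw [mem_ball_zero_iff, Prod.norm_def]
  have h3 : ‖w.2‖ < 1 / 2 := h1
  have h4 : ‖w.1‖ < 1 := by
    have := Q_le_quarter ‖w.2‖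
    unfold P at h2
    nlinarith [sq_nonneg ‖w.1‖, norm_nonneg w.1]
  exact max_lt h4 (by linarith)

/-- Packaged hypotheses on the conformal factor. -/
structure Good (ε C : ℝ) (σ : V → ℝ) : Prop where
  hε : 0 < ε
  hC : 0 < C
  smooth : ContDiffOn ℝ ∞ σ U
  lower : ∀ w ∈ U, ell ε ‖w.1‖ ‖w.2‖ ≤ σ w
  inside : ∀ w ∈ W, P ‖w.1‖ ≤ Q ‖w.2‖ → hw w ≤ σ w ∧ σ w ≤ C / (1 - 4 * ‖w.2‖ ^ 2) ^ 4
  outside : ∀ w ∈ W, Q ‖w.2‖ ≤ P ‖w.1‖ → σ w ≤ hw w

lemma exists_good : ∃ ε C σ, Good ε C σ := by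
  obtain ⟨ε, C, σ, h1, h2, h3, h4, h5, h6⟩ := exists_sigma
  exact ⟨ε, C, σ, h1, h2, h3, h4, h5, h6⟩

variable {ε C : ℝ} {σ : V → ℝ}

lemma Good.pos (h : Good ε C σ) {w : V} (hw : w ∈ U) : 0 < σ w :=
  (ell_pos h.hε hw).trans_le (h.lower w hw)

lemma continuousOn_wt : ContinuousOn wt U := fun _ h => (cd_wt h).continuousAt.continuousWithinAt

lemma Good.cont_ws (h : Good ε C σ) : ContinuousOn (fun w => wt w * σ w) U :=
  continuousOn_wt.mul h.smooth.continuousOn

lemma Good.meas_ws (h : Good ε C σ) :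
    AEStronglyMeasurable (fun w => wt w * σ w) (volume.restrict U) :=
  h.cont_ws.aestronglyMeasurable isOpen_U.measurableSet

lemma meas_wh : AEStronglyMeasurable (fun w => wt w * hw w) (volume.restrict U) := by
  have h1 : AEStronglyMeasurable (fun w => wt w * hw w) (volume.restrict W) := by
    apply ContinuousOn.aestronglyMeasurable _ isOpen_W.measurableSet
    exact (continuousOn_wt.mono W_sub_U).mul
      (fun w h => (cd_hw h).continuousAt.continuousWithinAt)
  have h2 : (volume : Measure V).restrict U = volume.restrict W := by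
    apply Measure.restrict_congr_set
    apply eventuallyEq_set.2
    filter_upwards [ae_W] with w h
    exact ⟨h, fun h => W_sub_U h⟩
  rw [h2]; exact h1

lemma Good.int_ws (h : Good ε C σ) : IntegrableOn (fun w => wt w * σ w) Om := by
  obtain ⟨B, hB, hBb⟩ := exp_psi_bound
  have h1 : (volume : Measure V) Om < ⊤ :=
    (measure_mono Om_bdd).trans_lt measure_ball_lt_top
  have hc : IntegrableOn (fun _ : V => B * C) Om := integrableOn_const h1.ne
  apply Integrable.mono' hc (h.meas_ws.mono_measure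
    (Measure.restrict_mono (fun w hw => hw.1) le_rfl))
  rw [ae_restrict_iff' isOpen_Om.measurableSet]
  filter_upwards [ae_W] with w hw hO
  have hW := hw hO.1
  have h2 := (h.inside w hW hO.2.le).2
  have h3 := h.pos hO.1
  have h4 := wt_pos w
  have hm := U_m hO.1
  rw [Real.norm_eq_abs, abs_of_pos (by positivity)]
  have h5 := hBb ‖w.2‖ (norm_nonneg _) hO.1
  calc wt w * σ w ≤ wt w * (C / (1 - 4 * ‖w.2‖ ^ 2) ^ 4) := mul_le_mul_of_nonneg_left h2 h4.le
    _ = (Real.exp (psi (‖w.2‖ ^ 2)) / (1 - 4 * ‖w.2‖ ^ 2) ^ 4) * C := by unfold wt; ring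
    _ ≤ B * C := mul_le_mul_of_nonneg_right h5 h.hC.le

lemma Good.int_wh (h : Good ε C σ) : IntegrableOn (fun w => wt w * hw w) Om := by
  have h1 := h.int_ws.add (((intOn2 1).mono_set Om_bdd).const_mul 3)
  apply Integrable.mono' h1 (meas_wh.mono_measure
    (Measure.restrict_mono (fun w hw => hw.1) le_rfl))
  rw [ae_restrict_iff' isOpen_Om.measurableSet]
  filter_upwards [ae_W] with w hw' hO
  have hW := hw' hO.1
  have hp := W_pos hW
  have h2 := (h.inside w hW hO.2.le).1
  have h3 := h.pos hO.1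
  have h4 := wt_pos w
  have h5 := wt_le_one w
  have h6 : -(10 / ‖w.2‖) ≤ hw w := (h0_ge hp.1 hp.2.1 hp.2.2).trans (h0_le_hh hp.1 hp.2.1 hp.2.2)
  have h7 : 0 < 10 / ‖w.2‖ := by have := hp.2.1; positivity
  rw [Real.norm_eq_abs]
  simp only [Pi.add_apply]
  have h8 : 3 * (4 / ‖w.2‖) = 12 / 10 * (10 / ‖w.2‖) := by ring
  rw [h8, abs_le]
  constructor
  · have : wt w * -(10 / ‖w.2‖) ≤ wt w * hw w := mul_le_mul_of_nonneg_left h6 h4.le
    have h9 : wt w * (10 / ‖w.2‖) ≤ 10 / ‖w.2‖ := mul_le_of_le_one_left h7.le h5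
    have h10 : 0 < wt w * σ w := by positivity
    nlinarith
  · have : wt w * hw w ≤ wt w * σ w := mul_le_mul_of_nonneg_left h2 h4.le
    linarith

lemma cd_kF {κ : V → ℝ} (hκ : ContDiff ℝ 1 κ) (hs : tsupport κ ⊆ W) {F : V → V}
    (hF : ∀ w ∈ W, ContDiffAt ℝ 1 F w) : ContDiff ℝ 1 (fun w => κ w • F w) := by
  rw [contDiff_iff_contDiffAt]
  intro w
  by_cases hw : w ∈ W
  · exact hκ.contDiffAt.smul (hF w hw)
  · have h1 : w ∉ tsupport κ := fun h => hw (hs h)
    have h2 : (fun w => κ w • F w) =ᶠ[𝓝 w] fun _ => 0 := by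
      filter_upwards [notMem_tsupport_iff_eventuallyEq.1 h1] with z hz
      rw [hz]; simp
    exact contDiffAt_const.congr_of_eventuallyEq h2

lemma hcs_kF {κ : V → ℝ} (hc : HasCompactSupport κ) (F : V → V) :
    HasCompactSupport (fun w => κ w • F w) :=
  HasCompactSupport.intro hc (fun w hw => by rw [image_eq_zero_of_notMem_tsupport hw, zero_smul])

lemma ts_kF {κ : V → ℝ} (F : V → V) : tsupport (fun w => κ w • F w) ⊆ tsupport κ := by
  apply closure_minimal _ (isClosed_tsupport κ)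
  intro w hw
  by_contra h
  apply hw
  change κ w • F w = 0
  rw [image_eq_zero_of_notMem_tsupport h, zero_smul]

lemma cd_wxi {w : V} (h : w ∈ W) : ContDiffAt ℝ 1 (fun z => wt z • xi z) w :=
  ((cd_wt (W_sub_U h)).of_le (by simp)).smul ((cd_xi h).of_le (by simp))

/-- Upper bound: the flux of a field bounded by the area weight. -/
theorem Good.upper (h : Good ε C σ) {Y : V → V} (hY : ContDiff ℝ 1 Y) (hc : HasCompactSupport Y)
    (hle : ∀ w ∈ W, √(nsq (Y w)) ≤ wt w) :
    ∫ w in Om, dv Y w ≤ ∫ w in Om, wt w * hw w := by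
  obtain ⟨κ, r, hκ, hκc, hκs, hκ0, hκ1, hκd, hr, hr0, hr1, hκt⟩ := exists_kappa h.hε
  have hIY : IntegrableOn (dv Y) Om := (integrable_dv hY hc).integrableOn
  have hIh := h.int_wh
  have hIs := h.int_ws
  have hIr : ∀ m, IntegrableOn (r m) Om := fun m => (hr m).integrableOn
  let G : V → ℝ := fun w => wt w * hw w - dv Y w
  have hIG : IntegrableOn G Om := hIh.sub hIY
  have hIκG : ∀ m, IntegrableOn (fun w => κ m w * G w) Om := by
    intro m
    apply Integrable.mono hIG ((hκ m).continuous.aestronglyMeasurable.mul hIG.aestronglyMeasurable)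
    apply Eventually.of_forall
    intro w
    change ‖κ m w * G w‖ ≤ _
    rw [norm_mul, Real.norm_eq_abs, abs_of_nonneg (hκ0 m w)]
    exact mul_le_of_le_one_left (norm_nonneg _) (hκ1 m w)
  have hFc : ∀ w ∈ W, ContDiffAt ℝ 1 (fun z => wt z • xi z - Y z) w := fun w hw =>
    (cd_wxi hw).sub hY.contDiffAt
  have hstep : ∀ m : ℕ, 0 ≤ ∫ w in Om, (κ m w * G w + 4 / ((m : ℝ) + 1) * (wt w * σ w) + 2 * r m w) := by
    intro m
    have h1 := flux_nonneg (Z := fun w => κ m w • (wt w • xi w - Y w)) (cd_kF (hκ m) (hκs m) hFc)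
      (hcs_kF (hκc m) _) ((ts_kF _).trans (hκs m)) (by
        intro w hw
        have hN := Nn_pos (W_pos hw).1 ‖w.2‖
        simp only [map_smul, map_sub, smul_eq_mul]
        rw [fderiv_Phi_xi hw]
        have h2 := fderiv_Phi_le hw (Y w)
        have h3 := mul_le_mul_of_nonneg_left (hle w hw) hN.le
        have h4 : 0 ≤ wt w * Nn ‖w.1‖ ‖w.2‖ - fderiv ℝ Phi w (Y w) := by linarith
        exact mul_nonneg (hκ0 m w) h4)
    refine h1.trans ?_
    apply setIntegral_mono_on_ae
      ((integrable_dv (cd_kF (hκ m) (hκs m) hFc) (hcs_kF (hκc m) _)).integrableOn)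
      (((hIκG m).add (hIs.const_mul _)).add ((hIr m).const_mul 2)) isOpen_Om.measurableSet
    filter_upwards [ae_W] with w hw' hO
    have hU : w ∈ U := hO.1
    have hW : w ∈ W := hw' hU
    · have d1 : DifferentiableAt ℝ (κ m) w := (hκ m).differentiable (by simp) w
      have d2 : DifferentiableAt ℝ (fun z => wt z • xi z) w := (cd_wxi hW).differentiableAt (by simp)
      have d3 : DifferentiableAt ℝ Y w := hY.differentiable (by simp) w
      have e1 : dv (fun z => wt z • xi z - Y z) w = G w := by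
        have : dv (fun z => wt z • xi z - Y z) w = dv (fun z => wt z • xi z) w - dv Y w := by
          rw [dv_eq, fderiv_fun_sub d2 d3, map_sub]; rfl
        rw [this, dv_wt_xi hW]
      have e3 : dv (fun w => κ m w • (wt w • xi w - Y w)) w = κ m w * G w
          + fderiv ℝ (κ m) w (wt w • xi w - Y w) := by
        rw [← e1]
        exact dv_smul (F := fun z => wt z • xi z - Y z) d1 (d2.sub d3)
      rw [e3]
      have b0 := hκd m w hW (wt w • xi w)
      have b1 := hκd m w hW (Y w)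
      have n1 : √(nsq (wt w • xi w)) = wt w := by
        have : nsq (wt w • xi w) = wt w ^ 2 := by
          have h2 := nsq_xi hW
          unfold nsq at h2 ⊢
          simp only [Prod.smul_fst, Prod.smul_snd, norm_smul, Real.norm_eq_abs, mul_pow, sq_abs]
          rw [← mul_add, h2, mul_one]
        rw [this, Real.sqrt_sq (wt_pos w).le]
      rw [n1] at b0
      have hel := h.lower w hU
      have help := ell_pos h.hε hU
      have hq0 : 0 ≤ 2 / ((m : ℝ) + 1) * ell ε ‖w.1‖ ‖w.2‖ + r m w := by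
        have := hr0 m w
        positivity
      have b2 := mul_le_mul_of_nonneg_left (hle w hW) hq0
      have hwt := wt_le_one w
      have hwt0 := wt_pos w
      have b3 : (2 / ((m : ℝ) + 1) * ell ε ‖w.1‖ ‖w.2‖ + r m w) * wt w
          ≤ 2 / ((m : ℝ) + 1) * (wt w * σ w) + r m w := by
        have c1 : 2 / ((m : ℝ) + 1) * ell ε ‖w.1‖ ‖w.2‖ * wt w ≤ 2 / ((m : ℝ) + 1) * σ w * wt w := by
          gcongr
        have c2 : r m w * wt w ≤ r m w := mul_le_of_le_one_right (hr0 m w) hwt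
        linarith
      have b4 := le_abs_self (fderiv ℝ (κ m) w (wt w • xi w))
      have b5 := neg_abs_le (fderiv ℝ (κ m) w (Y w))
      rw [map_sub]
      have e2 : 4 / ((m : ℝ) + 1) * (wt w * σ w) = 2 * (2 / ((m : ℝ) + 1) * (wt w * σ w)) := by ring
      simp only [Pi.add_apply]
      rw [e2]
      linarith
  have hlim : Tendsto (fun m => ∫ w in Om, κ m w * G w) atTop (𝓝 (∫ w in Om, G w)) := by
    apply tendsto_integral_of_dominated_convergence (fun w => |G w|)
    · intro m; exact (hIκG m).aestronglyMeasurable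
    · exact hIG.abs
    · intro m
      apply Eventually.of_forall
      intro w
      rw [norm_mul, Real.norm_eq_abs, abs_of_nonneg (hκ0 m w)]
      exact mul_le_of_le_one_left (norm_nonneg _) (hκ1 m w)
    · rw [ae_restrict_iff' isOpen_Om.measurableSet]
      filter_upwards [ae_W] with w hw' hO
      have := (hκt w (hw' hO.1)).mul_const (G w)
      rw [one_mul] at this
      exact this
  have hstep2 : ∀ m : ℕ, 0 ≤ (∫ w in Om, κ m w * G w) +
      (4 / ((m : ℝ) + 1) * (∫ w in Om, wt w * σ w) + 2 * (1 / ((m : ℝ) + 1))) := by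
    intro m
    refine (hstep m).trans ?_
    have hA : IntegrableOn (fun w => κ m w * G w + 4 / ((m : ℝ) + 1) * (wt w * σ w)) Om :=
      (hIκG m).add (hIs.const_mul _)
    have hB : IntegrableOn (fun w => 4 / ((m : ℝ) + 1) * (wt w * σ w)) Om := hIs.const_mul _
    have hC : IntegrableOn (fun w => 2 * r m w) Om := (hIr m).const_mul 2
    rw [integral_add hA hC, integral_add (hIκG m) hB, integral_const_mul, integral_const_mul]
    have h2 : ∫ w in Om, r m w ≤ ∫ w, r m w :=
      setIntegral_le_integral (hr m) (Eventually.of_forall (hr0 m))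
    have h3 := hr1 m
    linarith
  have hlim2 : Tendsto (fun m : ℕ => (∫ w in Om, κ m w * G w) +
      (4 / ((m : ℝ) + 1) * (∫ w in Om, wt w * σ w) + 2 * (1 / ((m : ℝ) + 1)))) atTop
      (𝓝 ((∫ w in Om, G w) + (0 * (∫ w in Om, wt w * σ w) + 2 * 0))) := by
    have hm1 : Tendsto (fun m : ℕ => (m : ℝ) + 1) atTop atTop :=
      tendsto_atTop_add_const_right _ _ tendsto_natCast_atTop_atTop
    exact hlim.add (((tendsto_const_nhds.div_atTop hm1).mul_const _).add
      ((tendsto_const_nhds.div_atTop hm1).const_mul 2))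
  have hfin := ge_of_tendsto' hlim2 hstep2
  have hG : ∫ w in Om, G w = (∫ w in Om, wt w * hw w) - ∫ w in Om, dv Y w := integral_sub hIh hIY
  rw [hG] at hfin
  linarith

end

end Pool.Agent.H152R3
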