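import Pool.Agent.H152R3.Psi

open Set Filter Topology Real ContDiff

namespace Pool.Agent.H152R3

noncomputable section

/-- The seven-dimensional Euclidean space. -/
abbrev E7 := EuclideanSpace ℝ (Fin 7)
/-- The underlying fourteen-dimensional space. -/
abbrev V := E7 × E7

/-- The open domain. -/
def U : Set V := {w | ‖w.2‖ < 1 / 2}
/-- The domain minus the two axes. -/
def W : Set V := {w | w.1 ≠ 0 ∧ w.2 ≠ 0 ∧ ‖w.2‖ < 1 / 2}

/-- Euclidean divergence on `V`. -/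
def dv (F : V → V) (w : V) : ℝ := LinearMap.trace ℝ V (fderiv ℝ F w : V →ₗ[ℝ] V)

lemma isOpen_U : IsOpen U := isOpen_lt (continuous_snd.norm) continuous_const

lemma isOpen_W : IsOpen W := by
  have h1 : IsOpen {w : V | w.1 ≠ 0} := isOpen_ne_fun continuous_fst continuous_const
  have h2 : IsOpen {w : V | w.2 ≠ 0} := isOpen_ne_fun continuous_snd continuous_const
  exact h1.inter (h2.inter isOpen_U)

lemma W_sub_U : W ⊆ U := fun _ h => h.2.2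

lemma W_pos {w : V} (hw : w ∈ W) : 0 < ‖w.1‖ ∧ 0 < ‖w.2‖ ∧ ‖w.2‖ < 1 / 2 :=
  ⟨norm_pos_iff.2 hw.1, norm_pos_iff.2 hw.2.1, hw.2.2⟩

lemma dv_smul {f : V → ℝ} {F : V → V} {w : V} (hf : DifferentiableAt ℝ f w)
    (hF : DifferentiableAt ℝ F w) :
    dv (fun z => f z • F z) w = f w * dv F w + fderiv ℝ f w (F w) := by
  unfold dv
  rw [fderiv_fun_smul hf hF]
  have : ((f w • fderiv ℝ F w + (fderiv ℝ f w).smulRight (F w) : V →L[ℝ] V) : V →ₗ[ℝ] V)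
      = f w • (fderiv ℝ F w : V →ₗ[ℝ] V) + ((fderiv ℝ f w : V →ₗ[ℝ] ℝ)).smulRight (F w) := by
    ext <;> simp
  rw [this, map_add, map_smul, LinearMap.trace_smulRight]
  simp

lemma dv_add {F G : V → V} {w : V} (hF : DifferentiableAt ℝ F w) (hG : DifferentiableAt ℝ G w) :
    dv (fun z => F z + G z) w = dv F w + dv G w := by
  unfold dv
  rw [fderiv_fun_add hF hG]
  simp

/-- Projection on the first factor, as a field. -/
def L1 : V →L[ℝ] V := (ContinuousLinearMap.inl ℝ E7 E7).comp (ContinuousLinearMap.fst ℝ E7 E7)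
/-- Projection on the second factor, as a field. -/
def L2 : V →L[ℝ] V := (ContinuousLinearMap.inr ℝ E7 E7).comp (ContinuousLinearMap.snd ℝ E7 E7)

lemma L1_apply (w : V) : L1 w = (w.1, 0) := by simp [L1]
lemma L2_apply (w : V) : L2 w = (0, w.2) := by simp [L2]

lemma dv_L1 (w : V) : dv (fun z => L1 z) w = 7 := by
  unfold dv
  rw [ContinuousLinearMap.fderiv]
  have : (L1 : V →ₗ[ℝ] V) = LinearMap.prodMap (LinearMap.id : E7 →ₗ[ℝ] E7) (0 : E7 →ₗ[ℝ] E7) := by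
    ext <;> simp [L1]
  rw [this, LinearMap.trace_prodMap', LinearMap.trace_id]
  simp

lemma dv_L2 (w : V) : dv (fun z => L2 z) w = 7 := by
  unfold dv
  rw [ContinuousLinearMap.fderiv]
  have : (L2 : V →ₗ[ℝ] V) = LinearMap.prodMap (0 : E7 →ₗ[ℝ] E7) (LinearMap.id : E7 →ₗ[ℝ] E7) := by
    ext <;> simp [L2]
  rw [this, LinearMap.trace_prodMap', LinearMap.trace_id]
  simp

lemma cd_n1 {w : V} (hw : w.1 ≠ 0) : ContDiffAt ℝ ∞ (fun z : V => ‖z.1‖) w :=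
  ContDiffAt.norm ℝ contDiffAt_fst hw

lemma cd_n2 {w : V} (hw : w.2 ≠ 0) : ContDiffAt ℝ ∞ (fun z : V => ‖z.2‖) w :=
  ContDiffAt.norm ℝ contDiffAt_snd hw

section gen
variable {F : Type*} [NormedAddCommGroup F] [NormedSpace ℝ F] {f g : F → ℝ} {w : F}

lemma cd_A (hf : ContDiffAt ℝ ∞ f w) : ContDiffAt ℝ ∞ (fun z => A (f z)) w := by
  unfold A P; fun_prop

lemma cd_B (hf : ContDiffAt ℝ ∞ f w) : ContDiffAt ℝ ∞ (fun z => B (f z)) w := by
  unfold B Q; fun_prop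

lemma cd_Nn (hf : ContDiffAt ℝ ∞ f w) (hg : ContDiffAt ℝ ∞ g w) (h : 0 < f w) :
    ContDiffAt ℝ ∞ (fun z => Nn (f z) (g z)) w := by
  unfold Nn
  apply ContDiffAt.sqrt
  · exact ((cd_A hf).pow 2).add ((cd_B hg).pow 2)
  · have := A_pos h
    positivity

lemma cd_h0 (hf : ContDiffAt ℝ ∞ f w) (hg : ContDiffAt ℝ ∞ g w) (h : 0 < f w) (h' : 0 < g w) :
    ContDiffAt ℝ ∞ (fun z => h0 (f z) (g z)) w := by
  unfold h0
  have hN := cd_Nn hf hg h
  have hN' := (Nn_pos h (g w)).ne'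
  have hA := cd_A hf
  have hB := cd_B hg
  have hdA : ContDiffAt ℝ ∞ (fun z => dA (f z)) w := by unfold dA P; fun_prop
  have hdB : ContDiffAt ℝ ∞ (fun z => dB (g z)) w := by unfold dB Q; fun_prop
  apply ContDiffAt.add
  · apply ContDiffAt.div _ hN hN'
    apply contDiffAt_const.mul
    exact (hA.div hf h.ne').sub (hB.div hg h'.ne')
  · apply ContDiffAt.div _ (hN.pow 3) (pow_ne_zero 3 hN')
    exact (hdA.mul (hB.pow 2)).sub (hdB.mul (hA.pow 2))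

lemma cd_D (hg : ContDiffAt ℝ ∞ g w) (h' : 0 ≤ g w) (h'' : g w < 1 / 2) :
    ContDiffAt ℝ ∞ (fun z => D (g z)) w := by
  unfold D
  apply ContDiffAt.neg
  apply ContDiffAt.mul (contDiffAt_const.mul hg)
  exact ContDiffAt.comp (g := dpsi) (f := fun z => g z ^ 2) w
    (contDiffAt_dpsi (sq_lt_quarter h' h'')) (hg.pow 2)

lemma cd_hh (hf : ContDiffAt ℝ ∞ f w) (hg : ContDiffAt ℝ ∞ g w) (h : 0 < f w) (h' : 0 < g w)
    (h'' : g w < 1 / 2) :
    ContDiffAt ℝ ∞ (fun z => hh (f z) (g z)) w := by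
  unfold hh
  apply (cd_h0 hf hg h h').add
  exact ((cd_B hg).div (cd_Nn hf hg h) (Nn_pos h (g w)).ne').mul (cd_D hg h'.le h'')

end gen

/-- The divergence function on the domain. -/
def hw (w : V) : ℝ := hh ‖w.1‖ ‖w.2‖

lemma cd_hw {w : V} (h : w ∈ W) : ContDiffAt ℝ ∞ hw w :=
  cd_hh (cd_n1 h.1) (cd_n2 h.2.1) (W_pos h).1 (W_pos h).2.1 (W_pos h).2.2

/-- The area weight. -/
def wt (w : V) : ℝ := Real.exp (psi (‖w.2‖ ^ 2))

lemma cd_wt {w : V} (h : w ∈ U) : ContDiffAt ℝ ∞ wt w := by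
  unfold wt
  apply ContDiffAt.exp
  have h1 : ContDiffAt ℝ ∞ (fun z : V => ‖z.2‖ ^ 2) w := ContDiffAt.norm_sq ℝ contDiffAt_snd
  have h2 : ‖w.2‖ < 1 / 2 := h
  exact ContDiffAt.comp (g := psi) (f := fun z : V => ‖z.2‖ ^ 2) w
    (contDiffAt_psi (sq_lt_quarter (norm_nonneg _) h2)) h1

lemma wt_pos (w : V) : 0 < wt w := Real.exp_pos _

lemma wt_le_one (w : V) : wt w ≤ 1 := Real.exp_le_one_iff.2 (psi_nonpos _)

/-- First coefficient of the unit field. -/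
def c1 (x y : ℝ) : ℝ := A x / Nn x y / x
/-- Second coefficient of the unit field. -/
def c2 (x y : ℝ) : ℝ := B y / Nn x y / y

/-- The calibrating unit field. -/
def xi (w : V) : V := c1 ‖w.1‖ ‖w.2‖ • L1 w + (-c2 ‖w.1‖ ‖w.2‖) • L2 w

lemma xi_fst (w : V) : (xi w).1 = c1 ‖w.1‖ ‖w.2‖ • w.1 := by simp [xi, L1_apply, L2_apply]
lemma xi_snd (w : V) : (xi w).2 = (-c2 ‖w.1‖ ‖w.2‖) • w.2 := by simp [xi, L1_apply, L2_apply]

lemma cd_c1 {w : V} (h : w ∈ W) : ContDiffAt ℝ ∞ (fun w : V => c1 ‖w.1‖ ‖w.2‖) w := by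
  unfold c1
  have h1 := cd_n1 h.1
  have h2 := cd_n2 h.2.1
  have h3 := W_pos h
  exact ((cd_A h1).div (cd_Nn h1 h2 h3.1) (Nn_pos h3.1 _).ne').div h1 h3.1.ne'

lemma cd_c2 {w : V} (h : w ∈ W) : ContDiffAt ℝ ∞ (fun w : V => c2 ‖w.1‖ ‖w.2‖) w := by
  unfold c2
  have h1 := cd_n1 h.1
  have h2 := cd_n2 h.2.1
  have h3 := W_pos h
  exact ((cd_B h2).div (cd_Nn h1 h2 h3.1) (Nn_pos h3.1 _).ne').div h2 h3.2.1.ne'

lemma cd_xi {w : V} (h : w ∈ W) : ContDiffAt ℝ ∞ xi w := by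
  unfold xi
  exact ((cd_c1 h).smul L1.contDiff.contDiffAt).add ((cd_c2 h).neg.smul L2.contDiff.contDiffAt)

lemma hasDerivAt_A (x : ℝ) : HasDerivAt A (dA x) x := by
  have h1 : HasDerivAt P (1 + 2 * x) x := by
    have := (hasDerivAt_id x).add ((hasDerivAt_id x).pow 2)
    refine HasDerivAt.congr_deriv (f := P) this ?_
    simp
  have h2 : HasDerivAt (fun x : ℝ => 1 + 2 * x) 2 x := by
    have := ((hasDerivAt_id x).const_mul 2).const_add 1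
    exact HasDerivAt.congr_deriv this (by norm_num)
  refine HasDerivAt.congr_deriv (f := A) ((h1.pow 2).mul h2) ?_
  unfold dA
  simp
  ring

lemma hasDerivAt_B (y : ℝ) : HasDerivAt B (dB y) y := by
  have h1 : HasDerivAt Q (1 - 2 * y) y := by
    have := (hasDerivAt_id y).sub ((hasDerivAt_id y).pow 2)
    refine HasDerivAt.congr_deriv (f := Q) this ?_
    simp
  have h2 : HasDerivAt (fun x : ℝ => 1 - 2 * x) (-2) y := by
    have := ((hasDerivAt_id y).const_mul 2).const_sub 1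
    exact HasDerivAt.congr_deriv this (by norm_num)
  refine HasDerivAt.congr_deriv (f := B) ((h1.pow 2).mul h2) ?_
  unfold dB
  simp
  ring

lemma hasDerivAt_uN {x : ℝ} (hx : 0 < x) (y : ℝ) :
    HasDerivAt (fun x => A x / Nn x y) (dA x * B y ^ 2 / Nn x y ^ 3) x := by
  have hN := Nn_pos hx y
  have hN2 := Nn_sq x y
  have h1 : HasDerivAt (fun x => Nn x y) (A x * dA x / Nn x y) x := by
    have h2 : HasDerivAt (fun x => A x ^ 2 + B y ^ 2) (2 * A x * dA x) x := by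
      refine HasDerivAt.congr_deriv (((hasDerivAt_A x).pow 2).add_const _) ?_
      simp
    have h3 := h2.sqrt (by rw [← hN2]; positivity)
    refine HasDerivAt.congr_deriv h3 ?_
    change 2 * A x * dA x / (2 * Nn x y) = _
    field_simp
  refine HasDerivAt.congr_deriv ((hasDerivAt_A x).div h1 hN.ne') ?_
  have : dA x * Nn x y - A x * (A x * dA x / Nn x y) = dA x * B y ^ 2 / Nn x y := by
    field_simp
    rw [hN2]; ring
  rw [this]
  field_simp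

lemma hasDerivAt_vN {x y : ℝ} (hx : 0 < x) :
    HasDerivAt (fun y => B y / Nn x y) (dB y * A x ^ 2 / Nn x y ^ 3) y := by
  have hN := Nn_pos hx y
  have hN2 := Nn_sq x y
  have h1 : HasDerivAt (fun y => Nn x y) (B y * dB y / Nn x y) y := by
    have h2 : HasDerivAt (fun y => A x ^ 2 + B y ^ 2) (2 * B y * dB y) y := by
      refine HasDerivAt.congr_deriv (((hasDerivAt_B y).pow 2).const_add _) ?_
      simp
    have h3 := h2.sqrt (by rw [← hN2]; positivity)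
    refine HasDerivAt.congr_deriv h3 ?_
    change 2 * B y * dB y / (2 * Nn x y) = _
    field_simp
  refine HasDerivAt.congr_deriv ((hasDerivAt_B y).div h1 hN.ne') ?_
  have : dB y * Nn x y - B y * (B y * dB y / Nn x y) = dB y * A x ^ 2 / Nn x y := by
    field_simp
    rw [hN2]; ring
  rw [this]
  field_simp

lemma fderiv_c1 {w : V} (h : w ∈ W) :
    fderiv ℝ (fun w : V => c1 ‖w.1‖ ‖w.2‖) w (L1 w) =
      dA ‖w.1‖ * B ‖w.2‖ ^ 2 / Nn ‖w.1‖ ‖w.2‖ ^ 3 - A ‖w.1‖ / Nn ‖w.1‖ ‖w.2‖ / ‖w.1‖ := by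
  have hd : HasFDerivAt (fun w : V => c1 ‖w.1‖ ‖w.2‖)
      (fderiv ℝ (fun w : V => c1 ‖w.1‖ ‖w.2‖) w) w :=
    ((cd_c1 h).differentiableAt (by simp)).hasFDerivAt
  have hp := W_pos h
  set x := ‖w.1‖ with hx
  set y := ‖w.2‖ with hy
  have hline : HasDerivAt (fun s : ℝ => w + s • L1 w) (L1 w) 0 := by
    have := ((hasDerivAt_id (0 : ℝ)).smul_const (L1 w)).const_add w
    exact HasDerivAt.congr_deriv this (by simp)
  have h1 : HasDerivAt (fun s : ℝ => c1 ‖(w + s • L1 w).1‖ ‖(w + s • L1 w).2‖)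
      (fderiv ℝ (fun w : V => c1 ‖w.1‖ ‖w.2‖) w (L1 w)) 0 := by
    have h2 : HasFDerivAt (fun w : V => c1 ‖w.1‖ ‖w.2‖)
      (fderiv ℝ (fun w : V => c1 ‖w.1‖ ‖w.2‖) w) (w + (0 : ℝ) • L1 w) := by
      rw [zero_smul, add_zero]; exact hd
    exact h2.comp_hasDerivAt (0 : ℝ) hline
  have h3 : (fun s : ℝ => c1 ‖(w + s • L1 w).1‖ ‖(w + s • L1 w).2‖)
      =ᶠ[𝓝 0] (fun s : ℝ => c1 ((1 + s) * x) y) := by
    have : ∀ᶠ s : ℝ in 𝓝 0, -1 < s := lt_mem_nhds (by norm_num)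
    filter_upwards [this] with s hs
    have e1 : (w + s • L1 w).1 = (1 + s) • w.1 := by
      rw [L1_apply]; simp [add_smul]
    have e2 : (w + s • L1 w).2 = w.2 := by
      rw [L1_apply]; simp
    rw [e1, e2, norm_smul, Real.norm_eq_abs, abs_of_pos (by linarith)]
  have h4 : HasDerivAt (fun s : ℝ => c1 ((1 + s) * x) y)
      (((dA x * B y ^ 2 / Nn x y ^ 3) * x - A x / Nn x y) / x ^ 2 * x) 0 := by
    have h5 : HasDerivAt (fun s : ℝ => (1 + s) * x) x 0 := by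
      have := ((hasDerivAt_id (0 : ℝ)).const_add 1).mul_const x
      exact HasDerivAt.congr_deriv this (by simp)
    have h6 : HasDerivAt (fun x => c1 x y)
        (((dA x * B y ^ 2 / Nn x y ^ 3) * x - A x / Nn x y) / x ^ 2) x := by
      refine HasDerivAt.congr_deriv ((hasDerivAt_uN hp.1 y).div (hasDerivAt_id x) hp.1.ne') ?_
      simp
    have h7 : HasDerivAt (fun x => c1 x y)
        (((dA x * B y ^ 2 / Nn x y ^ 3) * x - A x / Nn x y) / x ^ 2) ((1 + 0) * x) := by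
      rw [add_zero, one_mul]; exact h6
    exact h7.comp (0 : ℝ) h5
  have h8 := (h4.congr_of_eventuallyEq h3).unique h1
  rw [← h8]
  have := hp.1.ne'
  field_simp

lemma fderiv_c2 {w : V} (h : w ∈ W) :
    fderiv ℝ (fun w : V => c2 ‖w.1‖ ‖w.2‖) w (L2 w) =
      dB ‖w.2‖ * A ‖w.1‖ ^ 2 / Nn ‖w.1‖ ‖w.2‖ ^ 3 - B ‖w.2‖ / Nn ‖w.1‖ ‖w.2‖ / ‖w.2‖ := by
  have hd : HasFDerivAt (fun w : V => c2 ‖w.1‖ ‖w.2‖)
      (fderiv ℝ (fun w : V => c2 ‖w.1‖ ‖w.2‖) w) w :=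
    ((cd_c2 h).differentiableAt (by simp)).hasFDerivAt
  have hp := W_pos h
  set x := ‖w.1‖ with hx
  set y := ‖w.2‖ with hy
  have hline : HasDerivAt (fun s : ℝ => w + s • L2 w) (L2 w) 0 := by
    have := ((hasDerivAt_id (0 : ℝ)).smul_const (L2 w)).const_add w
    exact HasDerivAt.congr_deriv this (by simp)
  have h1 : HasDerivAt (fun s : ℝ => c2 ‖(w + s • L2 w).1‖ ‖(w + s • L2 w).2‖)
      (fderiv ℝ (fun w : V => c2 ‖w.1‖ ‖w.2‖) w (L2 w)) 0 := by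
    have h2 : HasFDerivAt (fun w : V => c2 ‖w.1‖ ‖w.2‖)
      (fderiv ℝ (fun w : V => c2 ‖w.1‖ ‖w.2‖) w) (w + (0 : ℝ) • L2 w) := by
      rw [zero_smul, add_zero]; exact hd
    exact h2.comp_hasDerivAt (0 : ℝ) hline
  have h3 : (fun s : ℝ => c2 ‖(w + s • L2 w).1‖ ‖(w + s • L2 w).2‖)
      =ᶠ[𝓝 0] (fun s : ℝ => c2 x ((1 + s) * y)) := by
    have : ∀ᶠ s : ℝ in 𝓝 0, -1 < s := lt_mem_nhds (by norm_num)
    filter_upwards [this] with s hs
    have e1 : (w + s • L2 w).1 = w.1 := by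
      rw [L2_apply]; simp
    have e2 : (w + s • L2 w).2 = (1 + s) • w.2 := by
      rw [L2_apply]; simp [add_smul]
    rw [e1, e2, norm_smul, Real.norm_eq_abs, abs_of_pos (by linarith)]
  have h4 : HasDerivAt (fun s : ℝ => c2 x ((1 + s) * y))
      (((dB y * A x ^ 2 / Nn x y ^ 3) * y - B y / Nn x y) / y ^ 2 * y) 0 := by
    have h5 : HasDerivAt (fun s : ℝ => (1 + s) * y) y 0 := by
      have := ((hasDerivAt_id (0 : ℝ)).const_add 1).mul_const y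
      exact HasDerivAt.congr_deriv this (by simp)
    have h6 : HasDerivAt (fun y => c2 x y)
        (((dB y * A x ^ 2 / Nn x y ^ 3) * y - B y / Nn x y) / y ^ 2) y := by
      refine HasDerivAt.congr_deriv ((hasDerivAt_vN hp.1).div (hasDerivAt_id y) hp.2.1.ne') ?_
      simp
    have h7 : HasDerivAt (fun y => c2 x y)
        (((dB y * A x ^ 2 / Nn x y ^ 3) * y - B y / Nn x y) / y ^ 2) ((1 + 0) * y) := by
      rw [add_zero, one_mul]; exact h6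
    exact h7.comp (0 : ℝ) h5
  have h8 := (h4.congr_of_eventuallyEq h3).unique h1
  rw [← h8]
  have := hp.2.1.ne'
  field_simp

lemma dv_xi {w : V} (h : w ∈ W) : dv xi w = h0 ‖w.1‖ ‖w.2‖ := by
  have hd1 : DifferentiableAt ℝ (fun w : V => c1 ‖w.1‖ ‖w.2‖) w :=
    (cd_c1 h).differentiableAt (by simp)
  have hd2 : DifferentiableAt ℝ (fun w : V => -c2 ‖w.1‖ ‖w.2‖) w :=
    (cd_c2 h).neg.differentiableAt (by simp)
  have hd2' : DifferentiableAt ℝ (fun w : V => c2 ‖w.1‖ ‖w.2‖) w :=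
    (cd_c2 h).differentiableAt (by simp)
  have hL1 : DifferentiableAt ℝ (fun z => L1 z) w := L1.differentiableAt
  have hL2 : DifferentiableAt ℝ (fun z => L2 z) w := L2.differentiableAt
  have h1 : dv xi w = dv (fun z => c1 ‖z.1‖ ‖z.2‖ • L1 z) w
      + dv (fun z => (-c2 ‖z.1‖ ‖z.2‖) • L2 z) w := dv_add (hd1.smul hL1) (hd2.smul hL2)
  rw [h1, dv_smul hd1 hL1, dv_smul hd2 hL2, dv_L1, dv_L2, fderiv_c1 h, fderiv_fun_neg]
  rw [neg_apply, fderiv_c2 h]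
  have hp := W_pos h
  unfold h0 c1 c2
  have := (Nn_pos hp.1 ‖w.2‖).ne'
  have h2 := hp.1.ne'
  have h3 := hp.2.1.ne'
  field_simp
  ring

lemma hasFDerivAt_wt {w : V} (h : w ∈ U) :
    HasFDerivAt wt ((wt w * (2 * dpsi (‖w.2‖ ^ 2))) •
      ((innerSL ℝ w.2).comp (ContinuousLinearMap.snd ℝ E7 E7))) w := by
  have h2 : ‖w.2‖ < 1 / 2 := h
  have h1 : HasFDerivAt (fun z : V => ‖z.2‖ ^ 2)
      (2 • ((innerSL ℝ w.2).comp (ContinuousLinearMap.snd ℝ E7 E7))) w :=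
    (hasFDerivAt_snd (p := w)).norm_sq
  have h3 : HasFDerivAt (fun z : V => psi (‖z.2‖ ^ 2))
      (dpsi (‖w.2‖ ^ 2) • (2 • ((innerSL ℝ w.2).comp (ContinuousLinearMap.snd ℝ E7 E7)))) w :=
    HasDerivAt.comp_hasFDerivAt (h₂ := psi) (f := fun z : V => ‖z.2‖ ^ 2) w
      (hasDerivAt_psi (sq_lt_quarter (norm_nonneg _) h2)) h1
  have h4 := h3.exp
  refine h4.congr_fderiv ?_
  unfold wt
  ext v <;> simp <;> ring

lemma fderiv_wt_xi {w : V} (h : w ∈ W) :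
    fderiv ℝ wt w (xi w) = wt w * (B ‖w.2‖ / Nn ‖w.1‖ ‖w.2‖ * D ‖w.2‖) := by
  rw [(hasFDerivAt_wt (W_sub_U h)).fderiv]
  simp only [smul_apply, ContinuousLinearMap.comp_apply, innerSL_apply_apply,
    ContinuousLinearMap.coe_snd', xi_snd, inner_smul_right, real_inner_self_eq_norm_sq, smul_eq_mul]
  unfold c2 D
  have := (W_pos h).2.1.ne'
  field_simp

/-- The weighted calibrating field has divergence `wt * hw`. -/
lemma dv_wt_xi {w : V} (h : w ∈ W) : dv (fun z => wt z • xi z) w = wt w * hw w := by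
  rw [dv_smul ((cd_wt (W_sub_U h)).differentiableAt (by simp)) ((cd_xi h).differentiableAt (by simp)),
    dv_xi h, fderiv_wt_xi h]
  unfold hw hh
  ring

/-- Euclidean length squared on `V`. -/
def nsq (v : V) : ℝ := ‖v.1‖ ^ 2 + ‖v.2‖ ^ 2

lemma nsq_xi {w : V} (h : w ∈ W) : nsq (xi w) = 1 := by
  unfold nsq
  rw [xi_fst, xi_snd, norm_smul, norm_smul]
  have hp := W_pos h
  have hN := Nn_pos hp.1 ‖w.2‖
  have hN2 := Nn_sq ‖w.1‖ ‖w.2‖
  unfold c1 c2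
  simp only [Real.norm_eq_abs, abs_neg, mul_pow, sq_abs]
  have h2 := hp.1.ne'
  have h3 := hp.2.1.ne'
  field_simp
  linarith

/-- The defining function. -/
def Phi (w : V) : ℝ := (P ‖w.1‖ ^ 3 - Q ‖w.2‖ ^ 3) / 3

lemma cd_Phi {w : V} (h : w ∈ W) : ContDiffAt ℝ ∞ Phi w := by
  unfold Phi P Q
  have h1 := cd_n1 h.1
  have h2 := cd_n2 h.2.1
  fun_prop

lemma hasFDerivAt_Phi {w : V} (h : w ∈ W) :
    HasFDerivAt Phi ((A ‖w.1‖ / ‖w.1‖) • ((innerSL ℝ w.1).comp (ContinuousLinearMap.fst ℝ E7 E7))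
      - (B ‖w.2‖ / ‖w.2‖) • ((innerSL ℝ w.2).comp (ContinuousLinearMap.snd ℝ E7 E7))) w := by
  have hp := W_pos h
  have h1 : HasFDerivAt (fun z : V => ‖z.1‖ ^ 2)
      (2 • ((innerSL ℝ w.1).comp (ContinuousLinearMap.fst ℝ E7 E7))) w :=
    (hasFDerivAt_fst (p := w)).norm_sq
  have h2 : HasFDerivAt (fun z : V => ‖z.2‖ ^ 2)
      (2 • ((innerSL ℝ w.2).comp (ContinuousLinearMap.snd ℝ E7 E7))) w :=
    (hasFDerivAt_snd (p := w)).norm_sq
  have n1 : HasFDerivAt (fun z : V => ‖z.1‖)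
      ((1 / ‖w.1‖) • ((innerSL ℝ w.1).comp (ContinuousLinearMap.fst ℝ E7 E7))) w := by
    have h3 := h1.sqrt (pow_ne_zero 2 hp.1.ne')
    have e : (fun z : V => √(‖z.1‖ ^ 2)) = fun z : V => ‖z.1‖ := by
      funext z; exact Real.sqrt_sq (norm_nonneg _)
    rw [e] at h3
    refine h3.congr_fderiv ?_
    rw [Real.sqrt_sq (norm_nonneg _)]
    have := hp.1.ne'
    ext v <;> simp <;> field_simp
  have n2 : HasFDerivAt (fun z : V => ‖z.2‖)
      ((1 / ‖w.2‖) • ((innerSL ℝ w.2).comp (ContinuousLinearMap.snd ℝ E7 E7))) w := by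
    have h3 := h2.sqrt (pow_ne_zero 2 hp.2.1.ne')
    have e : (fun z : V => √(‖z.2‖ ^ 2)) = fun z : V => ‖z.2‖ := by
      funext z; exact Real.sqrt_sq (norm_nonneg _)
    rw [e] at h3
    refine h3.congr_fderiv ?_
    rw [Real.sqrt_sq (norm_nonneg _)]
    have := hp.2.1.ne'
    ext v <;> simp <;> field_simp
  have dP : HasDerivAt (fun x => P x ^ 3 / 3) (A ‖w.1‖) ‖w.1‖ := by
    have h1 : HasDerivAt P (1 + 2 * ‖w.1‖) ‖w.1‖ := by
      have := (hasDerivAt_id ‖w.1‖).add ((hasDerivAt_id ‖w.1‖).pow 2)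
      refine HasDerivAt.congr_deriv (f := P) this ?_
      simp
    refine HasDerivAt.congr_deriv ((h1.pow 3).div_const 3) ?_
    unfold A; simp; ring
  have dQ : HasDerivAt (fun x => Q x ^ 3 / 3) (B ‖w.2‖) ‖w.2‖ := by
    have h1 : HasDerivAt Q (1 - 2 * ‖w.2‖) ‖w.2‖ := by
      have := (hasDerivAt_id ‖w.2‖).sub ((hasDerivAt_id ‖w.2‖).pow 2)
      refine HasDerivAt.congr_deriv (f := Q) this ?_
      simp
    refine HasDerivAt.congr_deriv ((h1.pow 3).div_const 3) ?_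
    unfold B; simp; ring
  have h5 := (dP.comp_hasFDerivAt w n1).sub (dQ.comp_hasFDerivAt w n2)
  have e : Phi = (fun x => P x ^ 3 / 3) ∘ (fun z : V => ‖z.1‖)
      - (fun x => Q x ^ 3 / 3) ∘ (fun z : V => ‖z.2‖) := by
    funext z; simp [Phi]; ring
  rw [e]
  refine h5.congr_fderiv ?_
  ext v <;> simp <;> ring

lemma fderiv_Phi {w : V} (h : w ∈ W) (v : V) :
    fderiv ℝ Phi w v = A ‖w.1‖ / ‖w.1‖ * inner ℝ w.1 v.1 - B ‖w.2‖ / ‖w.2‖ * inner ℝ w.2 v.2 := by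
  rw [(hasFDerivAt_Phi h).fderiv]
  simp

lemma fderiv_Phi_xi {w : V} (h : w ∈ W) : fderiv ℝ Phi w (xi w) = Nn ‖w.1‖ ‖w.2‖ := by
  rw [fderiv_Phi h, xi_fst, xi_snd, inner_smul_right, inner_smul_right,
    real_inner_self_eq_norm_sq, real_inner_self_eq_norm_sq]
  have hp := W_pos h
  have hN := Nn_pos hp.1 ‖w.2‖
  have hN2 := Nn_sq ‖w.1‖ ‖w.2‖
  unfold c1 c2
  have h2 := hp.1.ne'
  have h3 := hp.2.1.ne'
  have : A ‖w.1‖ / ‖w.1‖ * (A ‖w.1‖ / Nn ‖w.1‖ ‖w.2‖ / ‖w.1‖ * ‖w.1‖ ^ 2) -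
    B ‖w.2‖ / ‖w.2‖ * (-(B ‖w.2‖ / Nn ‖w.1‖ ‖w.2‖ / ‖w.2‖) * ‖w.2‖ ^ 2)
    = (A ‖w.1‖ ^ 2 + B ‖w.2‖ ^ 2) / Nn ‖w.1‖ ‖w.2‖ := by
    field_simp
    ring
  rw [this, ← hN2]
  field_simp

lemma cs2 {a b p q : ℝ} : a * p + b * q ≤ √(a ^ 2 + b ^ 2) * √(p ^ 2 + q ^ 2) := by
  rw [← Real.sqrt_mul (by positivity)]
  apply Real.le_sqrt_of_sq_le
  nlinarith [sq_nonneg (a * q - b * p)]

lemma fderiv_Phi_le {w : V} (h : w ∈ W) (v : V) :
    fderiv ℝ Phi w v ≤ Nn ‖w.1‖ ‖w.2‖ * √(nsq v) := by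
  rw [fderiv_Phi h]
  have hp := W_pos h
  have hA := A_pos hp.1
  have hB := B_pos hp.2.1 hp.2.2
  have h1 : A ‖w.1‖ / ‖w.1‖ * inner ℝ w.1 v.1 ≤ A ‖w.1‖ * ‖v.1‖ := by
    have := real_inner_le_norm w.1 v.1
    calc A ‖w.1‖ / ‖w.1‖ * inner ℝ w.1 v.1 ≤ A ‖w.1‖ / ‖w.1‖ * (‖w.1‖ * ‖v.1‖) :=
          mul_le_mul_of_nonneg_left this (by positivity)
      _ = _ := by have := hp.1.ne'; field_simp
  have h2 : -(B ‖w.2‖ / ‖w.2‖ * inner ℝ w.2 v.2) ≤ B ‖w.2‖ * ‖v.2‖ := by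
    have := real_inner_le_norm w.2 (-v.2)
    rw [inner_neg_right, norm_neg] at this
    calc -(B ‖w.2‖ / ‖w.2‖ * inner ℝ w.2 v.2) = B ‖w.2‖ / ‖w.2‖ * (-inner ℝ w.2 v.2) := by ring
      _ ≤ B ‖w.2‖ / ‖w.2‖ * (‖w.2‖ * ‖v.2‖) := mul_le_mul_of_nonneg_left this (by positivity)
      _ = _ := by have := hp.2.1.ne'; field_simp
  have h3 := cs2 (a := A ‖w.1‖) (b := B ‖w.2‖) (p := ‖v.1‖) (q := ‖v.2‖)
  unfold Nn nsq
  linarith

end

end Pool.Agent.H152R3
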