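import Pool.Agent.H152R3.Sigma

open Set Filter Topology Real ContDiff MeasureTheory

namespace Pool.Agent.H152R3

noncomputable section

/-- Square of the positive part. -/
def pq (s : ℝ) : ℝ := (max s 0) ^ 2

lemma pq_nonneg (s : ℝ) : 0 ≤ pq s := by unfold pq; positivity

lemma pq_zero {s : ℝ} (h : s ≤ 0) : pq s = 0 := by simp [pq, max_eq_right h]

lemma pq_pos {s : ℝ} (h : 0 ≤ s) : pq s = s ^ 2 := by simp [pq, max_eq_left h]

lemma hasDerivAt_pq (s : ℝ) : HasDerivAt pq (2 * max s 0) s := by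
  rcases lt_trichotomy s 0 with h | h | h
  · have : pq =ᶠ[𝓝 s] fun _ => 0 := by
      filter_upwards [gt_mem_nhds h] with z hz
      exact pq_zero hz.le
    rw [max_eq_right h.le, mul_zero]
    exact (hasDerivAt_const s (0 : ℝ)).congr_of_eventuallyEq this
  · subst h
    rw [max_self, mul_zero, hasDerivAt_iff_tendsto_slope]
    have h1 : Tendsto (fun z : ℝ => max z 0) (𝓝[≠] 0) (𝓝 0) := by
      have h2 : Continuous (fun z : ℝ => max z 0) := by fun_prop
      have h3 := h2.continuousAt (x := (0 : ℝ)) |>.tendsto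
      simp only [max_self] at h3
      exact h3.mono_left nhdsWithin_le_nhds
    refine h1.congr' ?_
    filter_upwards [self_mem_nhdsWithin] with z hz
    have hz' : z ≠ 0 := hz
    rw [slope_def_field, pq_zero le_rfl]
    rcases lt_or_gt_of_ne hz' with h | h
    · rw [pq_zero h.le, max_eq_right h.le]; simp
    · rw [pq_pos h.le, max_eq_left h.le]; field_simp; ring
  · have : pq =ᶠ[𝓝 s] fun z => z ^ 2 := by
      filter_upwards [lt_mem_nhds h] with z hz
      exact pq_pos hz.le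
    rw [max_eq_left h.le]
    have h2 := (hasDerivAt_pow 2 s).congr_of_eventuallyEq this
    refine HasDerivAt.congr_deriv h2 ?_
    simp

lemma contDiff_pq : ContDiff ℝ 1 pq := by
  rw [contDiff_one_iff_deriv]
  refine ⟨fun s => (hasDerivAt_pq s).differentiableAt, ?_⟩
  have : deriv pq = fun s => 2 * max s 0 := by
    funext s; exact (hasDerivAt_pq s).deriv
  rw [this]
  fun_prop

/-- A monotone `C¹` step function. -/
def SS (s : ℝ) : ℝ := pq s / (1 + pq s)
/-- Its derivative. -/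
def dSS (s : ℝ) : ℝ := 2 * max s 0 / (1 + pq s) ^ 2

lemma hasDerivAt_SS (s : ℝ) : HasDerivAt SS (dSS s) s := by
  have h := pq_nonneg s
  have h1 := (hasDerivAt_pq s).div ((hasDerivAt_pq s).const_add 1) (by positivity)
  refine HasDerivAt.congr_deriv h1 ?_
  unfold dSS
  congr 1
  ring

lemma contDiff_SS : ContDiff ℝ 1 SS := by
  unfold SS
  apply contDiff_pq.div (contDiff_const.add contDiff_pq)
  intro s
  have := pq_nonneg s
  positivity

lemma SS_nonneg (s : ℝ) : 0 ≤ SS s := by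
  have := pq_nonneg s
  unfold SS; positivity

lemma SS_le_one (s : ℝ) : SS s ≤ 1 := by
  have := pq_nonneg s
  unfold SS
  rw [div_le_one (by positivity)]; linarith

lemma SS_zero {s : ℝ} (h : s ≤ 0) : SS s = 0 := by simp [SS, pq_zero h]

lemma dSS_nonneg (s : ℝ) : 0 ≤ dSS s := by
  have := pq_nonneg s
  have := le_max_right s 0
  unfold dSS; positivity

lemma continuous_dSS : Continuous dSS := by
  have : dSS = fun s => 2 * max s 0 / (1 + (max s 0) ^ 2) ^ 2 := rfl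
  rw [this]
  apply Continuous.div (by fun_prop) (by fun_prop)
  intro s
  positivity

lemma tendsto_pq : Tendsto pq atTop atTop := by
  apply tendsto_atTop_mono' (f₁ := fun s : ℝ => s)
  · filter_upwards [eventually_ge_atTop 1] with s hs
    rw [pq_pos (by linarith)]
    nlinarith
  · exact tendsto_id

lemma tendsto_SS : Tendsto SS atTop (𝓝 1) := by
  have h1 : Tendsto (fun s => 1 - (1 + pq s)⁻¹) atTop (𝓝 (1 - 0)) := by
    apply tendsto_const_nhds.sub
    exact tendsto_inv_atTop_zero.comp (tendsto_atTop_add_const_left _ _ tendsto_pq)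
  rw [sub_zero] at h1
  refine h1.congr ?_
  intro s
  have := pq_nonneg s
  unfold SS
  field_simp
  ring

/-- Bound for the derivative of the axis cutoffs. -/
lemma dSS_bound {s j : ℝ} (hs : 0 < s) :
    j * dSS (j * s - 1) ≤ 4 / s / (1 + pq (j * s - 1)) := by
  have hp := pq_nonneg (j * s - 1)
  have h4 : 0 ≤ 4 / s / (1 + pq (j * s - 1)) := by positivity
  rcases le_total (j * s - 1) 0 with h | h
  · have : dSS (j * s - 1) = 0 := by simp [dSS, max_eq_right h]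
    rw [this, mul_zero]; exact h4
  · unfold dSS
    rw [max_eq_left h, pq_pos h]
    set u := j * s - 1 with hu
    have hj' : j = (u + 1) / s := by field_simp; rw [hu]; ring
    rw [hj']
    have e1 : (u + 1) / s * (2 * u / (1 + u ^ 2) ^ 2) = (2 * u * (u + 1) / (1 + u ^ 2)) / s / (1 + u ^ 2) := by
      field_simp
    rw [e1]
    apply div_le_div_of_nonneg_right _ (by positivity)
    apply div_le_div_of_nonneg_right _ hs.le
    rw [div_le_iff₀ (by positivity)]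
    nlinarith [sq_nonneg (u - 1)]

lemma dSS_bound' {s j : ℝ} (hs : 0 < s) :
    j * dSS (j * s - 1) ≤ 4 / s := by
  refine (dSS_bound hs).trans ?_
  have hp := pq_nonneg (j * s - 1)
  apply div_le_self (by positivity)
  linarith

lemma tendsto_dSS {s : ℝ} (hs : 0 < s) :
    Tendsto (fun j : ℕ => (j : ℝ) * dSS (j * s - 1)) atTop (𝓝 0) := by
  have h1 : Tendsto (fun j : ℕ => 1 + pq ((j : ℝ) * s - 1)) atTop atTop := by
    apply tendsto_atTop_add_const_left
    apply tendsto_pq.comp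
    apply tendsto_atTop_add_const_right
    exact tendsto_natCast_atTop_atTop.atTop_mul_const hs
  have h2 : Tendsto (fun j : ℕ => 4 / s / (1 + pq ((j : ℝ) * s - 1))) atTop (𝓝 0) :=
    tendsto_const_nhds.div_atTop h1
  refine _root_.squeeze_zero (fun j => ?_) (fun j => ?_) h2
  · exact mul_nonneg (Nat.cast_nonneg _) (dSS_nonneg _)
  · exact dSS_bound hs

/-- Axis cutoff. -/
def tau (j : ℕ) (w : V) : ℝ := SS (j * ‖w.1‖ - 1) * SS (j * ‖w.2‖ - 1)

/-- Radial bound for the gradient of the axis cutoff. -/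
def dtau (j : ℕ) (w : V) : ℝ := j * dSS (j * ‖w.1‖ - 1) + j * dSS (j * ‖w.2‖ - 1)

lemma cutoff_fst (j : ℕ) : ContDiff ℝ 1 (fun w : V => SS (j * ‖w.1‖ - 1)) := by
  rw [contDiff_iff_contDiffAt]
  intro w
  by_cases hw : w.1 = 0
  · have : (fun w : V => SS (j * ‖w.1‖ - 1)) =ᶠ[𝓝 w] fun _ => 0 := by
      have hc : ContinuousAt (fun w : V => (j : ℝ) * ‖w.1‖ - 1) w := by fun_prop
      have hlt : (j : ℝ) * ‖w.1‖ - 1 < 0 := by rw [hw]; simp
      filter_upwards [hc.eventually (gt_mem_nhds hlt)] with z hz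
      exact SS_zero hz.le
    exact contDiffAt_const.congr_of_eventuallyEq this
  · have h1 : ContDiffAt ℝ 1 (fun z : V => ‖z.1‖) w := (cd_n1 hw).of_le (by simp)
    exact contDiff_SS.contDiffAt.comp w ((contDiffAt_const.mul h1).sub contDiffAt_const)

lemma cutoff_snd (j : ℕ) : ContDiff ℝ 1 (fun w : V => SS (j * ‖w.2‖ - 1)) := by
  rw [contDiff_iff_contDiffAt]
  intro w
  by_cases hw : w.2 = 0
  · have : (fun w : V => SS (j * ‖w.2‖ - 1)) =ᶠ[𝓝 w] fun _ => 0 := by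
      have hc : ContinuousAt (fun w : V => (j : ℝ) * ‖w.2‖ - 1) w := by fun_prop
      have hlt : (j : ℝ) * ‖w.2‖ - 1 < 0 := by rw [hw]; simp
      filter_upwards [hc.eventually (gt_mem_nhds hlt)] with z hz
      exact SS_zero hz.le
    exact contDiffAt_const.congr_of_eventuallyEq this
  · have h1 : ContDiffAt ℝ 1 (fun z : V => ‖z.2‖) w := (cd_n2 hw).of_le (by simp)
    exact contDiff_SS.contDiffAt.comp w ((contDiffAt_const.mul h1).sub contDiffAt_const)

lemma contDiff_tau (j : ℕ) : ContDiff ℝ 1 (tau j) := (cutoff_fst j).mul (cutoff_snd j)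

lemma tau_nonneg (j : ℕ) (w : V) : 0 ≤ tau j w := mul_nonneg (SS_nonneg _) (SS_nonneg _)
lemma tau_le_one (j : ℕ) (w : V) : tau j w ≤ 1 :=
  mul_le_one₀ (SS_le_one _) (SS_nonneg _) (SS_le_one _)

lemma dtau_nonneg (j : ℕ) (w : V) : 0 ≤ dtau j w :=
  add_nonneg (mul_nonneg (Nat.cast_nonneg _) (dSS_nonneg _))
    (mul_nonneg (Nat.cast_nonneg _) (dSS_nonneg _))

lemma hasFDerivAt_n1 {w : V} (hw : w.1 ≠ 0) : HasFDerivAt (fun z : V => ‖z.1‖)
    ((1 / ‖w.1‖) • ((innerSL ℝ w.1).comp (ContinuousLinearMap.fst ℝ E7 E7))) w := by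
  have h1 : HasFDerivAt (fun z : V => ‖z.1‖ ^ 2)
      (2 • ((innerSL ℝ w.1).comp (ContinuousLinearMap.fst ℝ E7 E7))) w :=
    (hasFDerivAt_fst (p := w)).norm_sq
  have hne : ‖w.1‖ ≠ 0 := norm_ne_zero_iff.2 hw
  have h3 := h1.sqrt (pow_ne_zero 2 hne)
  have e : (fun z : V => √(‖z.1‖ ^ 2)) = fun z : V => ‖z.1‖ := by
    funext z; exact Real.sqrt_sq (norm_nonneg _)
  rw [e] at h3
  refine h3.congr_fderiv ?_
  rw [Real.sqrt_sq (norm_nonneg _)]
  ext v <;> simp <;> field_simp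

lemma hasFDerivAt_n2 {w : V} (hw : w.2 ≠ 0) : HasFDerivAt (fun z : V => ‖z.2‖)
    ((1 / ‖w.2‖) • ((innerSL ℝ w.2).comp (ContinuousLinearMap.snd ℝ E7 E7))) w := by
  have h1 : HasFDerivAt (fun z : V => ‖z.2‖ ^ 2)
      (2 • ((innerSL ℝ w.2).comp (ContinuousLinearMap.snd ℝ E7 E7))) w :=
    (hasFDerivAt_snd (p := w)).norm_sq
  have hne : ‖w.2‖ ≠ 0 := norm_ne_zero_iff.2 hw
  have h3 := h1.sqrt (pow_ne_zero 2 hne)
  have e : (fun z : V => √(‖z.2‖ ^ 2)) = fun z : V => ‖z.2‖ := by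
    funext z; exact Real.sqrt_sq (norm_nonneg _)
  rw [e] at h3
  refine h3.congr_fderiv ?_
  rw [Real.sqrt_sq (norm_nonneg _)]
  ext v <;> simp <;> field_simp

lemma nsq_nonneg (v : V) : 0 ≤ nsq v := by unfold nsq; positivity
lemma norm_fst_le (v : V) : ‖v.1‖ ≤ √(nsq v) :=
  Real.le_sqrt_of_sq_le (by unfold nsq; nlinarith [sq_nonneg ‖v.2‖])
lemma norm_snd_le (v : V) : ‖v.2‖ ≤ √(nsq v) :=
  Real.le_sqrt_of_sq_le (by unfold nsq; nlinarith [sq_nonneg ‖v.1‖])

lemma fderiv_tau_le (j : ℕ) {w : V} (hw : w ∈ W) (v : V) :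
    |fderiv ℝ (tau j) w v| ≤ dtau j w * √(nsq v) := by
  have hp := W_pos hw
  have h1 : HasDerivAt (fun s : ℝ => SS (j * s - 1)) (dSS (j * ‖w.1‖ - 1) * j) ‖w.1‖ := by
    have h2 : HasDerivAt (fun s : ℝ => (j : ℝ) * s - 1) j ‖w.1‖ := by
      have := ((hasDerivAt_id ‖w.1‖).const_mul (j : ℝ)).sub_const 1
      exact HasDerivAt.congr_deriv this (by simp)
    exact (hasDerivAt_SS _).comp ‖w.1‖ h2
  have h2 : HasDerivAt (fun s : ℝ => SS (j * s - 1)) (dSS (j * ‖w.2‖ - 1) * j) ‖w.2‖ := by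
    have h2 : HasDerivAt (fun s : ℝ => (j : ℝ) * s - 1) j ‖w.2‖ := by
      have := ((hasDerivAt_id ‖w.2‖).const_mul (j : ℝ)).sub_const 1
      exact HasDerivAt.congr_deriv this (by simp)
    exact (hasDerivAt_SS _).comp ‖w.2‖ h2
  have h3 := HasDerivAt.comp_hasFDerivAt (h₂ := fun s : ℝ => SS (j * s - 1))
    (f := fun z : V => ‖z.1‖) w h1 (hasFDerivAt_n1 hw.1)
  have h4 := HasDerivAt.comp_hasFDerivAt (h₂ := fun s : ℝ => SS (j * s - 1))
    (f := fun z : V => ‖z.2‖) w h2 (hasFDerivAt_n2 hw.2.1)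
  have h5 : fderiv ℝ (tau j) w v = SS (j * ‖w.1‖ - 1) * (dSS (j * ‖w.2‖ - 1) * j *
      (1 / ‖w.2‖ * inner ℝ w.2 v.2)) + SS (j * ‖w.2‖ - 1) * (dSS (j * ‖w.1‖ - 1) * j *
      (1 / ‖w.1‖ * inner ℝ w.1 v.1)) := by
    have h6 := (h3.mul h4).fderiv
    have h7 := congrArg (fun L : V →L[ℝ] ℝ => L v) h6
    refine h7.trans ?_
    simp
  rw [h5]
  have hq1 : |1 / ‖w.1‖ * inner ℝ w.1 v.1| ≤ √(nsq v) := by
    rw [abs_mul, abs_of_pos (by have := hp.1; positivity)]
    refine le_trans ?_ (norm_fst_le v)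
    have := abs_real_inner_le_norm w.1 v.1
    rw [one_div, inv_mul_le_iff₀ hp.1]
    exact this
  have hq2 : |1 / ‖w.2‖ * inner ℝ w.2 v.2| ≤ √(nsq v) := by
    rw [abs_mul, abs_of_pos (by have := hp.2.1; positivity)]
    refine le_trans ?_ (norm_snd_le v)
    have := abs_real_inner_le_norm w.2 v.2
    rw [one_div, inv_mul_le_iff₀ hp.2.1]
    exact this
  have hsn : 0 ≤ √(nsq v) := Real.sqrt_nonneg _
  have hj : (0 : ℝ) ≤ j := Nat.cast_nonneg j
  have d1 := dSS_nonneg (j * ‖w.1‖ - 1)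
  have d2 := dSS_nonneg (j * ‖w.2‖ - 1)
  have s1 := SS_nonneg (j * ‖w.1‖ - 1)
  have s2 := SS_nonneg (j * ‖w.2‖ - 1)
  have s1' := SS_le_one (j * ‖w.1‖ - 1)
  have s2' := SS_le_one (j * ‖w.2‖ - 1)
  have b1 : |SS (j * ‖w.1‖ - 1) * (dSS (j * ‖w.2‖ - 1) * j * (1 / ‖w.2‖ * inner ℝ w.2 v.2))|
      ≤ 1 * (dSS (j * ‖w.2‖ - 1) * j * √(nsq v)) := by
    rw [abs_mul, abs_mul, abs_of_nonneg s1, abs_of_nonneg (mul_nonneg d2 hj)]
    exact mul_le_mul s1' (mul_le_mul_of_nonneg_left hq2 (by positivity)) (by positivity)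
      (by norm_num)
  have b2 : |SS (j * ‖w.2‖ - 1) * (dSS (j * ‖w.1‖ - 1) * j * (1 / ‖w.1‖ * inner ℝ w.1 v.1))|
      ≤ 1 * (dSS (j * ‖w.1‖ - 1) * j * √(nsq v)) := by
    rw [abs_mul, abs_mul, abs_of_nonneg s2, abs_of_nonneg (mul_nonneg d1 hj)]
    exact mul_le_mul s2' (mul_le_mul_of_nonneg_left hq1 (by positivity)) (by positivity)
      (by norm_num)
  refine (abs_add_le _ _).trans ?_
  unfold dtau
  nlinarith

lemma tendsto_tau {w : V} (hw : w ∈ W) : Tendsto (fun j : ℕ => tau j w) atTop (𝓝 1) := by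
  have hp := W_pos hw
  have key : ∀ s : ℝ, 0 < s → Tendsto (fun j : ℕ => SS (j * s - 1)) atTop (𝓝 1) := by
    intro s hs
    apply tendsto_SS.comp
    apply tendsto_atTop_add_const_right
    exact tendsto_natCast_atTop_atTop.atTop_mul_const hs
  have := (key _ hp.1).mul (key _ hp.2.1)
  rw [mul_one] at this
  exact this

lemma tendsto_dtau {w : V} (hw : w ∈ W) : Tendsto (fun j : ℕ => dtau j w) atTop (𝓝 0) := by
  have hp := W_pos hw
  have := (tendsto_dSS hp.1).add (tendsto_dSS hp.2.1)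
  rw [add_zero] at this
  exact this

lemma dtau_le {j : ℕ} {w : V} (hw : w ∈ W) : dtau j w ≤ 4 / ‖w.1‖ + 4 / ‖w.2‖ := by
  have hp := W_pos hw
  exact add_le_add (dSS_bound' hp.1) (dSS_bound' hp.2.1)

lemma continuous_dtau (j : ℕ) : Continuous (dtau j) := by
  unfold dtau
  have h1 : Continuous (fun w : V => (j : ℝ) * ‖w.1‖ - 1) := by fun_prop
  have h2 : Continuous (fun w : V => (j : ℝ) * ‖w.2‖ - 1) := by fun_prop
  exact (continuous_const.mul (continuous_dSS.comp h1)).add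
    (continuous_const.mul (continuous_dSS.comp h2))

/-- Exhaustion cutoff. -/
def zeta (ε : ℝ) (m : ℕ) (w : V) : ℝ :=
  open Classical in if w ∈ U then pq (1 - rho ε w / (m + 1)) else 0

/-- The exhausting compact sets. -/
def Km (ε : ℝ) (m : ℕ) : Set V := {w : V | w ∈ U ∧ rho ε w ≤ m + 1}

lemma zeta_of_mem {ε : ℝ} {m : ℕ} {w : V} (h : w ∈ U) :
    zeta ε m w = pq (1 - rho ε w / (m + 1)) := by simp [zeta, h]

lemma zeta_of_notMem {ε : ℝ} {m : ℕ} {w : V} (h : w ∉ Km ε m) : zeta ε m w = 0 := by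
  by_cases hU : w ∈ U
  · rw [zeta_of_mem hU]
    apply pq_zero
    have h1 : (m : ℝ) + 1 < rho ε w := by
      by_contra hcon
      push Not at hcon
      exact h ⟨hU, hcon⟩
    have h2 : 1 ≤ rho ε w / (m + 1) := by
      rw [one_le_div (by positivity)]; exact h1.le
    linarith
  · simp [zeta, hU]

lemma zeta_nonneg (ε : ℝ) (m : ℕ) (w : V) : 0 ≤ zeta ε m w := by
  by_cases hU : w ∈ U
  · rw [zeta_of_mem hU]; exact pq_nonneg _
  · simp [zeta, hU]

lemma zeta_le_one {ε : ℝ} (hε : 0 < ε) (m : ℕ) (w : V) : zeta ε m w ≤ 1 := by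
  by_cases hU : w ∈ U
  · rw [zeta_of_mem hU]
    have h1 := rho_nonneg hε hU
    have h2 : 0 ≤ rho ε w / (m + 1) := by positivity
    unfold pq
    apply pow_le_one₀ (le_max_right _ _)
    apply max_le _ zero_le_one
    linarith
  · simp [zeta, hU]

lemma isCompact_Km {ε : ℝ} (hε : 0 < ε) (m : ℕ) : IsCompact (Km ε m) := isCompact_rho hε _

lemma contDiff_zeta {ε : ℝ} (hε : 0 < ε) (m : ℕ) : ContDiff ℝ 1 (zeta ε m) := by
  rw [contDiff_iff_contDiffAt]
  intro w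
  by_cases hw : w ∈ U
  · have h1 : zeta ε m =ᶠ[𝓝 w] fun w => pq (1 - rho ε w / (m + 1)) := by
      filter_upwards [isOpen_U.mem_nhds hw] with z hz
      exact zeta_of_mem hz
    refine ContDiffAt.congr_of_eventuallyEq ?_ h1
    have h2 : ContDiffAt ℝ 1 (rho ε) w := (cd_rho ε hw).of_le (by simp)
    exact contDiff_pq.contDiffAt.comp w (contDiffAt_const.sub (h2.div_const _))
  · have h1 : zeta ε m =ᶠ[𝓝 w] fun _ => 0 := by
      have : w ∈ (Km ε m)ᶜ := fun h => hw h.1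
      filter_upwards [(isCompact_Km hε m).isClosed.isOpen_compl.mem_nhds this] with z hz
      exact zeta_of_notMem hz
    exact contDiffAt_const.congr_of_eventuallyEq h1

lemma fderiv_zeta_le {ε : ℝ} (hε : 0 < ε) (m : ℕ) {w : V} (hw : w ∈ U) (v : V) :
    |fderiv ℝ (zeta ε m) w v| ≤ 2 / (m + 1) * (ell ε ‖w.1‖ ‖w.2‖ * √(nsq v)) := by
  have h1 : zeta ε m =ᶠ[𝓝 w] fun w => pq (1 - rho ε w / (m + 1)) := by
    filter_upwards [isOpen_U.mem_nhds hw] with z hz
    exact zeta_of_mem hz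
  rw [h1.fderiv_eq]
  have h2 : HasFDerivAt (rho ε) (fderiv ℝ (rho ε) w) w :=
    ((cd_rho ε hw).differentiableAt (by simp)).hasFDerivAt
  have h3 : HasFDerivAt (fun w => 1 - rho ε w / (m + 1)) (-((m + 1 : ℝ)⁻¹ • fderiv ℝ (rho ε) w)) w := by
    have h4 := (h2.const_mul ((m + 1 : ℝ)⁻¹)).const_sub 1
    have e : (fun w => 1 - rho ε w / (m + 1)) = fun w => 1 - (m + 1 : ℝ)⁻¹ * rho ε w := by
      funext z; rw [div_eq_inv_mul]
    rw [e]; exact h4
  have h4 := HasDerivAt.comp_hasFDerivAt (h₂ := pq) (f := fun w => 1 - rho ε w / (m + 1)) w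
    (hasDerivAt_pq _) h3
  have h5 := congrArg (fun L : V →L[ℝ] ℝ => L v) h4.fderiv
  have h6 : fderiv ℝ (fun w => pq (1 - rho ε w / (m + 1))) w v =
      -(2 * max (1 - rho ε w / (m + 1)) 0 * ((m + 1 : ℝ)⁻¹ * fderiv ℝ (rho ε) w v)) := by
    refine h5.trans ?_
    simp
  have h9 : 0 ≤ max (1 - rho ε w / (m + 1)) 0 := le_max_right _ _
  rw [h6, abs_neg, abs_mul,
    abs_of_nonneg (by positivity : (0 : ℝ) ≤ 2 * max (1 - rho ε w / (m + 1)) 0),
    abs_mul, abs_of_pos (by positivity : (0 : ℝ) < (m + 1 : ℝ)⁻¹)]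
  have h7 := fderiv_rho_le hε hw v
  have h8 : max (1 - rho ε w / (m + 1)) 0 ≤ 1 := by
    apply max_le _ zero_le_one
    have h1 := rho_nonneg hε hw
    have h2 : 0 ≤ rho ε w / (m + 1) := by positivity
    linarith
  calc 2 * max (1 - rho ε w / (m + 1)) 0 * ((m + 1 : ℝ)⁻¹ * |fderiv ℝ (rho ε) w v|)
      ≤ 2 * 1 * ((m + 1 : ℝ)⁻¹ * (ell ε ‖w.1‖ ‖w.2‖ * √(nsq v))) := by gcongr
    _ = _ := by ring

lemma tendsto_zeta (ε : ℝ) {w : V} (hw : w ∈ U) :
    Tendsto (fun m : ℕ => zeta ε m w) atTop (𝓝 1) := by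
  have h1 : Tendsto (fun m : ℕ => 1 - rho ε w / (m + 1)) atTop (𝓝 (1 - 0)) := by
    apply tendsto_const_nhds.sub
    apply tendsto_const_nhds.div_atTop
    exact tendsto_atTop_add_const_right _ _ tendsto_natCast_atTop_atTop
  have h2 := (contDiff_pq.continuous.tendsto (1 - 0)).comp h1
  have h3 : pq (1 - 0) = 1 := by rw [pq_pos (by norm_num)]; norm_num
  rw [h3] at h2
  refine h2.congr ?_
  intro m
  simp only [Function.comp]
  rw [zeta_of_mem hw]

end

end Pool.Agent.H152R3
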