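import Pool.Agent.H152R3.Anal

open Set Filter Topology Real ContDiff MeasureTheory

namespace Pool.Agent.H152R3

noncomputable section

lemma ae_offaxes : ∀ᵐ w : V, w.1 ≠ 0 ∧ w.2 ≠ 0 := by
  have h1 : (volume : Measure V) (({0} : Set E7) ×ˢ univ) = 0 := by
    rw [Measure.volume_eq_prod, Measure.prod_prod]; simp
  have h2 : (volume : Measure V) (univ ×ˢ ({0} : Set E7)) = 0 := by
    rw [Measure.volume_eq_prod, Measure.prod_prod]; simp
  have h3 : ∀ᵐ w : V, w ∉ ({0} : Set E7) ×ˢ (univ : Set E7) := measure_eq_zero_iff_ae_notMem.1 h1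
  have h4 : ∀ᵐ w : V, w ∉ (univ : Set E7) ×ˢ ({0} : Set E7) := measure_eq_zero_iff_ae_notMem.1 h2
  filter_upwards [h3, h4] with w h5 h6
  exact ⟨fun h => h5 ⟨h, mem_univ _⟩, fun h => h6 ⟨mem_univ _, h⟩⟩

lemma ae_W : ∀ᵐ w : V, w ∈ U → w ∈ W := by
  filter_upwards [ae_offaxes] with w h hU
  exact ⟨h.1, h.2, hU⟩

/-- The combined cutoff. -/
def kap (ε : ℝ) (m j : ℕ) (w : V) : ℝ := zeta ε m w * tau j w

/-- A closed set away from the axes. -/
def Tj (j : ℕ) : Set V := {w | 1 ≤ j * ‖w.1‖ ∧ 1 ≤ j * ‖w.2‖}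

lemma isClosed_Tj (j : ℕ) : IsClosed (Tj j) := by
  have a1 : IsClosed {w : V | 1 ≤ j * ‖w.1‖} := isClosed_le continuous_const (by fun_prop)
  have a2 : IsClosed {w : V | 1 ≤ j * ‖w.2‖} := isClosed_le continuous_const (by fun_prop)
  exact a1.inter a2

lemma tau_zero_of_notMem {j : ℕ} {w : V} (h : w ∉ Tj j) : tau j w = 0 := by
  unfold tau
  by_cases h1 : 1 ≤ j * ‖w.1‖
  · have h2 : ¬ (1 ≤ j * ‖w.2‖) := fun h2 => h ⟨h1, h2⟩
    rw [SS_zero (s := j * ‖w.2‖ - 1) (by linarith [not_le.1 h2]), mul_zero]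
  · rw [SS_zero (s := j * ‖w.1‖ - 1) (by linarith [not_le.1 h1]), zero_mul]

lemma kap_zero {ε : ℝ} {m j : ℕ} {w : V} (h : w ∉ Km ε m ∩ Tj j) : kap ε m j w = 0 := by
  unfold kap
  by_cases h1 : w ∈ Km ε m
  · rw [tau_zero_of_notMem (fun h2 => h ⟨h1, h2⟩), mul_zero]
  · rw [zeta_of_notMem h1, zero_mul]

lemma isCompact_KT {ε : ℝ} (hε : 0 < ε) (m j : ℕ) : IsCompact (Km ε m ∩ Tj j) :=
  (isCompact_Km hε m).inter_right (isClosed_Tj j)

lemma KT_sub_W {ε : ℝ} {m j : ℕ} : Km ε m ∩ Tj j ⊆ W := by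
  rintro w ⟨h1, h2⟩
  refine ⟨?_, ?_, h1.1⟩
  · intro h
    have := h2.1
    rw [h] at this; norm_num at this
  · intro h
    have := h2.2
    rw [h] at this; norm_num at this

lemma tsupport_kap {ε : ℝ} (hε : 0 < ε) (m j : ℕ) : tsupport (kap ε m j) ⊆ Km ε m ∩ Tj j := by
  apply closure_minimal _ (isCompact_KT hε m j).isClosed
  intro w hw
  by_contra h
  exact hw (kap_zero h)

lemma hasCompactSupport_kap {ε : ℝ} (hε : 0 < ε) (m j : ℕ) : HasCompactSupport (kap ε m j) :=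
  HasCompactSupport.intro (isCompact_KT hε m j) (fun _ h => kap_zero h)

lemma contDiff_kap {ε : ℝ} (hε : 0 < ε) (m j : ℕ) : ContDiff ℝ 1 (kap ε m j) :=
  (contDiff_zeta hε m).mul (contDiff_tau j)

lemma kap_nonneg (ε : ℝ) (m j : ℕ) (w : V) : 0 ≤ kap ε m j w :=
  mul_nonneg (zeta_nonneg _ _ _) (tau_nonneg _ _)

lemma kap_le_one {ε : ℝ} (hε : 0 < ε) (m j : ℕ) (w : V) : kap ε m j w ≤ 1 :=
  mul_le_one₀ (zeta_le_one hε m w) (tau_nonneg _ _) (tau_le_one _ _)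

lemma fderiv_kap_le {ε : ℝ} (hε : 0 < ε) (m j : ℕ) {w : V} (hw : w ∈ W) (v : V) :
    |fderiv ℝ (kap ε m j) w v| ≤
      (2 / (m + 1) * ell ε ‖w.1‖ ‖w.2‖ + zeta ε m w * dtau j w) * √(nsq v) := by
  have h1 : DifferentiableAt ℝ (zeta ε m) w := (contDiff_zeta hε m).differentiable (by simp) w
  have h2 : DifferentiableAt ℝ (tau j) w := (contDiff_tau j).differentiable (by simp) w
  have h3 : fderiv ℝ (kap ε m j) w v = zeta ε m w * fderiv ℝ (tau j) w v
      + tau j w * fderiv ℝ (zeta ε m) w v := by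
    have h4 := (h1.hasFDerivAt.mul h2.hasFDerivAt).fderiv
    have h5 := congrArg (fun L : V →L[ℝ] ℝ => L v) h4
    refine h5.trans ?_
    simp
  rw [h3]
  have hz := zeta_nonneg ε m w
  have ht := tau_nonneg j w
  have ht1 := tau_le_one j w
  have b1 := fderiv_tau_le j hw v
  have b2 := fderiv_zeta_le hε m (W_sub_U hw) v
  refine (abs_add_le _ _).trans ?_
  rw [abs_mul, abs_mul, abs_of_nonneg hz, abs_of_nonneg ht]
  have c1 : zeta ε m w * |fderiv ℝ (tau j) w v| ≤ zeta ε m w * (dtau j w * √(nsq v)) :=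
    mul_le_mul_of_nonneg_left b1 hz
  have c2 : tau j w * |fderiv ℝ (zeta ε m) w v| ≤ 1 * (2 / (m + 1) * (ell ε ‖w.1‖ ‖w.2‖ * √(nsq v))) :=
    mul_le_mul ht1 b2 (abs_nonneg _) zero_le_one
  linarith

/-- The error function. -/
def rr (ε : ℝ) (m j : ℕ) (w : V) : ℝ := zeta ε m w * dtau j w

lemma rr_nonneg (ε : ℝ) (m j : ℕ) (w : V) : 0 ≤ rr ε m j w :=
  mul_nonneg (zeta_nonneg _ _ _) (dtau_nonneg _ _)

lemma continuous_rr {ε : ℝ} (hε : 0 < ε) (m j : ℕ) : Continuous (rr ε m j) :=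
  (contDiff_zeta hε m).continuous.mul (continuous_dtau j)

lemma integrable_rr {ε : ℝ} (hε : 0 < ε) (m j : ℕ) : Integrable (rr ε m j) := by
  apply (continuous_rr hε m j).integrable_of_hasCompactSupport
  apply HasCompactSupport.intro (isCompact_Km hε m)
  intro w hw
  unfold rr
  rw [zeta_of_notMem hw, zero_mul]

lemma tendsto_int_rr {ε : ℝ} (hε : 0 < ε) (m : ℕ) :
    Tendsto (fun j => ∫ w, rr ε m j w) atTop (𝓝 0) := by
  obtain ⟨R, hR⟩ := (isCompact_Km hε m).isBounded.subset_ball (0 : V)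
  have h0 : ∫ _ : V, (0 : ℝ) = 0 := by simp
  rw [← h0]
  apply tendsto_integral_of_dominated_convergence
    ((Metric.ball (0 : V) R).indicator (fun w : V => 4 / ‖w.1‖ + 4 / ‖w.2‖))
  · intro j; exact (continuous_rr hε m j).aestronglyMeasurable
  · rw [integrable_indicator_iff measurableSet_ball]
    exact (intOn1 R).add (intOn2 R)
  · intro j
    filter_upwards [ae_offaxes] with w hw
    rw [Real.norm_eq_abs, abs_of_nonneg (rr_nonneg _ _ _ _)]
    by_cases hK : w ∈ Km ε m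
    · rw [indicator_of_mem (hR hK)]
      have hW : w ∈ W := ⟨hw.1, hw.2, hK.1⟩
      unfold rr
      refine le_trans ?_ (dtau_le (j := j) hW)
      exact mul_le_of_le_one_left (dtau_nonneg _ _) (zeta_le_one hε m w)
    · unfold rr
      rw [zeta_of_notMem hK, zero_mul]
      apply indicator_nonneg
      intro z _
      positivity
  · filter_upwards [ae_offaxes] with w hw
    by_cases hU : w ∈ U
    · have hW : w ∈ W := ⟨hw.1, hw.2, hU⟩
      have := (tendsto_dtau hW).const_mul (zeta ε m w)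
      rw [mul_zero] at this
      exact this
    · have : ∀ j, rr ε m j w = 0 := by
        intro j
        unfold rr
        rw [zeta_of_notMem (fun h => hU h.1), zero_mul]
      simp_rw [this]
      exact tendsto_const_nhds

theorem exists_kappa {ε : ℝ} (hε : 0 < ε) : ∃ κ r : ℕ → V → ℝ, (∀ m, ContDiff ℝ 1 (κ m)) ∧
    (∀ m, HasCompactSupport (κ m)) ∧ (∀ m, tsupport (κ m) ⊆ W) ∧ (∀ m w, 0 ≤ κ m w) ∧
    (∀ m w, κ m w ≤ 1) ∧
    (∀ m, ∀ w ∈ W, ∀ v, |fderiv ℝ (κ m) w v| ≤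
      (2 / (m + 1) * ell ε ‖w.1‖ ‖w.2‖ + r m w) * √(nsq v)) ∧
    (∀ m, Integrable (r m)) ∧ (∀ m w, 0 ≤ r m w) ∧ (∀ m, ∫ w, r m w ≤ 1 / ((m : ℝ) + 1)) ∧
    (∀ w ∈ W, Tendsto (fun m => κ m w) atTop (𝓝 1)) := by
  have hj : ∀ m : ℕ, ∃ j : ℕ, m ≤ j ∧ ∫ w, rr ε m j w ≤ 1 / ((m : ℝ) + 1) := by
    intro m
    have h1 : ∀ᶠ j in atTop, ∫ w, rr ε m j w < 1 / ((m : ℝ) + 1) :=
      (tendsto_int_rr hε m).eventually (gt_mem_nhds (by positivity))
    obtain ⟨j, hj1, hj2⟩ := (h1.and (eventually_ge_atTop m)).exists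
    exact ⟨j, hj2, hj1.le⟩
  choose J hJ1 hJ2 using hj
  refine ⟨fun m => kap ε m (J m), fun m => rr ε m (J m), fun m => contDiff_kap hε m _,
    fun m => hasCompactSupport_kap hε m _, fun m => (tsupport_kap hε m _).trans KT_sub_W,
    fun m w => kap_nonneg _ _ _ _, fun m w => kap_le_one hε _ _ _, fun m w hw v =>
    fderiv_kap_le hε m _ hw v, fun m => integrable_rr hε m _, fun m w => rr_nonneg _ _ _ _,
    hJ2, ?_⟩
  intro w hw
  have h1 := tendsto_zeta ε (W_sub_U hw)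
  have h2 : Tendsto (fun m => tau (J m) w) atTop (𝓝 1) :=
    (tendsto_tau hw).comp (tendsto_atTop_mono hJ1 tendsto_id)
  have := h1.mul h2
  rw [mul_one] at this
  exact this

end

end Pool.Agent.H152R3
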