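import Pool.Agent.H152R3.Bound

open Set Filter Topology Real ContDiff MeasureTheory

namespace Pool.Agent.H152R3

noncomputable section

variable {ε C : ℝ} {σ : V → ℝ}

/-- Lebesgue measure on the fundamental domain. -/
def nu : Measure (V × ℝ) :=
  ((volume : Measure V).restrict U).prod ((volume : Measure ℝ).restrict (Ico 0 1))

instance instProbI : IsProbabilityMeasure ((volume : Measure ℝ).restrict (Ico 0 1)) :=
  ⟨by rw [Measure.restrict_apply_univ]; simp⟩

instance instSFnu : SFinite nu := by unfold nu; infer_instance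

lemma nu_eq : (volume : Measure (V × ℝ)).restrict (U ×ˢ Ico 0 1) = nu := by
  rw [nu, Measure.prod_restrict, Measure.volume_eq_prod V ℝ]

/-- The lifted region. -/
def OmR : Set (V × ℝ) := Om ×ˢ univ

lemma measurableSet_OmR : MeasurableSet OmR := isOpen_Om.measurableSet.prod MeasurableSet.univ

lemma nu_OmR : nu.restrict OmR =
    ((volume : Measure V).restrict Om).prod ((volume : Measure ℝ).restrict (Ico 0 1)) := by
  rw [nu, OmR, ← Measure.prod_restrict, Measure.restrict_univ,
    Measure.restrict_restrict_of_subset (fun w hw => hw.1)]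

lemma int_comp_fst {f : V → ℝ} (hf : Integrable f) : Integrable (fun p : V × ℝ => f p.1) nu :=
  Integrable.comp_fst hf.restrict _

lemma intOn_OmR {f : V → ℝ} (hf : IntegrableOn f Om) :
    IntegrableOn (fun p : V × ℝ => f p.1) OmR nu := by
  rw [IntegrableOn, nu_OmR]
  exact Integrable.comp_fst hf _

lemma integral_OmR (f : V → ℝ) : ∫ p in OmR, f p.1 ∂nu = ∫ w in Om, f w := by
  rw [nu_OmR, integral_fun_fst]
  simp

lemma ae_nu {p : V → Prop} (h : ∀ᵐ w : V, w ∈ U → p w) : ∀ᵐ q : V × ℝ ∂nu, p q.1 := by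
  have h1 : ∀ᵐ w ∂((volume : Measure V).restrict U), p w :=
    (ae_restrict_iff' isOpen_U.measurableSet).2 h
  exact (Measure.quasiMeasurePreserving_fst (μ := (volume : Measure V).restrict U)
    (ν := (volume : Measure ℝ).restrict (Ico 0 1))).ae h1

lemma ae_nu_W : ∀ᵐ q : V × ℝ ∂nu, q.1 ∈ W := ae_nu ae_W

lemma fderiv_kappa_bound {κ : V → ℝ} (hκ : ContDiff ℝ 1 κ) {w : V} (hW : w ∈ W) :
    dv (fun w => κ w • (wt w • xi w)) w = κ w * (wt w * hw w) + wt w * fderiv ℝ κ w (xi w) := by
  have d1 : DifferentiableAt ℝ κ w := hκ.differentiable (by simp) w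
  have d2 : DifferentiableAt ℝ (fun z => wt z • xi z) w := (cd_wxi hW).differentiableAt (by simp)
  have e3 := dv_smul (F := fun z => wt z • xi z) d1 d2
  rw [dv_wt_xi hW] at e3
  rw [e3, map_smul, smul_eq_mul]

/-- Lower bound for the perimeter of a competitor. -/
theorem Good.lower_bound (h : Good ε C σ) {E : Set (V × ℝ)} (hE : MeasurableSet E)
    (hvol : ∫⁻ p in E, ENNReal.ofReal (wt p.1 * σ p.1) ∂nu
      = ∫⁻ p in OmR, ENNReal.ofReal (wt p.1 * σ p.1) ∂nu) {L : ENNReal}
    (hL : ∀ κ : V → ℝ, ContDiff ℝ 1 κ → HasCompactSupport κ → tsupport κ ⊆ W → (∀ w, 0 ≤ κ w) →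
      (∀ w, κ w ≤ 1) →
      ENNReal.ofReal (∫ p in E, dv (fun w => κ w • (wt w • xi w)) p.1 ∂nu) ≤ L) :
    ENNReal.ofReal (∫ w in Om, wt w * hw w) ≤ L := by
  obtain ⟨κ, r, hκ, hκc, hκs, hκ0, hκ1, hκd, hr, hr0, hr1, hκt⟩ := exists_kappa h.hε
  let S : V × ℝ → ℝ := fun p => wt p.1 * σ p.1
  let D : V × ℝ → ℝ := fun p => wt p.1 * hw p.1 - wt p.1 * σ p.1
  have hSm : AEStronglyMeasurable S nu := h.meas_ws.comp_fst
  have hSpos : ∀ᵐ p ∂nu, 0 ≤ S p := by
    filter_upwards [ae_nu_W] with p hp
    exact (mul_pos (wt_pos _) (h.pos (W_sub_U hp))).le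
  have hSO : IntegrableOn S OmR nu := intOn_OmR h.int_ws
  have hDO : IntegrableOn D OmR nu := intOn_OmR (h.int_wh.sub h.int_ws)
  have hSE : IntegrableOn S E nu := by
    refine ⟨hSm.restrict, ?_⟩
    rw [hasFiniteIntegral_iff_ofReal (ae_restrict_of_ae hSpos)]
    change ∫⁻ p in E, ENNReal.ofReal (wt p.1 * σ p.1) ∂nu < ⊤
    rw [hvol]
    have h1 := hSO.2
    rw [hasFiniteIntegral_iff_ofReal (ae_restrict_of_ae hSpos)] at h1
    exact h1
  have hSeq : ∫ p in E, S p ∂nu = ∫ p in OmR, S p ∂nu := by
    rw [integral_eq_lintegral_of_nonneg_ae (ae_restrict_of_ae hSpos) hSm.restrict,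
      integral_eq_lintegral_of_nonneg_ae (ae_restrict_of_ae hSpos) hSm.restrict]
    exact congrArg ENNReal.toReal hvol
  have hκm : ∀ m, AEStronglyMeasurable (fun p : V × ℝ => κ m p.1) nu := fun m =>
    ((hκ m).continuous.comp continuous_fst).aestronglyMeasurable
  have hκS : ∀ m, IntegrableOn (fun p => κ m p.1 * S p) E nu := by
    intro m
    apply Integrable.mono hSE ((hκm m).restrict.mul hSE.aestronglyMeasurable)
    apply Eventually.of_forall
    intro p
    change ‖κ m p.1 * S p‖ ≤ _
    rw [norm_mul, Real.norm_eq_abs, abs_of_nonneg (hκ0 m _)]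
    exact mul_le_of_le_one_left (norm_nonneg _) (hκ1 m _)
  have hκD : ∀ m, IntegrableOn (fun p => κ m p.1 * D p) OmR nu := by
    intro m
    apply Integrable.mono hDO ((hκm m).restrict.mul hDO.aestronglyMeasurable)
    apply Eventually.of_forall
    intro p
    change ‖κ m p.1 * D p‖ ≤ _
    rw [norm_mul, Real.norm_eq_abs, abs_of_nonneg (hκ0 m _)]
    exact mul_le_of_le_one_left (norm_nonneg _) (hκ1 m _)
  have hrn : ∀ m, Integrable (fun p : V × ℝ => r m p.1) nu := fun m => int_comp_fst (hr m)
  have hFi : ∀ m, Integrable (fun p : V × ℝ => dv (fun w => κ m w • (wt w • xi w)) p.1) nu := fun m =>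
    int_comp_fst (integrable_dv (cd_kF (hκ m) (hκs m) (fun w hw => cd_wxi hw)) (hcs_kF (hκc m) _))
  have hrint : ∀ m, ∫ p : V × ℝ, r m p.1 ∂nu ≤ 1 / ((m : ℝ) + 1) := by
    intro m
    have h1 : ∫ p : V × ℝ, r m p.1 ∂nu = ∫ w in U, r m w := by
      rw [nu, integral_fun_fst]; simp
    rw [h1]
    exact (setIntegral_le_integral (hr m) (Eventually.of_forall (hr0 m))).trans (hr1 m)
  -- the main estimate
  have hmain : ∀ m : ℕ, (∫ p in E, κ m p.1 * S p ∂nu) + (∫ p in OmR, κ m p.1 * D p ∂nu)
      - (2 / ((m : ℝ) + 1) * (∫ p in OmR, S p ∂nu) + 1 / ((m : ℝ) + 1))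
      ≤ ∫ p in E, dv (fun w => κ m w • (wt w • xi w)) p.1 ∂nu := by
    intro m
    have i1 := (integrable_indicator_iff hE).2 (hκS m)
    have i2 := (integrable_indicator_iff measurableSet_OmR).2 (hκD m)
    have i3 := ((integrable_indicator_iff hE).2 hSE).const_mul (2 / ((m : ℝ) + 1))
    have i4 := (integrable_indicator_iff hE).2 (hFi m).integrableOn
    have hle : ∫ p, (E.indicator (fun p => κ m p.1 * S p) p + OmR.indicator (fun p => κ m p.1 * D p) p
        - (2 / ((m : ℝ) + 1) * E.indicator S p + r m p.1)) ∂nu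
        ≤ ∫ p, E.indicator (fun p : V × ℝ => dv (fun w => κ m w • (wt w • xi w)) p.1) p ∂nu := by
      apply integral_mono_ae ((i1.add i2).sub (i3.add (hrn m))) i4
      filter_upwards [ae_nu_W] with p hp
      have hq := W_pos hp
      have hO : p ∈ OmR ↔ P ‖p.1.1‖ < Q ‖p.1.2‖ := by
        constructor
        · intro h; exact h.1.2
        · intro h; exact ⟨⟨hq.2.2, h⟩, mem_univ _⟩
      have hκp := hκ0 m p.1
      have hwp := wt_pos p.1
      have hw1 := wt_le_one p.1
      have hrp := hr0 m p.1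
      have hsp := h.pos (W_sub_U hp)
      simp only [Pi.add_apply, Pi.sub_apply]
      by_cases hpE : p ∈ E
      · rw [indicator_of_mem hpE, indicator_of_mem hpE, indicator_of_mem hpE,
          fderiv_kappa_bound (hκ m) hp]
        have b0 := hκd m p.1 hp (xi p.1)
        rw [nsq_xi hp, Real.sqrt_one, mul_one] at b0
        have b1 := neg_abs_le (fderiv ℝ (κ m) p.1 (xi p.1))
        have hel := h.lower p.1 (W_sub_U hp)
        have b2 : -(2 / ((m : ℝ) + 1) * S p + r m p.1) ≤ wt p.1 * fderiv ℝ (κ m) p.1 (xi p.1) := by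
          have c0 : -(2 / ((m : ℝ) + 1) * ell ε ‖p.1.1‖ ‖p.1.2‖ + r m p.1)
              ≤ fderiv ℝ (κ m) p.1 (xi p.1) := by linarith
          have c1 := mul_le_mul_of_nonneg_left c0 hwp.le
          have c2 : wt p.1 * (2 / ((m : ℝ) + 1) * ell ε ‖p.1.1‖ ‖p.1.2‖)
              ≤ wt p.1 * (2 / ((m : ℝ) + 1) * σ p.1) := by gcongr
          have c3 : wt p.1 * r m p.1 ≤ r m p.1 := mul_le_of_le_one_left hrp hw1
          have c4 : wt p.1 * (2 / ((m : ℝ) + 1) * σ p.1) = 2 / ((m : ℝ) + 1) * S p := by
            simp only [S]; ring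
          linarith
        have b3 : OmR.indicator (fun p => κ m p.1 * D p) p ≤ κ m p.1 * D p := by
          by_cases hpO : p ∈ OmR
          · rw [indicator_of_mem hpO]
          · rw [indicator_of_notMem hpO]
            have hge : Q ‖p.1.2‖ ≤ P ‖p.1.1‖ := not_lt.1 (fun h => hpO (hO.2 h))
            have := h.outside p.1 hp hge
            have hD0 : 0 ≤ D p := by
              simp only [D]
              have := mul_le_mul_of_nonneg_left this hwp.le
              linarith
            positivity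
        have b4 : κ m p.1 * (wt p.1 * hw p.1) = κ m p.1 * S p + κ m p.1 * D p := by
          simp only [S, D]; ring
        linarith
      · rw [indicator_of_notMem hpE, indicator_of_notMem hpE, indicator_of_notMem hpE]
        have b3 : OmR.indicator (fun p => κ m p.1 * D p) p ≤ 0 := by
          by_cases hpO : p ∈ OmR
          · rw [indicator_of_mem hpO]
            have := (h.inside p.1 hp (hO.1 hpO).le).1
            have hD0 : D p ≤ 0 := by
              simp only [D]
              have := mul_le_mul_of_nonneg_left this hwp.le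
              linarith
            exact mul_nonpos_of_nonneg_of_nonpos hκp hD0
          · rw [indicator_of_notMem hpO]
        linarith
    rw [integral_indicator hE] at hle
    refine le_trans ?_ hle
    have j12 : Integrable (fun p => E.indicator (fun p => κ m p.1 * S p) p
        + OmR.indicator (fun p => κ m p.1 * D p) p) nu := i1.add i2
    have j34 : Integrable (fun p => 2 / ((m : ℝ) + 1) * E.indicator S p + r m p.1) nu :=
      i3.add (hrn m)
    rw [integral_sub j12 j34, integral_add i1 i2, integral_add i3 (hrn m),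
      integral_indicator hE, integral_indicator measurableSet_OmR, integral_const_mul,
      integral_indicator hE, hSeq]
    have := hrint m
    linarith
  -- limits
  have l1 : Tendsto (fun m => ∫ p in E, κ m p.1 * S p ∂nu) atTop (𝓝 (∫ p in E, S p ∂nu)) := by
    apply tendsto_integral_of_dominated_convergence (fun p => |S p|)
    · intro m; exact (hκS m).aestronglyMeasurable
    · exact hSE.abs
    · intro m
      apply Eventually.of_forall
      intro p
      rw [norm_mul, Real.norm_eq_abs, abs_of_nonneg (hκ0 m _)]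
      exact mul_le_of_le_one_left (norm_nonneg _) (hκ1 m _)
    · filter_upwards [ae_restrict_of_ae ae_nu_W] with p hp
      have := (hκt p.1 hp).mul_const (S p)
      rw [one_mul] at this
      exact this
  have l2 : Tendsto (fun m => ∫ p in OmR, κ m p.1 * D p ∂nu) atTop (𝓝 (∫ p in OmR, D p ∂nu)) := by
    apply tendsto_integral_of_dominated_convergence (fun p => |D p|)
    · intro m; exact (hκD m).aestronglyMeasurable
    · exact hDO.abs
    · intro m
      apply Eventually.of_forall
      intro p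
      rw [norm_mul, Real.norm_eq_abs, abs_of_nonneg (hκ0 m _)]
      exact mul_le_of_le_one_left (norm_nonneg _) (hκ1 m _)
    · filter_upwards [ae_restrict_of_ae ae_nu_W] with p hp
      have := (hκt p.1 hp).mul_const (D p)
      rw [one_mul] at this
      exact this
  have hm1 : Tendsto (fun m : ℕ => (m : ℝ) + 1) atTop atTop :=
    tendsto_atTop_add_const_right _ _ tendsto_natCast_atTop_atTop
  have l3 := (l1.add l2).sub (((tendsto_const_nhds (x := (2 : ℝ))).div_atTop hm1).mul_const
    (∫ p in OmR, S p ∂nu) |>.add ((tendsto_const_nhds (x := (1 : ℝ))).div_atTop hm1))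
  have hval : (∫ p in E, S p ∂nu) + (∫ p in OmR, D p ∂nu) - (0 * (∫ p in OmR, S p ∂nu) + 0)
      = ∫ w in Om, wt w * hw w := by
    rw [hSeq]
    have e1 : ∫ p in OmR, S p ∂nu = ∫ w in Om, wt w * σ w := integral_OmR (fun w => wt w * σ w)
    have e2 : ∫ p in OmR, D p ∂nu = ∫ w in Om, (wt w * hw w - wt w * σ w) :=
      integral_OmR (fun w => wt w * hw w - wt w * σ w)
    rw [e1, e2, integral_sub h.int_wh h.int_ws]
    ring
  rw [hval] at l3
  have l4 := (ENNReal.continuous_ofReal.tendsto _).comp l3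
  refine le_of_tendsto' l4 ?_
  intro m
  exact (ENNReal.ofReal_le_ofReal (hmain m)).trans (hL (κ m) (hκ m) (hκc m) (hκs m) (hκ0 m) (hκ1 m))

end

end Pool.Agent.H152R3
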