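import Mathlib
import Pool.Agent.H626R3.CT.Stmts

set_option autoImplicit false

open scoped Classical symmDiff

namespace Pool.Agent.H152R3.OnGridBackup

open Pool.Agent.H626R3.CT

lemma tpos (i : ℕ) : 0 < t i := by
  unfold t
  positivity

lemma eta_sq (i : ℕ) (F : Finset ℕ) : eta i F ^ 2 = 1 := by
  unfold eta
  split_ifs <;> norm_num

lemma mm_pos (i : ℕ) (y : YY) :
    0 < mm (v1 i (eta i y.F) (sc i y.x.a) (sc i y.x.b))
      (v2 i (eta i y.F) (sc i y.x.a) (sc i y.x.b)) := by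
  set e := eta i y.F with he
  have hee : e ^ 2 = 1 := eta_sq i y.F
  set s1 := sc i y.x.a with hs1
  set s2 := sc i y.x.b with hs2
  by_contra hcon
  push Not at hcon
  have a1 : |v1 i e s1 s2| ≤ 0 := (le_max_left _ _).trans hcon
  have a2 : |v2 i e s1 s2| ≤ 0 := (le_max_right _ _).trans hcon
  have b1 : v1 i e s1 s2 = 0 := abs_nonpos_iff.1 a1
  have b2 : v2 i e s1 s2 = 0 := abs_nonpos_iff.1 a2
  unfold v1 at b1
  unfold v2 at b2
  set m := mm s1 s2
  have hT : (0 : ℝ) < (t i : ℝ) := by exact_mod_cast tpos i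
  have h0 : ((m - t i) ^ 2 + (3 * t i - m) ^ 2) * (s1 ^ 2 + s2 ^ 2) = 0 := by
    have : ((m - t i) ^ 2 + (3 * t i - m) ^ 2) * (s1 ^ 2 + s2 ^ 2) =
        ((m - t i) * s1 - e * (3 * t i - m) * s2) ^ 2 +
          ((m - t i) * s2 + e * (3 * t i - m) * s1) ^ 2 +
          (1 - e ^ 2) * (3 * t i - m) ^ 2 * (s1 ^ 2 + s2 ^ 2) := by ring
    rw [this, b1, b2, hee]
    ring
  have h1 : 0 < (m - t i) ^ 2 + (3 * t i - m) ^ 2 := by
    nlinarith [sq_nonneg ((m - t i) - (3 * t i - m)), sq_nonneg ((t i : ℝ))]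
  have h2 : s1 ^ 2 + s2 ^ 2 = 0 := by
    rcases mul_eq_zero.1 h0 with h | h
    · exact absurd h h1.ne'
    · exact h
  have h3 : s1 = 0 := by nlinarith [sq_nonneg s1, sq_nonneg s2]
  have h4 : s2 = 0 := by nlinarith [sq_nonneg s1, sq_nonneg s2]
  have key : ∀ a : ℕ, sc i a = 0 → mid i a := by
    intro a ha
    unfold sc at ha
    have hn : n i = 3 * t i := rfl
    have h5 : (2 : ℝ) * ((a % n i : ℕ) : ℝ) + 1 = ((n i : ℕ) : ℝ) := by linarith
    have h6 : 2 * (a % n i) + 1 = n i := by exact_mod_cast h5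
    have h7 := tpos i
    unfold mid
    constructor <;> omega
  exact y.x.out i ⟨key _ h3, key _ h4⟩

theorem ok : TOnGrid := by
  intro i y
  have hm := mm_pos i y
  have hn : (0 : ℝ) ≤ (n i : ℝ) := Nat.cast_nonneg _
  have e1 : P1 i y - ce i y.x.a = n i * v1 i (eta i y.F) (sc i y.x.a) (sc i y.x.b) /
      mm (v1 i (eta i y.F) (sc i y.x.a) (sc i y.x.b))
        (v2 i (eta i y.F) (sc i y.x.a) (sc i y.x.b)) := by
    unfold P1; ring
  have e2 : P2 i y - ce i y.x.b = n i * v2 i (eta i y.F) (sc i y.x.a) (sc i y.x.b) /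
      mm (v1 i (eta i y.F) (sc i y.x.a) (sc i y.x.b))
        (v2 i (eta i y.F) (sc i y.x.a) (sc i y.x.b)) := by
    unfold P2; ring
  rw [e1, e2]
  set u := v1 i (eta i y.F) (sc i y.x.a) (sc i y.x.b)
  set v := v2 i (eta i y.F) (sc i y.x.a) (sc i y.x.b)
  have f1 : |n i * u / mm u v| = n i * |u| / mm u v := by
    rw [abs_div, abs_mul, abs_of_nonneg hn, abs_of_pos hm]
  have f2 : |n i * v / mm u v| = n i * |v| / mm u v := by
    rw [abs_div, abs_mul, abs_of_nonneg hn, abs_of_pos hm]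
  rw [f1, f2]
  have g1 : |u| ≤ mm u v := le_max_left _ _
  have g2 : |v| ≤ mm u v := le_max_right _ _
  refine ⟨?_, ?_, ?_⟩
  · rcases max_choice |u| |v| with h | h
    · left
      have : mm u v = |u| := h
      rw [div_eq_iff hm.ne', this]
    · right
      have : mm u v = |v| := h
      rw [div_eq_iff hm.ne', this]
  · rw [div_le_iff₀ hm]; gcongr
  · rw [div_le_iff₀ hm]; gcongr

end Pool.Agent.H152R3.OnGridBackup
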