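import Mathlib

open Set Filter Topology Real

namespace Pool.Agent.H152R3

noncomputable section

/-- The function `x + x²`. -/
def P (x : ℝ) : ℝ := x + x ^ 2
/-- The function `y - y²`. -/
def Q (y : ℝ) : ℝ := y - y ^ 2
/-- First component of the calibrating direction. -/
def A (x : ℝ) : ℝ := (P x) ^ 2 * (1 + 2 * x)
/-- Second component of the calibrating direction. -/
def B (y : ℝ) : ℝ := (Q y) ^ 2 * (1 - 2 * y)
/-- Derivative of `A`. -/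
def dA (x : ℝ) : ℝ := 2 * P x * (1 + 2 * x) ^ 2 + 2 * (P x) ^ 2
/-- Derivative of `B`. -/
def dB (y : ℝ) : ℝ := 2 * Q y * (1 - 2 * y) ^ 2 - 2 * (Q y) ^ 2
/-- Length of `(A, B)`. -/
def Nn (x y : ℝ) : ℝ := √(A x ^ 2 + B y ^ 2)
/-- Divergence of the unit field, in the reduced variables. -/
def h0 (x y : ℝ) : ℝ :=
  6 * (A x / x - B y / y) / Nn x y + (dA x * B y ^ 2 - dB y * A x ^ 2) / (Nn x y) ^ 3

lemma A_pos {x : ℝ} (hx : 0 < x) : 0 < A x := by unfold A P; positivity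

lemma Q_pos {y : ℝ} (hy : 0 < y) (hy' : y < 1 / 2) : 0 < Q y := by unfold Q; nlinarith

lemma B_pos {y : ℝ} (hy : 0 < y) (hy' : y < 1 / 2) : 0 < B y := by
  unfold B
  have := Q_pos hy hy'
  have h2 : 0 < 1 - 2 * y := by linarith
  positivity

lemma Nn_sq (x y : ℝ) : Nn x y ^ 2 = A x ^ 2 + B y ^ 2 := by
  unfold Nn; exact Real.sq_sqrt (by positivity)

lemma Nn_pos {x : ℝ} (hx : 0 < x) (y : ℝ) : 0 < Nn x y := by
  unfold Nn; apply Real.sqrt_pos.2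
  have := A_pos hx
  positivity

lemma A_le_Nn {x : ℝ} (hx : 0 < x) (y : ℝ) : A x ≤ Nn x y := by
  have h1 := Nn_sq x y
  have h2 := Nn_pos hx y
  have h3 := A_pos hx
  nlinarith [sq_nonneg (B y)]

lemma B_le_Nn {x y : ℝ} (hx : 0 < x) (hy : 0 < y) (hy' : y < 1 / 2) : B y ≤ Nn x y := by
  have h1 := Nn_sq x y
  have h2 := Nn_pos hx y
  have h3 := B_pos hy hy'
  nlinarith [sq_nonneg (A x)]

lemma A_div {x : ℝ} (hx : 0 < x) : A x / x = P x * (1 + x) * (1 + 2 * x) := by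
  unfold A P; field_simp

lemma B_div {y : ℝ} (hy : 0 < y) : B y / y = Q y * (1 - y) * (1 - 2 * y) := by
  unfold B Q; field_simp

lemma h0_eq {x y : ℝ} (hx : 0 < x) (hy : 0 < y) :
    h0 x y = (6 * (P x * (1 + x) * (1 + 2 * x) - Q y * (1 - y) * (1 - 2 * y)) * Nn x y ^ 2
      + (dA x * B y ^ 2 - dB y * A x ^ 2)) / (Nn x y) ^ 3 := by
  unfold h0
  rw [A_div hx, B_div hy]
  have := (Nn_pos hx y).ne'
  field_simp

lemma alg_a {p q u v : ℝ} (hp : 0 < p) (hq : 0 < q) (hqp : q ≤ p) (hv0 : 0 < v) (hv1 : v < 1) :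
    0 ≤ 6 * (p - q) * (p ^ 4 * u ^ 2) + 2 * u ^ 2 * v ^ 2 * p * q * (q ^ 3 - p ^ 3) := by
  have e2 : 6 * (p - q) * (p ^ 4 * u ^ 2) + 2 * u ^ 2 * v ^ 2 * p * q * (q ^ 3 - p ^ 3)
      = 2 * (p - q) * u ^ 2 * p * (3 * p ^ 3 - v ^ 2 * q * (p ^ 2 + p * q + q ^ 2)) := by ring
  rw [e2]
  have hv2 : v ^ 2 ≤ 1 := by nlinarith
  have h4 : v ^ 2 * q ≤ p := by nlinarith
  have h5 : p ^ 2 + p * q + q ^ 2 ≤ 3 * p ^ 2 := by nlinarith
  have h3 : v ^ 2 * q * (p ^ 2 + p * q + q ^ 2) ≤ p * (3 * p ^ 2) :=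
    mul_le_mul h4 h5 (by positivity) hp.le
  have h6 : 0 ≤ p - q := by linarith
  have h7 : 0 ≤ 3 * p ^ 3 - v ^ 2 * q * (p ^ 2 + p * q + q ^ 2) := by
    have : p * (3 * p ^ 2) = 3 * p ^ 3 := by ring
    linarith
  positivity

lemma alg_b {p q u v S y : ℝ} (hp : 0 < p) (hq : 0 < q) (hqp : q ≤ p)
    (hv0 : 0 < v) (hv1 : v < 1) (hy : 0 < y) (hy1 : y < 1)
    (hS2 : S ^ 2 = (p ^ 2 * u) ^ 2 + (q ^ 2 * v) ^ 2) :
    0 ≤ 6 * (p - q * (1 - y) * v) * S ^ 2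
          + (2 * u ^ 2 * v ^ 2 * p * q * (q ^ 3 - p ^ 3)
            + 2 * p ^ 2 * q ^ 2 * (q ^ 2 * v ^ 2 + p ^ 2 * u ^ 2)) := by
  have h1 := alg_a (u := u) hp hq hqp hv0 hv1
  have h2 : p ^ 4 * u ^ 2 ≤ S ^ 2 := by
    rw [hS2]
    have : (p ^ 2 * u) ^ 2 = p ^ 4 * u ^ 2 := by ring
    rw [this]
    have := sq_nonneg (q ^ 2 * v)
    linarith
  have h8 : q * (1 - y) * v ≤ q := by
    have h1y : 0 < 1 - y := by linarith
    have : (1 - y) * v ≤ 1 := by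
      calc (1 - y) * v ≤ 1 * 1 := mul_le_mul (by linarith) hv1.le hv0.le (by norm_num)
        _ = 1 := by norm_num
    calc q * (1 - y) * v = q * ((1 - y) * v) := by ring
      _ ≤ q * 1 := mul_le_mul_of_nonneg_left this hq.le
      _ = q := by ring
  have h10 : 6 * (p - q) * (p ^ 4 * u ^ 2) ≤ 6 * (p - q * (1 - y) * v) * S ^ 2 := by
    apply mul_le_mul _ h2 (by positivity) (by linarith)
    linarith
  have h11 : 0 ≤ 2 * p ^ 2 * q ^ 2 * (q ^ 2 * v ^ 2 + p ^ 2 * u ^ 2) := by positivity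
  linarith

lemma le_of_sq {a b : ℝ} (hb : 0 ≤ b) (h : a ^ 2 ≤ b ^ 2) : a ≤ b := by
  by_contra hc
  push Not at hc
  nlinarith

lemma alg_c {p q u v S : ℝ} (hp : 0 < p) (hq : 0 < q) (hqp : q ≤ p) (hu : 1 < u)
    (hv0 : 0 < v) (hv1 : v < 1)
    (hS2 : S ^ 2 = (p ^ 2 * u) ^ 2 + (q ^ 2 * v) ^ 2) : S ≤ 3 / 2 * (p ^ 2 * u) := by
  have h1 : q ^ 2 * v ≤ p ^ 2 * u :=
    mul_le_mul (pow_le_pow_left₀ hq.le hqp 2) (by linarith) hv0.le (by positivity)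
  have h2 : 0 < q ^ 2 * v := by positivity
  have h3 : (q ^ 2 * v) ^ 2 ≤ (p ^ 2 * u) ^ 2 := pow_le_pow_left₀ h2.le h1 2
  apply le_of_sq (by positivity)
  have h4 : (3 / 2 * (p ^ 2 * u)) ^ 2 = 9 / 4 * (p ^ 2 * u) ^ 2 := by ring
  rw [hS2, h4]
  have : 0 ≤ (p ^ 2 * u) ^ 2 := sq_nonneg _
  linarith

/-- Lower bound for the divergence outside the region. -/
lemma h0_lower {x y : ℝ} (hx : 0 < x) (hy : 0 < y) (hy' : y < 1 / 2) (hQP : Q y ≤ P x) :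
    4 / (1 + x) ≤ h0 x y := by
  have hN := Nn_pos hx y
  have hN2 := Nn_sq x y
  have hq := Q_pos hy hy'
  have hp : 0 < P x := by unfold P; positivity
  rw [h0_eq hx hy]
  have hpx : P x = x * (1 + x) := by unfold P; ring
  have hA : A x = P x ^ 2 * (1 + 2 * x) := rfl
  have hB : B y = Q y ^ 2 * (1 - 2 * y) := rfl
  have hdA : dA x = 2 * P x * (1 + 2 * x) ^ 2 + 2 * P x ^ 2 := rfl
  have hdB : dB y = 2 * Q y * (1 - 2 * y) ^ 2 - 2 * Q y ^ 2 := rfl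
  rw [hdA, hdB, hA, hB]
  rw [hA, hB] at hN2
  generalize P x = p at *
  generalize Q y = q at *
  generalize Nn x y = S at *
  have hv0 : 0 < 1 - 2 * y := by linarith
  have hv1 : 1 - 2 * y < 1 := by linarith
  have hb := alg_b hp hq hQP hv0 hv1 hy (by linarith) hN2
  have hc := alg_c hp hq hQP (by linarith : 1 < 1 + 2 * x) hv0 hv1 hN2
  have key1 : 6 * p * (3 * x + 2 * x ^ 2) / S ≤
      (6 * (p * (1 + x) * (1 + 2 * x) - q * (1 - y) * (1 - 2 * y)) * S ^ 2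
      + ((2 * p * (1 + 2 * x) ^ 2 + 2 * p ^ 2) * (q ^ 2 * (1 - 2 * y)) ^ 2
        - (2 * q * (1 - 2 * y) ^ 2 - 2 * q ^ 2) * (p ^ 2 * (1 + 2 * x)) ^ 2)) / S ^ 3 := by
    rw [div_le_div_iff₀ hN (by positivity)]
    have e : (6 * (p * (1 + x) * (1 + 2 * x) - q * (1 - y) * (1 - 2 * y)) * S ^ 2
      + ((2 * p * (1 + 2 * x) ^ 2 + 2 * p ^ 2) * (q ^ 2 * (1 - 2 * y)) ^ 2
        - (2 * q * (1 - 2 * y) ^ 2 - 2 * q ^ 2) * (p ^ 2 * (1 + 2 * x)) ^ 2)) * S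
        - 6 * p * (3 * x + 2 * x ^ 2) * S ^ 3
        = S * (6 * (p - q * (1 - y) * (1 - 2 * y)) * S ^ 2
          + (2 * (1 + 2 * x) ^ 2 * (1 - 2 * y) ^ 2 * p * q * (q ^ 3 - p ^ 3)
            + 2 * p ^ 2 * q ^ 2 * (q ^ 2 * (1 - 2 * y) ^ 2 + p ^ 2 * (1 + 2 * x) ^ 2))) := by
      ring
    have h12 := mul_nonneg hN.le hb
    rw [← e] at h12
    linarith
  refine le_trans ?_ key1
  rw [div_le_div_iff₀ (by linarith) hN]
  calc 4 * S ≤ 4 * (3 / 2 * (p ^ 2 * (1 + 2 * x))) := by linarith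
    _ = 6 * p * (x * (1 + x) * (1 + 2 * x)) := by rw [← hpx]; ring
    _ ≤ 6 * p * ((3 * x + 2 * x ^ 2) * (1 + x)) := by
      have : x * (1 + x) * (1 + 2 * x) ≤ (3 * x + 2 * x ^ 2) * (1 + x) := by nlinarith
      have h6p : 0 ≤ 6 * p := by positivity
      exact mul_le_mul_of_nonneg_left this h6p
    _ = 6 * p * (3 * x + 2 * x ^ 2) * (1 + x) := by ring

end

end Pool.Agent.H152R3
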