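import Pool.Agent.H152R3.Plane

open Set Filter Topology Real

namespace Pool.Agent.H152R3

noncomputable section

lemma Q_ge {y : ℝ} (hy : 0 < y) (hy' : y < 1 / 2) : y / 2 ≤ Q y := by unfold Q; nlinarith

lemma Q_le {y : ℝ} (hy : 0 < y) : Q y ≤ y := by unfold Q; nlinarith

lemma Q_le_quarter (y : ℝ) : Q y ≤ 1 / 4 := by unfold Q; nlinarith [sq_nonneg (y - 1 / 2)]

/-- Lower bound for the divergence everywhere. -/
lemma h0_ge {x y : ℝ} (hx : 0 < x) (hy : 0 < y) (hy' : y < 1 / 2) : -(10 / y) ≤ h0 x y := by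
  have hN := Nn_pos hx y
  have hN2 := Nn_sq x y
  have hq := Q_pos hy hy'
  have hq2 := Q_ge hy hy'
  have hA := A_pos hx
  have hB := B_pos hy hy'
  have hBN := B_le_Nn hx hy hy'
  unfold h0
  have hv0 : 0 < 1 - 2 * y := by linarith
  have h1 : -(6 / y) ≤ 6 * (A x / x - B y / y) / Nn x y := by
    have e : 6 * (A x / x - B y / y) / Nn x y
        = 6 * (A x / x) / Nn x y - 6 * (B y / y) / Nn x y := by ring
    rw [e]
    have h2 : 0 ≤ 6 * (A x / x) / Nn x y := by positivity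
    have h3 : 6 * (B y / y) / Nn x y ≤ 6 / y := by
      rw [div_le_div_iff₀ hN hy]
      have : 6 * (B y / y) * y = 6 * B y := by field_simp
      rw [this]; linarith
    linarith
  have h2 : -(4 / y) ≤ (dA x * B y ^ 2 - dB y * A x ^ 2) / Nn x y ^ 3 := by
    rw [sub_div]
    have h3 : 0 ≤ dA x * B y ^ 2 / Nn x y ^ 3 := by
      have : 0 ≤ dA x := by unfold dA P; positivity
      positivity
    have h4 : dB y * A x ^ 2 / Nn x y ^ 3 ≤ 4 / y := by
      have h5 : dB y ≤ 2 * Q y * (1 - 2 * y) ^ 2 := by unfold dB; nlinarith [sq_nonneg (Q y)]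
      have h6 : A x ^ 2 ≤ Nn x y ^ 2 := by rw [hN2]; nlinarith [sq_nonneg (B y)]
      have h7 : 0 ≤ 2 * Q y * (1 - 2 * y) ^ 2 := by positivity
      calc dB y * A x ^ 2 / Nn x y ^ 3 ≤ 2 * Q y * (1 - 2 * y) ^ 2 * Nn x y ^ 2 / Nn x y ^ 3 := by
            gcongr
        _ = 2 * Q y * (1 - 2 * y) ^ 2 / Nn x y := by field_simp
        _ ≤ 2 * Q y * (1 - 2 * y) ^ 2 / B y := by gcongr
        _ = 2 * (1 - 2 * y) / Q y := by unfold B; field_simp
        _ ≤ 2 * 1 / (y / 2) := by gcongr; linarith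
        _ = 4 / y := by field_simp; norm_num
    linarith
  have : -(10 / y) = -(6 / y) + -(4 / y) := by ring
  linarith

/-- Upper bound for the divergence everywhere. -/
lemma h0_le {x y : ℝ} (hx : 0 < x) (hy : 0 < y) (hy' : y < 1 / 2) :
    h0 x y ≤ 10 / x + 2 + 2 / (1 - 2 * y) := by
  have hN := Nn_pos hx y
  have hN2 := Nn_sq x y
  have hq := Q_pos hy hy'
  have hA := A_pos hx
  have hB := B_pos hy hy'
  have hBN := B_le_Nn hx hy hy'
  have hAN := A_le_Nn hx y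
  have hp : 0 < P x := by unfold P; positivity
  unfold h0
  have hv0 : 0 < 1 - 2 * y := by linarith
  have h1 : 6 * (A x / x - B y / y) / Nn x y ≤ 6 / x := by
    have e : 6 * (A x / x - B y / y) / Nn x y
        = 6 * (A x / x) / Nn x y - 6 * (B y / y) / Nn x y := by ring
    rw [e]
    have h2 : 0 ≤ 6 * (B y / y) / Nn x y := by positivity
    have h3 : 6 * (A x / x) / Nn x y ≤ 6 / x := by
      rw [div_le_div_iff₀ hN hx]
      have : 6 * (A x / x) * x = 6 * A x := by field_simp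
      rw [this]; linarith
    linarith
  have h2 : dA x * B y ^ 2 / Nn x y ^ 3 ≤ 4 / x + 2 := by
    have h5 : 0 ≤ dA x := by unfold dA P; positivity
    have h6 : B y ^ 2 ≤ Nn x y ^ 2 := by rw [hN2]; nlinarith [sq_nonneg (A x)]
    calc dA x * B y ^ 2 / Nn x y ^ 3 ≤ dA x * Nn x y ^ 2 / Nn x y ^ 3 := by gcongr
      _ = dA x / Nn x y := by field_simp
      _ ≤ dA x / A x := by gcongr
      _ = 2 * (1 + 2 * x) / P x + 2 / (1 + 2 * x) := by unfold dA A; field_simp
      _ ≤ 4 / x + 2 := by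
        apply add_le_add
        · rw [div_le_div_iff₀ hp hx]; unfold P; nlinarith [sq_nonneg x]
        · rw [div_le_iff₀ (by positivity)]; nlinarith
  have h3 : -(dB y * A x ^ 2 / Nn x y ^ 3) ≤ 2 / (1 - 2 * y) := by
    have h5 : -dB y ≤ 2 * Q y ^ 2 := by
      unfold dB
      have : 0 ≤ 2 * Q y * (1 - 2 * y) ^ 2 := by positivity
      linarith
    have h6 : A x ^ 2 ≤ Nn x y ^ 2 := by rw [hN2]; nlinarith [sq_nonneg (B y)]
    calc -(dB y * A x ^ 2 / Nn x y ^ 3) = -dB y * A x ^ 2 / Nn x y ^ 3 := by ring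
      _ ≤ 2 * Q y ^ 2 * Nn x y ^ 2 / Nn x y ^ 3 := by
        apply div_le_div_of_nonneg_right _ (by positivity)
        calc -dB y * A x ^ 2 ≤ 2 * Q y ^ 2 * A x ^ 2 := by gcongr
          _ ≤ _ := by gcongr
      _ = 2 * Q y ^ 2 / Nn x y := by field_simp
      _ ≤ 2 * Q y ^ 2 / B y := by gcongr
      _ = 2 / (1 - 2 * y) := by unfold B; field_simp
  rw [sub_div]
  have : (10 : ℝ) / x = 6 / x + 4 / x := by ring
  linarith

/-- Upper bound for the divergence inside. -/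
lemma h0_le_in {x y : ℝ} (hx : 0 < x) (hy : 0 < y) (hy' : y < 1 / 2) (hPQ : P x ≤ Q y) :
    h0 x y ≤ 36 / (y * (1 - 2 * y)) := by
  have hN := Nn_pos hx y
  have hN2 := Nn_sq x y
  have hq := Q_pos hy hy'
  have hq2 := Q_ge hy hy'
  have hA := A_pos hx
  have hB := B_pos hy hy'
  have hBN := B_le_Nn hx hy hy'
  have hAN := A_le_Nn hx y
  have hp : 0 < P x := by unfold P; positivity
  have hq4 := Q_le_quarter y
  have hx4 : x ≤ 1 / 4 := by
    have : x ≤ P x := by unfold P; nlinarith [sq_nonneg x]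
    linarith
  have hv0 : 0 < 1 - 2 * y := by linarith
  have h1 : 6 * (A x / x - B y / y) / Nn x y ≤ 12 / (Q y * (1 - 2 * y)) := by
    have e : 6 * (A x / x - B y / y) / Nn x y
        = 6 * (A x / x) / Nn x y - 6 * (B y / y) / Nn x y := by ring
    rw [e]
    have h2 : 0 ≤ 6 * (B y / y) / Nn x y := by positivity
    have h3 : 6 * (A x / x) / Nn x y ≤ 12 / (Q y * (1 - 2 * y)) := by
      calc 6 * (A x / x) / Nn x y ≤ 6 * (A x / x) / B y := by gcongr
        _ = 6 * (P x * ((1 + x) * (1 + 2 * x))) / B y := by rw [A_div hx, mul_assoc (P x)]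
        _ ≤ 6 * (Q y * 2) / B y := by
          gcongr
          nlinarith
        _ = 12 / (Q y * (1 - 2 * y)) := by unfold B; field_simp; norm_num
    linarith
  have h2 : dA x * B y ^ 2 / Nn x y ^ 3 ≤ 5 / (Q y * (1 - 2 * y)) := by
    have h5 : 0 ≤ dA x := by unfold dA P; positivity
    have h6 : B y ^ 2 ≤ Nn x y ^ 2 := by rw [hN2]; nlinarith [sq_nonneg (A x)]
    have h7 : dA x ≤ 5 * Q y := by
      unfold dA
      have h8 : (1 + 2 * x) ^ 2 ≤ 9 / 4 := by nlinarith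
      have h9 : P x * (1 + 2 * x) ^ 2 ≤ Q y * (9 / 4) := mul_le_mul hPQ h8 (by positivity) hq.le
      have h10 : P x ^ 2 ≤ Q y * (1 / 4) := by
        rw [sq]; exact mul_le_mul hPQ (by linarith) hp.le hq.le
      linarith
    calc dA x * B y ^ 2 / Nn x y ^ 3 ≤ dA x * Nn x y ^ 2 / Nn x y ^ 3 := by gcongr
      _ = dA x / Nn x y := by field_simp
      _ ≤ dA x / B y := by gcongr
      _ ≤ 5 * Q y / B y := by gcongr
      _ = 5 / (Q y * (1 - 2 * y)) := by unfold B; field_simp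
  have h3 : -(dB y * A x ^ 2 / Nn x y ^ 3) ≤ 2 / (1 - 2 * y) := by
    have h5 : -dB y ≤ 2 * Q y ^ 2 := by
      unfold dB
      have : 0 ≤ 2 * Q y * (1 - 2 * y) ^ 2 := by positivity
      linarith
    have h6 : A x ^ 2 ≤ Nn x y ^ 2 := by rw [hN2]; nlinarith [sq_nonneg (B y)]
    calc -(dB y * A x ^ 2 / Nn x y ^ 3) = -dB y * A x ^ 2 / Nn x y ^ 3 := by ring
      _ ≤ 2 * Q y ^ 2 * Nn x y ^ 2 / Nn x y ^ 3 := by
        apply div_le_div_of_nonneg_right _ (by positivity)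
        calc -dB y * A x ^ 2 ≤ 2 * Q y ^ 2 * A x ^ 2 := by gcongr
          _ ≤ _ := by gcongr
      _ = 2 * Q y ^ 2 / Nn x y := by field_simp
      _ ≤ 2 * Q y ^ 2 / B y := by gcongr
      _ = 2 / (1 - 2 * y) := by unfold B; field_simp
  have h4 : 12 / (Q y * (1 - 2 * y)) + 5 / (Q y * (1 - 2 * y)) + 2 / (1 - 2 * y)
      ≤ 36 / (y * (1 - 2 * y)) := by
    have e1 : 12 / (Q y * (1 - 2 * y)) + 5 / (Q y * (1 - 2 * y)) + 2 / (1 - 2 * y)
      = (17 + 2 * Q y) / (Q y * (1 - 2 * y)) := by field_simp; ring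
    rw [e1, div_le_div_iff₀ (by positivity) (by positivity)]
    have h10 : (17 + 2 * Q y) * y ≤ 36 * Q y := by
      unfold Q
      have e : 36 * (y - y ^ 2) - (17 + 2 * (y - y ^ 2)) * y = y * (19 * (1 - 2 * y) + 2 * y ^ 2) := by
        ring
      have : 0 ≤ y * (19 * (1 - 2 * y) + 2 * y ^ 2) := by positivity
      linarith
    nlinarith [mul_le_mul_of_nonneg_right h10 hv0.le]
  unfold h0
  rw [sub_div]
  linarith

end

end Pool.Agent.H152R3
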