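import Pool.Agent.H152R3.Plane2

open Set Filter Topology Real

namespace Pool.Agent.H152R3

noncomputable section

/-- The radial expression of the divergence on the curve. -/
def sloc (R : ℝ) : ℝ := √2 * (13 + 6 / (1 - R))

/-- On the curve `P x = Q y` the divergence is a smooth function of `x² + y²`. -/
lemma h0_curve {x y : ℝ} (hx : 0 < x) (hy : 0 < y) (hy' : y < 1 / 2) (hPQ : P x = Q y) :
    h0 x y = sloc (x ^ 2 + y ^ 2) := by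
  have hN := Nn_pos hx y
  have hN2 := Nn_sq x y
  have hq := Q_pos hy hy'
  have hp : 0 < P x := by unfold P; positivity
  have hR : x ^ 2 + y ^ 2 = y - x := by unfold P Q at hPQ; linarith
  have h1R : 0 < 1 - (x ^ 2 + y ^ 2) := by rw [hR]; linarith
  have hs2 : (√2 : ℝ) ^ 2 = 2 := Real.sq_sqrt (by norm_num)
  have hs0 : (0 : ℝ) < √2 := by positivity
  have hNe : Nn x y = √2 * P x ^ 2 := by
    have h1 : Nn x y ^ 2 = (√2 * P x ^ 2) ^ 2 := by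
      rw [hN2]
      unfold A B
      rw [← hPQ]
      have h2 : (1 + 2 * x) ^ 2 + (1 - 2 * y) ^ 2 = 2 := by
        have : (1 + 2 * x) ^ 2 + (1 - 2 * y) ^ 2 = 2 + 4 * (P x - Q y) := by unfold P Q; ring
        rw [this, hPQ]; ring
      have h3 : (√2 * P x ^ 2) ^ 2 = 2 * P x ^ 4 := by rw [mul_pow, hs2]; ring
      rw [h3]
      have h4 : (P x ^ 2 * (1 + 2 * x)) ^ 2 + (P x ^ 2 * (1 - 2 * y)) ^ 2
          = P x ^ 4 * ((1 + 2 * x) ^ 2 + (1 - 2 * y) ^ 2) := by ring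
      rw [h4, h2]; ring
    have h5 : 0 ≤ √2 * P x ^ 2 := by positivity
    exact (pow_left_inj₀ hN.le h5 (by norm_num)).1 h1
  rw [h0_eq hx hy, hNe]
  unfold dA dB A B sloc
  rw [← hPQ]
  have hxy : (x + y) * (1 - (x ^ 2 + y ^ 2)) = 2 * P x := by
    rw [hR]
    have : (x + y) * (1 - (y - x)) = P x + Q y := by unfold P Q; ring
    rw [this, ← hPQ]; ring
  have e1 : (1 + x) * (1 + 2 * x) - (1 - y) * (1 - 2 * y) = x + y + 4 * P x := by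
    have : (1 + x) * (1 + 2 * x) - (1 - y) * (1 - 2 * y) = x + y + 2 * P x + 2 * Q y := by
      unfold P Q; ring
    rw [this, ← hPQ]; ring
  have e2 : (2 * P x * (1 + 2 * x) ^ 2 + 2 * P x ^ 2) * (P x ^ 2 * (1 - 2 * y)) ^ 2
      - (2 * P x * (1 - 2 * y) ^ 2 - 2 * P x ^ 2) * (P x ^ 2 * (1 + 2 * x)) ^ 2 = 4 * P x ^ 6 := by
    have h2 : (1 + 2 * x) ^ 2 + (1 - 2 * y) ^ 2 = 2 := by
      have : (1 + 2 * x) ^ 2 + (1 - 2 * y) ^ 2 = 2 + 4 * (P x - Q y) := by unfold P Q; ring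
      rw [this, hPQ]; ring
    have : (2 * P x * (1 + 2 * x) ^ 2 + 2 * P x ^ 2) * (P x ^ 2 * (1 - 2 * y)) ^ 2
      - (2 * P x * (1 - 2 * y) ^ 2 - 2 * P x ^ 2) * (P x ^ 2 * (1 + 2 * x)) ^ 2
      = 2 * P x ^ 6 * ((1 + 2 * x) ^ 2 + (1 - 2 * y) ^ 2) := by ring
    rw [this, h2]; ring
  rw [e2]
  have e3 : P x * (1 + x) * (1 + 2 * x) - P x * (1 - y) * (1 - 2 * y)
      = P x * (x + y + 4 * P x) := by rw [← e1]; ring
  rw [e3]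
  have e4 : (√2 * P x ^ 2) ^ 2 = 2 * P x ^ 4 := by rw [mul_pow, hs2]; ring
  have e5 : (√2 * P x ^ 2) ^ 3 = 2 * √2 * P x ^ 6 := by
    have : (√2 * P x ^ 2) ^ 3 = √2 ^ 2 * √2 * P x ^ 6 := by ring
    rw [this, hs2]
  rw [e4, e5]
  have e6 : x + y = 2 * P x / (1 - (x ^ 2 + y ^ 2)) := by
    rw [eq_div_iff h1R.ne']; exact hxy
  rw [e6]
  have hne := h1R.ne'
  have e7 : (6 * (P x * (2 * P x / (1 - (x ^ 2 + y ^ 2)) + 4 * P x)) * (2 * P x ^ 4) + 4 * P x ^ 6)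
      = 2 * P x ^ 6 * (2 * (13 + 6 / (1 - (x ^ 2 + y ^ 2)))) := by
    field_simp; ring
  rw [e7]
  have e8 : (2 : ℝ) = √2 * √2 := by rw [← sq, hs2]
  have : 2 * P x ^ 6 * (2 * (13 + 6 / (1 - (x ^ 2 + y ^ 2)))) / (2 * √2 * P x ^ 6)
      = (2 / √2) * (13 + 6 / (1 - (x ^ 2 + y ^ 2))) := by
    have := hp.ne'
    field_simp
  rw [this]
  congr 1
  rw [div_eq_iff hs0.ne']; exact e8

/-- Reduced functions in polar coordinates. -/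
def pp (r φ : ℝ) : ℝ := cos φ * (1 + r * cos φ)
/-- Reduced `Q`. -/
def qq (r φ : ℝ) : ℝ := sin φ * (1 - r * sin φ)
/-- Reduced `A`. -/
def aa (r φ : ℝ) : ℝ := pp r φ ^ 2 * (1 + 2 * (r * cos φ))
/-- Reduced `B`. -/
def bb (r φ : ℝ) : ℝ := qq r φ ^ 2 * (1 - 2 * (r * sin φ))
/-- Reduced square length. -/
def n2 (r φ : ℝ) : ℝ := aa r φ ^ 2 + bb r φ ^ 2

/-- `r` times the divergence, in polar coordinates. -/
def GG (r φ : ℝ) : ℝ :=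
  6 * (pp r φ * (1 + r * cos φ) * (1 + 2 * (r * cos φ))
      - qq r φ * (1 - r * sin φ) * (1 - 2 * (r * sin φ))) / √(n2 r φ)
    + ((2 * pp r φ * (1 + 2 * (r * cos φ)) ^ 2 + 2 * r * pp r φ ^ 2) * bb r φ ^ 2
      - (2 * qq r φ * (1 - 2 * (r * sin φ)) ^ 2 - 2 * r * qq r φ ^ 2) * aa r φ ^ 2)
        / (√(n2 r φ)) ^ 3

lemma GG_eq {r φ : ℝ} (hr : 0 < r) (hc : 0 < cos φ) (hs : 0 < sin φ) :
    r * h0 (r * cos φ) (r * sin φ) = GG r φ := by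
  have hx : 0 < r * cos φ := by positivity
  have hy : 0 < r * sin φ := by positivity
  have hP : P (r * cos φ) = r * pp r φ := by unfold P pp; ring
  have hQ : Q (r * sin φ) = r * qq r φ := by unfold Q qq; ring
  have hA : A (r * cos φ) = r ^ 2 * aa r φ := by unfold A aa; rw [hP]; ring
  have hB : B (r * sin φ) = r ^ 2 * bb r φ := by unfold B bb; rw [hQ]; ring
  have hN : Nn (r * cos φ) (r * sin φ) = r ^ 2 * √(n2 r φ) := by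
    unfold Nn n2
    rw [hA, hB]
    have : (r ^ 2 * aa r φ) ^ 2 + (r ^ 2 * bb r φ) ^ 2 = (r ^ 2) ^ 2 * (aa r φ ^ 2 + bb r φ ^ 2) := by
      ring
    rw [this, Real.sqrt_mul (by positivity), Real.sqrt_sq (by positivity)]
  have hNp := Nn_pos hx (r * sin φ)
  have hn : 0 < √(n2 r φ) := by
    rw [hN] at hNp
    exact pos_of_mul_pos_right hNp (by positivity)
  rw [h0_eq hx hy]
  unfold dA dB
  rw [hP, hQ, hA, hB, hN]
  unfold GG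
  generalize √(n2 r φ) = n at *
  generalize pp r φ = p at *
  generalize qq r φ = q at *
  generalize aa r φ = a at *
  generalize bb r φ = b at *
  field_simp

lemma n2_zero (φ : ℝ) : n2 0 φ = cos φ ^ 4 + sin φ ^ 4 := by
  unfold n2 aa bb pp qq; ring

lemma n2_zero_pos (φ : ℝ) : 0 < n2 0 φ := by
  rw [n2_zero]
  have := sin_sq_add_cos_sq φ
  nlinarith [sq_nonneg (cos φ ^ 2 - sin φ ^ 2), sq_nonneg (cos φ ^ 2 + sin φ ^ 2)]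

lemma contDiffAt_GG {z : ℝ × ℝ} (hz : 0 < n2 z.1 z.2) :
    ContDiffAt ℝ 2 (fun z : ℝ × ℝ => GG z.1 z.2) z := by
  have h1 : ContDiff ℝ 2 (fun z : ℝ × ℝ => n2 z.1 z.2) := by
    unfold n2 aa bb pp qq; fun_prop
  have h2 : ContDiffAt ℝ 2 (fun z : ℝ × ℝ => √(n2 z.1 z.2)) z :=
    h1.contDiffAt.sqrt hz.ne'
  have h3 : √(n2 z.1 z.2) ≠ 0 := (Real.sqrt_pos.2 hz).ne'
  unfold GG
  apply ContDiffAt.add
  · apply ContDiffAt.div _ h2 h3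
    unfold pp qq; fun_prop
  · apply ContDiffAt.div _ (h2.pow 3) (pow_ne_zero 3 h3)
    unfold aa bb pp qq; fun_prop

lemma J_identity (c s : ℝ) :
    (6 * (-s - c) * (c ^ 4 + s ^ 4) + 6 * (c - s) * (-4 * c ^ 3 * s + 4 * s ^ 3 * c)
        + (-2 * s ^ 5 + 8 * c ^ 2 * s ^ 3 - 2 * c ^ 5 + 8 * s ^ 2 * c ^ 3)) * (c ^ 4 + s ^ 4)
      - 3 / 2 * (6 * (c - s) * (c ^ 4 + s ^ 4) + 2 * c * s ^ 4 - 2 * s * c ^ 4)
        * (-4 * c ^ 3 * s + 4 * s ^ 3 * c)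
    = -(c + s) * (((c ^ 2 + s ^ 2) ^ 2 - 2 * (c * s) * (c ^ 2 + s ^ 2) + 2 * (c * s) ^ 2)
        * (6 * ((c ^ 2 + s ^ 2) ^ 2 - 2 * (c * s) ^ 2) - 2 * (c * s) * (c ^ 2 + s ^ 2)
          - 2 * (c * s) ^ 2)
        + (c ^ 2 + s ^ 2) * ((c ^ 2 + s ^ 2) - 2 * (c * s))
          * (2 * (c ^ 2 + s ^ 2) ^ 2 + 4 * (c * s) * (c ^ 2 + s ^ 2) + 4 * (c * s) ^ 2)) := by
  ring

lemma J_neg {c s : ℝ} (hc : 0 ≤ c) (hs : 0 ≤ s) (h : c ^ 2 + s ^ 2 = 1) :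
    (6 * (-s - c) * (c ^ 4 + s ^ 4) + 6 * (c - s) * (-4 * c ^ 3 * s + 4 * s ^ 3 * c)
        + (-2 * s ^ 5 + 8 * c ^ 2 * s ^ 3 - 2 * c ^ 5 + 8 * s ^ 2 * c ^ 3)) * (c ^ 4 + s ^ 4)
      - 3 / 2 * (6 * (c - s) * (c ^ 4 + s ^ 4) + 2 * c * s ^ 4 - 2 * s * c ^ 4)
        * (-4 * c ^ 3 * s + 4 * s ^ 3 * c) < 0 := by
  rw [J_identity, h]
  have ht0 : 0 ≤ c * s := by positivity
  have ht1 : c * s ≤ 1 / 2 := by nlinarith [sq_nonneg (c - s)]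
  have hcs : 0 < c + s := by
    by_contra hcon
    push Not at hcon
    have h1 : c = 0 := by linarith
    have h2 : s = 0 := by linarith
    rw [h1, h2] at h; norm_num at h
  generalize c * s = t at *
  have h1 : 1 / 2 ≤ (1 : ℝ) ^ 2 - 2 * t * 1 + 2 * t ^ 2 := by nlinarith [sq_nonneg (t - 1 / 2)]
  have h2 : 3 / 2 ≤ 6 * ((1 : ℝ) ^ 2 - 2 * t ^ 2) - 2 * t * 1 - 2 * t ^ 2 := by nlinarith
  have h3 : 0 ≤ (1 : ℝ) * (1 - 2 * t) * (2 * 1 ^ 2 + 4 * t * 1 + 4 * t ^ 2) := by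
    have : 0 ≤ 1 - 2 * t := by linarith
    positivity
  have h4 : 0 < ((1 : ℝ) ^ 2 - 2 * t * 1 + 2 * t ^ 2)
      * (6 * ((1 : ℝ) ^ 2 - 2 * t ^ 2) - 2 * t * 1 - 2 * t ^ 2) := by
    apply mul_pos <;> linarith
  nlinarith [mul_pos hcs (add_pos_of_pos_of_nonneg h4 h3)]

lemma hasDerivAt_GG0 (φ : ℝ) :
    HasDerivAt (fun φ => GG 0 φ)
      (((6 * (-sin φ - cos φ) * (cos φ ^ 4 + sin φ ^ 4)
          + 6 * (cos φ - sin φ) * (-4 * cos φ ^ 3 * sin φ + 4 * sin φ ^ 3 * cos φ)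
        + (-2 * sin φ ^ 5 + 8 * cos φ ^ 2 * sin φ ^ 3 - 2 * cos φ ^ 5
          + 8 * sin φ ^ 2 * cos φ ^ 3)) * (cos φ ^ 4 + sin φ ^ 4)
      - 3 / 2 * (6 * (cos φ - sin φ) * (cos φ ^ 4 + sin φ ^ 4) + 2 * cos φ * sin φ ^ 4
          - 2 * sin φ * cos φ ^ 4)
        * (-4 * cos φ ^ 3 * sin φ + 4 * sin φ ^ 3 * cos φ)) / (√(cos φ ^ 4 + sin φ ^ 4)) ^ 5) φ := by
  have hD : 0 < cos φ ^ 4 + sin φ ^ 4 := by rw [← n2_zero]; exact n2_zero_pos φ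
  have hn : 0 < √(cos φ ^ 4 + sin φ ^ 4) := Real.sqrt_pos.2 hD
  have hn2 : √(cos φ ^ 4 + sin φ ^ 4) ^ 2 = cos φ ^ 4 + sin φ ^ 4 := Real.sq_sqrt hD.le
  have hfun : (fun φ => GG 0 φ) = fun φ =>
      (6 * (cos φ - sin φ) * (cos φ ^ 4 + sin φ ^ 4) + 2 * cos φ * sin φ ^ 4
          - 2 * sin φ * cos φ ^ 4) / (√(cos φ ^ 4 + sin φ ^ 4)) ^ 3 := by
    funext ψ
    have hD' : 0 < cos ψ ^ 4 + sin ψ ^ 4 := by rw [← n2_zero]; exact n2_zero_pos ψ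
    have hn' : 0 < √(cos ψ ^ 4 + sin ψ ^ 4) := Real.sqrt_pos.2 hD'
    have hn2' : √(cos ψ ^ 4 + sin ψ ^ 4) ^ 2 = cos ψ ^ 4 + sin ψ ^ 4 := Real.sq_sqrt hD'.le
    unfold GG
    rw [n2_zero]
    unfold aa bb pp qq
    rw [← hn2']
    rw [Real.sqrt_sq hn'.le]
    generalize √(cos ψ ^ 4 + sin ψ ^ 4) = n at *
    field_simp
    ring
  rw [hfun]
  have hc := Real.hasDerivAt_cos φ
  have hs := Real.hasDerivAt_sin φ
  have hDd : HasDerivAt (fun φ => cos φ ^ 4 + sin φ ^ 4)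
      (-4 * cos φ ^ 3 * sin φ + 4 * sin φ ^ 3 * cos φ) φ := by
    refine HasDerivAt.congr_deriv (f := fun φ => cos φ ^ 4 + sin φ ^ 4)
      ((hc.pow 4).add (hs.pow 4)) ?_
    push_cast; ring
  have hnd : HasDerivAt (fun φ => √(cos φ ^ 4 + sin φ ^ 4))
      ((-4 * cos φ ^ 3 * sin φ + 4 * sin φ ^ 3 * cos φ) / (2 * √(cos φ ^ 4 + sin φ ^ 4))) φ :=
    hDd.sqrt hD.ne'
  have hnum : HasDerivAt (fun φ => 6 * (cos φ - sin φ) * (cos φ ^ 4 + sin φ ^ 4)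
      + 2 * cos φ * sin φ ^ 4 - 2 * sin φ * cos φ ^ 4)
      (6 * (-sin φ - cos φ) * (cos φ ^ 4 + sin φ ^ 4)
          + 6 * (cos φ - sin φ) * (-4 * cos φ ^ 3 * sin φ + 4 * sin φ ^ 3 * cos φ)
        + (-2 * sin φ ^ 5 + 8 * cos φ ^ 2 * sin φ ^ 3 - 2 * cos φ ^ 5
          + 8 * sin φ ^ 2 * cos φ ^ 3)) φ := by
    have h1 := ((hc.sub hs).const_mul 6).mul hDd
    have h2 := (hc.const_mul 2).mul (hs.pow 4)
    have h3 := (hs.const_mul 2).mul (hc.pow 4)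
    refine HasDerivAt.congr_deriv (f := fun φ => 6 * (cos φ - sin φ) * (cos φ ^ 4 + sin φ ^ 4)
      + 2 * cos φ * sin φ ^ 4 - 2 * sin φ * cos φ ^ 4) ((h1.add h2).sub h3) ?_
    simp only [Pi.pow_apply, Pi.sub_apply]
    push_cast; ring
  refine HasDerivAt.congr_deriv (f := fun φ =>
      (6 * (cos φ - sin φ) * (cos φ ^ 4 + sin φ ^ 4) + 2 * cos φ * sin φ ^ 4
          - 2 * sin φ * cos φ ^ 4) / (√(cos φ ^ 4 + sin φ ^ 4)) ^ 3)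
      (hnum.div (hnd.pow 3) (pow_ne_zero 3 hn.ne')) ?_
  rw [div_eq_div_iff (by positivity) (by positivity)]
  push_cast
  generalize hnn : √(cos φ ^ 4 + sin φ ^ 4) = n at *
  rw [← hn2]
  field_simp

lemma deriv_GG0_neg {φ : ℝ} (h0 : 0 ≤ φ) (h1 : φ ≤ π / 2) : deriv (fun φ => GG 0 φ) φ < 0 := by
  rw [(hasDerivAt_GG0 φ).deriv]
  have hD : 0 < cos φ ^ 4 + sin φ ^ 4 := by rw [← n2_zero]; exact n2_zero_pos φ
  have hn : 0 < √(cos φ ^ 4 + sin φ ^ 4) := Real.sqrt_pos.2 hD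
  apply div_neg_of_neg_of_pos _ (by positivity)
  apply J_neg (Real.cos_nonneg_of_mem_Icc ⟨by linarith, h1⟩)
    (Real.sin_nonneg_of_mem_Icc ⟨h0, by linarith [Real.pi_pos]⟩)
  rw [add_comm]; exact sin_sq_add_cos_sq φ

end

end Pool.Agent.H152R3
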