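import Pool.Agent.H152R3.Plane3

open Set Filter Topology Real

namespace Pool.Agent.H152R3

noncomputable section

lemma exists_anti : ∃ ρ > 0, ∀ r, 0 ≤ r → r < ρ → StrictAntiOn (fun φ => GG r φ) (Icc 0 (π / 2)) := by
  -- the open set where everything is nice
  let T : Set (ℝ × ℝ) := {z | 0 < n2 z.1 z.2 ∧ fderiv ℝ (fun z : ℝ × ℝ => GG z.1 z.2) z (0, 1) < 0}
  have hn2c : Continuous (fun z : ℝ × ℝ => n2 z.1 z.2) := by
    unfold n2 aa bb pp qq; fun_prop
  have hTo : IsOpen T := by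
    rw [isOpen_iff_mem_nhds]
    rintro z ⟨hz1, hz2⟩
    have h1 : ∀ᶠ w in 𝓝 z, 0 < n2 w.1 w.2 := hn2c.continuousAt.eventually (lt_mem_nhds hz1)
    have h2 : ContinuousAt (fun w => fderiv ℝ (fun z : ℝ × ℝ => GG z.1 z.2) w (0, 1)) z := by
      have := (contDiffAt_GG hz1).fderiv_right (m := 1) (by norm_num)
      exact (this.clm_apply contDiffAt_const).continuousAt
    filter_upwards [h1, h2.eventually (gt_mem_nhds hz2)] with w hw1 hw2
    exact ⟨hw1, hw2⟩
  have hpart : ∀ z : ℝ × ℝ, 0 < n2 z.1 z.2 →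
      HasDerivAt (fun φ => GG z.1 φ) (fderiv ℝ (fun z : ℝ × ℝ => GG z.1 z.2) z (0, 1)) z.2 := by
    intro z hz
    have h1 : HasFDerivAt (fun z : ℝ × ℝ => GG z.1 z.2)
        (fderiv ℝ (fun z : ℝ × ℝ => GG z.1 z.2) z) z :=
      ((contDiffAt_GG hz).differentiableAt (by norm_num)).hasFDerivAt
    have h2 : HasDerivAt (fun φ : ℝ => (z.1, φ)) ((0 : ℝ), (1 : ℝ)) z.2 :=
      (hasDerivAt_const _ _).prodMk (hasDerivAt_id _)
    exact h1.comp_hasDerivAt z.2 h2
  have hsub : ({(0 : ℝ)} : Set ℝ) ×ˢ Icc (0 : ℝ) (π / 2) ⊆ T := by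
    rintro ⟨r, φ⟩ ⟨hr, hφ⟩
    simp only [mem_singleton_iff] at hr
    subst hr
    refine ⟨n2_zero_pos φ, ?_⟩
    rw [← (hpart (0, φ) (n2_zero_pos φ)).deriv]
    exact deriv_GG0_neg hφ.1 hφ.2
  obtain ⟨u, v, hu, hv, hu0, hv0, huv⟩ :=
    generalized_tube_lemma isCompact_singleton isCompact_Icc hTo hsub
  have h0u : (0 : ℝ) ∈ u := hu0 (mem_singleton _)
  obtain ⟨ρ, hρ, hball⟩ := Metric.isOpen_iff.1 hu 0 h0u
  refine ⟨ρ, hρ, fun r hr0 hr => ?_⟩
  have hru : r ∈ u := hball (by rw [Metric.mem_ball, dist_zero_right, Real.norm_eq_abs, abs_of_nonneg hr0]; exact hr)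
  have hT : ∀ φ ∈ Icc (0 : ℝ) (π / 2), (r, φ) ∈ T := fun φ hφ => huv ⟨hru, hv0 hφ⟩
  apply strictAntiOn_of_deriv_neg (convex_Icc _ _)
  · intro φ hφ
    exact (hpart (r, φ) (hT φ hφ).1).continuousAt.continuousWithinAt
  · intro φ hφ
    rw [interior_Icc] at hφ
    have hφ' : φ ∈ Icc (0 : ℝ) (π / 2) := Ioo_subset_Icc_self hφ
    rw [(hpart (r, φ) (hT φ hφ').1).deriv]
    exact (hT φ hφ').2

lemma exists_polar {x y : ℝ} (hx : 0 < x) (hy : 0 < y) :
    ∃ r φ, 0 < r ∧ r ^ 2 = x ^ 2 + y ^ 2 ∧ 0 < φ ∧ φ < π / 2 ∧ x = r * cos φ ∧ y = r * sin φ := by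
  refine ⟨√(x ^ 2 + y ^ 2), Real.arctan (y / x), Real.sqrt_pos.2 (by positivity),
    Real.sq_sqrt (by positivity), ?_, Real.arctan_lt_pi_div_two _, ?_, ?_⟩
  · rw [← Real.arctan_zero]
    exact Real.arctan_strictMono (by positivity)
  · rw [Real.cos_arctan]
    have : √(1 + (y / x) ^ 2) = √(x ^ 2 + y ^ 2) / x := by
      rw [show 1 + (y / x) ^ 2 = (x ^ 2 + y ^ 2) / x ^ 2 by field_simp, Real.sqrt_div (by positivity),
        Real.sqrt_sq hx.le]
    rw [this]
    have : 0 < √(x ^ 2 + y ^ 2) := Real.sqrt_pos.2 (by positivity)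
    field_simp
  · rw [Real.sin_arctan]
    have : √(1 + (y / x) ^ 2) = √(x ^ 2 + y ^ 2) / x := by
      rw [show 1 + (y / x) ^ 2 = (x ^ 2 + y ^ 2) / x ^ 2 by field_simp, Real.sqrt_div (by positivity),
        Real.sqrt_sq hx.le]
    rw [this]
    have : 0 < √(x ^ 2 + y ^ 2) := Real.sqrt_pos.2 (by positivity)
    field_simp

/-- Near the origin the divergence is squeezed by the radial function `sloc`. -/
lemma squeeze_zero : ∃ ρ > 0, ρ ≤ 1 / 8 ∧ ∀ x y, 0 < x → 0 < y → x ^ 2 + y ^ 2 < ρ ^ 2 →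
    (P x ≤ Q y → h0 x y ≤ sloc (x ^ 2 + y ^ 2)) ∧
    (Q y ≤ P x → sloc (x ^ 2 + y ^ 2) ≤ h0 x y) := by
  obtain ⟨ρ, hρ, hanti⟩ := exists_anti
  refine ⟨min ρ (1 / 8), by positivity, min_le_right _ _, ?_⟩
  intro x y hx hy hxy
  obtain ⟨r, φ, hr, hr2, hφ0, hφ1, hxr, hyr⟩ := exists_polar hx hy
  have hrρ : r < min ρ (1 / 8) := by
    rw [← hr2] at hxy
    exact lt_of_pow_lt_pow_left₀ 2 (by positivity) hxy
  have hr1 : r < 1 / 8 := lt_of_lt_of_le hrρ (min_le_right _ _)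
  have hanti' := hanti r hr.le (lt_of_lt_of_le hrρ (min_le_left _ _))
  -- the angle on the curve
  let D : ℝ → ℝ := fun φ => cos φ - sin φ + r
  have hDc : Continuous D := by fun_prop
  have hD0 : 0 < D 0 := by simp only [D, Real.cos_zero, Real.sin_zero]; linarith
  have hD1 : D (π / 2) < 0 := by simp only [D, Real.cos_pi_div_two, Real.sin_pi_div_two]; linarith
  have hpi := Real.pi_pos
  obtain ⟨c, hc, hDc0⟩ : ∃ c ∈ Icc 0 (π / 2), D c = 0 :=
    intermediate_value_Icc' (by positivity) hDc.continuousOn ⟨hD1.le, hD0.le⟩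
  have hDanti : StrictAntiOn D (Icc 0 (π / 2)) := by
    intro a ha b hb hab
    simp only [D]
    have h1 : cos b < cos a := Real.cos_lt_cos_of_nonneg_of_le_pi ha.1 (by linarith [hb.2]) hab
    have h2 : sin a < sin b := Real.sin_lt_sin_of_lt_of_le_pi_div_two (by linarith [ha.1]) hb.2 hab
    linarith
  have hc0 : 0 < c := by
    rcases hc.1.eq_or_lt with h | h
    · rw [← h] at hDc0; linarith
    · exact h
  have hc1 : c < π / 2 := by
    rcases hc.2.eq_or_lt with h | h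
    · rw [h] at hDc0; linarith
    · exact h
  have hcosc : 0 < cos c := Real.cos_pos_of_mem_Ioo ⟨by linarith, hc1⟩
  have hsinc : 0 < sin c := Real.sin_pos_of_pos_of_lt_pi hc0 (by linarith)
  have hsin1 : sin c ≤ 1 := Real.sin_le_one c
  have hPQc : P (r * cos c) = Q (r * sin c) := by
    have h1 : cos c = sin c - r := by simp only [D] at hDc0; linarith
    have h2 := sin_sq_add_cos_sq c
    unfold P Q
    have h3 : r * cos c + (r * cos c) ^ 2 - (r * sin c - (r * sin c) ^ 2)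
        = r * (cos c - sin c + r * (sin c ^ 2 + cos c ^ 2)) := by ring
    rw [h2] at h3
    have h4 : cos c - sin c + r * 1 = 0 := by linarith
    rw [h4] at h3
    linarith
  have hyc : r * sin c < 1 / 2 := by nlinarith
  have hR : (r * cos c) ^ 2 + (r * sin c) ^ 2 = x ^ 2 + y ^ 2 := by
    rw [← hr2]
    have : (r * cos c) ^ 2 + (r * sin c) ^ 2 = r ^ 2 * (sin c ^ 2 + cos c ^ 2) := by ring
    rw [this, sin_sq_add_cos_sq, mul_one]
  have hcurve : GG r c = r * sloc (x ^ 2 + y ^ 2) := by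
    rw [← GG_eq hr hcosc hsinc, h0_curve (by positivity) (by positivity) hyc hPQc, hR]
  have hcosφ : 0 < cos φ := Real.cos_pos_of_mem_Ioo ⟨by linarith, hφ1⟩
  have hsinφ : 0 < sin φ := Real.sin_pos_of_pos_of_lt_pi hφ0 (by linarith)
  have hG : GG r φ = r * h0 x y := by rw [← GG_eq hr hcosφ hsinφ, ← hxr, ← hyr]
  have hφm : φ ∈ Icc 0 (π / 2) := ⟨hφ0.le, hφ1.le⟩
  have hPQ : P x - Q y = r * D φ := by
    have h2 := sin_sq_add_cos_sq φ
    unfold P Q
    simp only [D]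
    rw [hxr, hyr]
    have h3 : r * cos φ + (r * cos φ) ^ 2 - (r * sin φ - (r * sin φ) ^ 2)
        = r * (cos φ - sin φ + r * (sin φ ^ 2 + cos φ ^ 2)) := by ring
    rw [h3, h2, mul_one]
  constructor
  · intro h
    have hD : D φ ≤ 0 := by
      by_contra hcon
      push Not at hcon
      have := mul_pos hr hcon
      linarith
    have hcφ : c ≤ φ := by
      by_contra hcon
      push Not at hcon
      have := hDanti hφm hc hcon
      linarith
    have h1 := hanti'.antitoneOn hc hφm hcφ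
    replace h1 : _ ≤ _ := h1
    rw [hcurve, hG] at h1
    exact le_of_mul_le_mul_left h1 hr
  · intro h
    have hD : 0 ≤ D φ := by
      by_contra hcon
      push Not at hcon
      have := mul_neg_of_pos_of_neg hr hcon
      linarith
    have hcφ : φ ≤ c := by
      by_contra hcon
      push Not at hcon
      have := hDanti hc hφm hcon
      linarith
    have h1 := hanti'.antitoneOn hφm hc hcφ
    replace h1 : _ ≤ _ := h1
    rw [hcurve, hG] at h1
    exact le_of_mul_le_mul_left h1 hr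

end

end Pool.Agent.H152R3
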