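import Pool.Agent.H152R3.Plane4

open Set Filter Topology Real ContDiff

namespace Pool.Agent.H152R3

noncomputable section

/-- Logarithm of the area weight, as a function of `‖Y‖²`. -/
def psi (s : ℝ) : ℝ := -(expNegInvGlue (s - 1 / 16) / (1 - 4 * s) ^ 2)

/-- Its derivative. -/
def dpsi (s : ℝ) : ℝ :=
  -(deriv expNegInvGlue (s - 1 / 16) / (1 - 4 * s) ^ 2
    + 8 * expNegInvGlue (s - 1 / 16) / (1 - 4 * s) ^ 3)

lemma contDiff_glue : ContDiff ℝ ∞ expNegInvGlue := expNegInvGlue.contDiff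

lemma contDiff_dglue : ContDiff ℝ ∞ (deriv expNegInvGlue) :=
  (contDiff_infty_iff_deriv.1 contDiff_glue).2

lemma differentiable_glue : Differentiable ℝ expNegInvGlue :=
  contDiff_glue.differentiable (by simp)

lemma deriv_glue_nonneg (x : ℝ) : 0 ≤ deriv expNegInvGlue x :=
  expNegInvGlue.monotone.deriv_nonneg

lemma deriv_glue_zero {x : ℝ} (hx : x ≤ 0) : deriv expNegInvGlue x = 0 := by
  apply IsLocalMin.deriv_eq_zero
  apply Eventually.of_forall
  intro y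
  rw [expNegInvGlue.zero_of_nonpos hx]
  exact expNegInvGlue.nonneg y

lemma glue_le_one (x : ℝ) : expNegInvGlue x ≤ 1 := by
  unfold expNegInvGlue
  split_ifs with h
  · norm_num
  · apply Real.exp_le_one_iff.2
    have : 0 < x⁻¹ := inv_pos.2 (not_le.1 h)
    linarith

lemma hasDerivAt_psi {s : ℝ} (hs : s < 1 / 4) : HasDerivAt psi (dpsi s) s := by
  have h1 : HasDerivAt (fun s : ℝ => expNegInvGlue (s - 1 / 16))
      (deriv expNegInvGlue (s - 1 / 16)) s := by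
    have h2 : HasDerivAt (fun s : ℝ => s - 1 / 16) 1 s := (hasDerivAt_id s).sub_const _
    have h3 := (differentiable_glue (s - 1 / 16)).hasDerivAt.comp s h2
    rw [mul_one] at h3
    exact h3
  have h4 : HasDerivAt (fun s : ℝ => (1 - 4 * s) ^ 2) (-(8 * (1 - 4 * s))) s := by
    have h5 : HasDerivAt (fun s : ℝ => 1 - 4 * s) (-4) s := by
      have := ((hasDerivAt_id s).const_mul 4).const_sub 1
      exact HasDerivAt.congr_deriv this (by norm_num)
    exact HasDerivAt.congr_deriv (h5.pow 2) (by ring)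
  have hne : (1 - 4 * s) ≠ 0 := by linarith
  have h6 := (h1.div h4 (pow_ne_zero 2 hne)).neg
  refine HasDerivAt.congr_deriv h6 ?_
  unfold dpsi
  field_simp
  ring

lemma contDiffAt_psi {s : ℝ} (hs : s < 1 / 4) : ContDiffAt ℝ ∞ psi s := by
  unfold psi
  have hne : (1 - 4 * s) ≠ 0 := by linarith
  apply ContDiffAt.neg
  apply ContDiffAt.div
  · exact (contDiff_glue.comp (contDiff_id.sub contDiff_const)).contDiffAt
  · fun_prop
  · exact pow_ne_zero 2 hne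

lemma contDiffAt_dpsi {s : ℝ} (hs : s < 1 / 4) : ContDiffAt ℝ ∞ dpsi s := by
  unfold dpsi
  have hne : (1 - 4 * s) ≠ 0 := by linarith
  apply ContDiffAt.neg
  apply ContDiffAt.add
  · apply ContDiffAt.div
    · exact (contDiff_dglue.comp (contDiff_id.sub contDiff_const)).contDiffAt
    · fun_prop
    · exact pow_ne_zero 2 hne
  · apply ContDiffAt.div
    · exact contDiffAt_const.mul (contDiff_glue.comp (contDiff_id.sub contDiff_const)).contDiffAt
    · fun_prop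
    · exact pow_ne_zero 3 hne

lemma psi_nonpos (s : ℝ) : psi s ≤ 0 := by
  unfold psi
  have := expNegInvGlue.nonneg (s - 1 / 16)
  have h2 : 0 ≤ expNegInvGlue (s - 1 / 16) / (1 - 4 * s) ^ 2 := by positivity
  linarith

lemma dpsi_nonpos {s : ℝ} (hs : s < 1 / 4) : dpsi s ≤ 0 := by
  unfold dpsi
  have h1 := expNegInvGlue.nonneg (s - 1 / 16)
  have h2 := deriv_glue_nonneg (s - 1 / 16)
  have h3 : 0 < 1 - 4 * s := by linarith
  have : 0 ≤ deriv expNegInvGlue (s - 1 / 16) / (1 - 4 * s) ^ 2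
    + 8 * expNegInvGlue (s - 1 / 16) / (1 - 4 * s) ^ 3 := by positivity
  linarith

lemma dpsi_zero {s : ℝ} (hs : s ≤ 1 / 16) : dpsi s = 0 := by
  unfold dpsi
  rw [deriv_glue_zero (by linarith), expNegInvGlue.zero_of_nonpos (by linarith)]
  simp

lemma dpsi_le {s : ℝ} (hs : s < 1 / 4) (hs' : 9 / 64 ≤ s) :
    dpsi s ≤ -(8 * expNegInvGlue (5 / 64) / (1 - 4 * s) ^ 3) := by
  unfold dpsi
  have h2 := deriv_glue_nonneg (s - 1 / 16)
  have h3 : 0 < 1 - 4 * s := by linarith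
  have h4 : expNegInvGlue (5 / 64) ≤ expNegInvGlue (s - 1 / 16) :=
    expNegInvGlue.monotone (by linarith)
  have h5 : 0 ≤ deriv expNegInvGlue (s - 1 / 16) / (1 - 4 * s) ^ 2 := by positivity
  have h6 : 8 * expNegInvGlue (5 / 64) / (1 - 4 * s) ^ 3
      ≤ 8 * expNegInvGlue (s - 1 / 16) / (1 - 4 * s) ^ 3 := by
    apply div_le_div_of_nonneg_right _ (by positivity)
    linarith
  linarith

lemma dpsi_ge : ∃ C > 0, ∀ s, 0 ≤ s → s < 1 / 4 → -(C / (1 - 4 * s) ^ 3) ≤ dpsi s := by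
  obtain ⟨C, hC⟩ := (isCompact_Icc (a := (-1 : ℝ)) (b := 1)).exists_bound_of_continuousOn
    contDiff_dglue.continuous.continuousOn
  refine ⟨|C| + 8, by positivity, ?_⟩
  intro s hs0 hs
  have h1 : deriv expNegInvGlue (s - 1 / 16) ≤ |C| := by
    have := hC (s - 1 / 16) ⟨by linarith, by linarith⟩
    rw [Real.norm_eq_abs] at this
    exact (le_abs_self _).trans (this.trans (le_abs_self _))
  have h2 := glue_le_one (s - 1 / 16)
  have h3 : 0 < 1 - 4 * s := by linarith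
  have h3' : 1 - 4 * s ≤ 1 := by linarith
  have h4 : deriv expNegInvGlue (s - 1 / 16) / (1 - 4 * s) ^ 2 ≤ |C| / (1 - 4 * s) ^ 3 := by
    apply div_le_div₀ (abs_nonneg _) h1 (by positivity)
    exact pow_le_pow_of_le_one h3.le h3' (by norm_num)
  have h5 : 8 * expNegInvGlue (s - 1 / 16) / (1 - 4 * s) ^ 3 ≤ 8 / (1 - 4 * s) ^ 3 := by
    apply div_le_div_of_nonneg_right _ (by positivity)
    linarith
  unfold dpsi
  rw [add_div]
  linarith

/-- Minus the derivative of `psi (y²)`. -/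
def D (y : ℝ) : ℝ := -(2 * y * dpsi (y ^ 2))

lemma sq_lt_quarter {y : ℝ} (hy : 0 ≤ y) (hy' : y < 1 / 2) : y ^ 2 < 1 / 4 := by nlinarith

lemma D_nonneg {y : ℝ} (hy : 0 ≤ y) (hy' : y < 1 / 2) : 0 ≤ D y := by
  unfold D
  have := dpsi_nonpos (sq_lt_quarter hy hy')
  nlinarith

lemma D_zero {y : ℝ} (hy : 0 ≤ y) (hy' : y ≤ 1 / 4) : D y = 0 := by
  unfold D
  rw [dpsi_zero (by nlinarith)]
  simp

/-- The full divergence function. -/
def hh (x y : ℝ) : ℝ := h0 x y + B y / Nn x y * D y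

/-- Lower bound function for the conformal factor. -/
def ell (ε x y : ℝ) : ℝ := ε * (2 / √(1 + x ^ 2) + 8 / ((1 - 4 * y ^ 2) ^ 2 * (1 + x ^ 2) ^ 4))

lemma h0_le_hh {x y : ℝ} (hx : 0 < x) (hy : 0 < y) (hy' : y < 1 / 2) : h0 x y ≤ hh x y := by
  unfold hh
  have h1 := D_nonneg hy.le hy'
  have h2 := B_pos hy hy'
  have h3 := Nn_pos hx y
  have : 0 ≤ B y / Nn x y * D y := by positivity
  linarith

lemma one_sub_pos {y : ℝ} (hy : 0 ≤ y) (hy' : y < 1 / 2) : 0 < 1 - 4 * y ^ 2 := by nlinarith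

lemma two_div_sqrt_le {x : ℝ} (hx : 0 ≤ x) : 2 / √(1 + x ^ 2) ≤ 4 / (1 + x) := by
  rw [div_le_div_iff₀ (Real.sqrt_pos.2 (by positivity)) (by positivity)]
  have h1 : (1 + x) / 2 ≤ √(1 + x ^ 2) := by
    apply Real.le_sqrt_of_sq_le
    nlinarith [sq_nonneg (x - 1)]
  linarith

lemma Nn_le {x y : ℝ} (hx : 0 < x) (hy : 0 < y) (hy' : y < 1 / 2) (hQP : Q y ≤ P x) :
    Nn x y ≤ 3 / 2 * A x := by
  have hA := A_pos hx
  have hB := B_pos hy hy'
  have hQ := Q_pos hy hy'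
  apply le_of_sq (by positivity)
  rw [Nn_sq]
  have h1 : B y ≤ A x := by
    unfold A B
    have h2 : Q y ^ 2 ≤ P x ^ 2 := pow_le_pow_left₀ hQ.le hQP 2
    nlinarith [sq_nonneg (P x), sq_nonneg (Q y)]
  nlinarith

lemma A_le_pow {x : ℝ} (hx : 0 < x) : A x ≤ 4 * (1 + x ^ 2) ^ 4 := by
  unfold A P
  have h1 : (x + x ^ 2) ^ 2 ≤ 2 * (1 + x ^ 2) ^ 2 := by
    have : (x + x ^ 2) ^ 2 = x ^ 2 * (1 + x) ^ 2 := by ring
    rw [this]
    have h2 : (1 + x) ^ 2 ≤ 2 * (1 + x ^ 2) := by nlinarith [sq_nonneg (x - 1)]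
    have h3 : x ^ 2 ≤ 1 + x ^ 2 := by linarith
    calc x ^ 2 * (1 + x) ^ 2 ≤ (1 + x ^ 2) * (2 * (1 + x ^ 2)) := by
          apply mul_le_mul h3 h2 (by positivity) (by positivity)
      _ = _ := by ring
  have h4 : 1 + 2 * x ≤ 2 * (1 + x ^ 2) := by nlinarith [sq_nonneg (x - 1), sq_nonneg x]
  calc (x + x ^ 2) ^ 2 * (1 + 2 * x) ≤ (2 * (1 + x ^ 2) ^ 2) * (2 * (1 + x ^ 2)) := by
        apply mul_le_mul h1 h4 (by positivity) (by positivity)
    _ = 4 * (1 + x ^ 2) ^ 3 := by ring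
    _ ≤ 4 * (1 + x ^ 2) ^ 4 := by
        have : (1 + x ^ 2) ^ 3 ≤ (1 + x ^ 2) ^ 4 :=
          pow_le_pow_right₀ (by nlinarith [sq_nonneg x]) (by norm_num)
        linarith

lemma exists_eps : ∃ ε > 0, ε ≤ 1 / 100 ∧ ∀ x y, 0 < x → 0 < y → y < 1 / 2 → Q y ≤ P x →
    ell ε x y < hh x y := by
  have hS : 0 < expNegInvGlue (5 / 64) := expNegInvGlue.pos_of_pos (by norm_num)
  refine ⟨expNegInvGlue (5 / 64) / 400, by positivity, ?_, ?_⟩
  · have := glue_le_one (5 / 64); linarith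
  intro x y hx hy hy' hQP
  set S := expNegInvGlue (5 / 64) with hSdef
  have hS1 : S ≤ 1 := glue_le_one _
  have hlow := h0_lower hx hy hy' hQP
  have hm : 0 < 1 - 4 * y ^ 2 := one_sub_pos hy.le hy'
  have hA := A_pos hx
  have hB := B_pos hy hy'
  have hN := Nn_pos hx y
  have h1 : S / 400 * (2 / √(1 + x ^ 2)) ≤ 1 / 400 * (4 / (1 + x)) := by
    apply mul_le_mul _ (two_div_sqrt_le hx.le) (by positivity) (by norm_num)
    linarith
  have hxp : 0 < 4 / (1 + x) := by positivity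
  have hell : ell (S / 400) x y = S / 400 * (2 / √(1 + x ^ 2))
      + S / 400 * (8 / ((1 - 4 * y ^ 2) ^ 2 * (1 + x ^ 2) ^ 4)) := by unfold ell; ring
  rw [hell]
  unfold hh
  have hx4 : 1 ≤ (1 + x ^ 2) := by nlinarith
  by_cases hy3 : y < 3 / 8
  · have h2 : S / 400 * (8 / ((1 - 4 * y ^ 2) ^ 2 * (1 + x ^ 2) ^ 4)) ≤ 1 / 2 * (4 / (1 + x)) := by
      have h3 : (1 / 6 : ℝ) ≤ (1 - 4 * y ^ 2) ^ 2 := by
        have : 7 / 16 ≤ 1 - 4 * y ^ 2 := by nlinarith
        nlinarith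
      have h4 : (1 + x) / 2 ≤ (1 + x ^ 2) ^ 4 := by
        have h5 : (1 + x ^ 2) ^ 1 ≤ (1 + x ^ 2) ^ 4 := pow_le_pow_right₀ hx4 (by norm_num)
        nlinarith [sq_nonneg (x - 1)]
      have h6 : 1 / 6 * ((1 + x) / 2) ≤ (1 - 4 * y ^ 2) ^ 2 * (1 + x ^ 2) ^ 4 :=
        mul_le_mul h3 h4 (by positivity) (by positivity)
      have h7 : 8 / ((1 - 4 * y ^ 2) ^ 2 * (1 + x ^ 2) ^ 4) ≤ 8 / (1 / 6 * ((1 + x) / 2)) :=
        div_le_div_of_nonneg_left (by norm_num) (by positivity) h6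
      have h8 : 8 / (1 / 6 * ((1 + x) / 2)) = 24 * (4 / (1 + x)) := by field_simp; norm_num
      rw [h8] at h7
      calc S / 400 * (8 / ((1 - 4 * y ^ 2) ^ 2 * (1 + x ^ 2) ^ 4))
          ≤ 1 / 400 * (24 * (4 / (1 + x))) := by
            apply mul_le_mul _ h7 (by positivity) (by norm_num)
            linarith
        _ ≤ _ := by linarith
    have h9 : 0 ≤ B y / Nn x y * D y := by
      have := D_nonneg hy.le hy'
      positivity
    linarith
  · push Not at hy3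
    have hD : 6 * S / (1 - 4 * y ^ 2) ^ 3 ≤ D y := by
      unfold D
      have h3 := dpsi_le (s := y ^ 2) (by nlinarith) (by nlinarith)
      rw [← hSdef] at h3
      have h4 : 0 ≤ 8 * S / (1 - 4 * y ^ 2) ^ 3 := by positivity
      have h5 : 6 * S / (1 - 4 * y ^ 2) ^ 3 = 3 / 4 * (8 * S / (1 - 4 * y ^ 2) ^ 3) := by ring
      rw [h5]
      nlinarith
    have hBl : 1 / 40 * (1 - 4 * y ^ 2) ≤ B y := by
      unfold B
      have h3 : 15 / 64 ≤ Q y := by unfold Q; nlinarith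
      have h4 : 1 / 20 ≤ Q y ^ 2 := by nlinarith
      have h5 : (1 - 4 * y ^ 2) / 2 ≤ 1 - 2 * y := by nlinarith
      have h6 : 0 < 1 - 2 * y := by linarith
      nlinarith
    have hNl : Nn x y ≤ 6 * (1 + x ^ 2) ^ 4 := by
      have h3 := Nn_le hx hy hy' hQP
      have h4 := A_le_pow hx
      linarith
    have hmain : S / 400 * (8 / ((1 - 4 * y ^ 2) ^ 2 * (1 + x ^ 2) ^ 4)) ≤ B y / Nn x y * D y := by
      have h3 : 1 / 40 * (1 - 4 * y ^ 2) / (6 * (1 + x ^ 2) ^ 4) ≤ B y / Nn x y :=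
        div_le_div₀ hB.le hBl hN hNl
      have h4 : 1 / 40 * (1 - 4 * y ^ 2) / (6 * (1 + x ^ 2) ^ 4) * (6 * S / (1 - 4 * y ^ 2) ^ 3)
          ≤ B y / Nn x y * D y :=
        mul_le_mul h3 hD (by positivity) (by positivity)
      refine le_trans ?_ h4
      have h5 : 1 / 40 * (1 - 4 * y ^ 2) / (6 * (1 + x ^ 2) ^ 4) * (6 * S / (1 - 4 * y ^ 2) ^ 3)
          = S / 40 / ((1 - 4 * y ^ 2) ^ 2 * (1 + x ^ 2) ^ 4) := by
        field_simp
      rw [h5]
      have h6 : S / 400 * (8 / ((1 - 4 * y ^ 2) ^ 2 * (1 + x ^ 2) ^ 4))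
          = S / 50 / ((1 - 4 * y ^ 2) ^ 2 * (1 + x ^ 2) ^ 4) := by
        field_simp; norm_num
      rw [h6]
      apply div_le_div_of_nonneg_right _ (by positivity)
      linarith
    linarith

lemma exists_upper : ∃ C > 0, 100 ≤ C ∧ ∀ x y, 0 < x → 0 < y → y < 1 / 2 → P x ≤ Q y →
    hh x y ≤ C / (1 - 4 * y ^ 2) ^ 4 := by
  obtain ⟨ρ, hρ, hρ1, hsq⟩ := squeeze_zero
  obtain ⟨C, hC, hCd⟩ := dpsi_ge
  refine ⟨100 + 144 / ρ + C, by positivity, ?_, ?_⟩
  · have : 0 < 144 / ρ := by positivity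
    linarith
  intro x y hx hy hy' hPQ
  have hm : 0 < 1 - 4 * y ^ 2 := one_sub_pos hy.le hy'
  have hm1 : 1 - 4 * y ^ 2 ≤ 1 := by nlinarith
  have hm4 : (1 - 4 * y ^ 2) ^ 4 ≤ 1 := pow_le_one₀ hm.le hm1
  have hN := Nn_pos hx y
  have h144 : 0 < 144 / ρ := by positivity
  by_cases hnear : x ^ 2 + y ^ 2 < ρ ^ 2
  · have h1 := (hsq x y hx hy hnear).1 hPQ
    have hyρ : y < 1 / 8 := by nlinarith
    unfold hh
    rw [D_zero hy.le (by linarith), mul_zero, add_zero]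
    have h2 : sloc (x ^ 2 + y ^ 2) ≤ 100 := by
      unfold sloc
      have h3 : x ^ 2 + y ^ 2 ≤ 1 / 64 := by nlinarith
      have h4 : 6 / (1 - (x ^ 2 + y ^ 2)) ≤ 12 := by
        rw [div_le_iff₀ (by linarith)]
        linarith
      have h5 : √2 ≤ 2 := by
        rw [Real.sqrt_le_left (by norm_num)]; norm_num
      have h6 : 0 ≤ √2 := Real.sqrt_nonneg _
      nlinarith
    have h3 : 100 + 144 / ρ + C ≤ (100 + 144 / ρ + C) / (1 - 4 * y ^ 2) ^ 4 := by
      rw [le_div_iff₀ (by positivity)]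
      nlinarith
    linarith
  · push Not at hnear
    have hxy : x ≤ y := by
      unfold P Q at hPQ
      nlinarith [sq_nonneg x, sq_nonneg y]
    have hyρ : ρ / 2 ≤ y := by
      by_contra hcon
      push Not at hcon
      nlinarith
    have h1 := h0_le_in hx hy hy' hPQ
    have h2 : 36 / (y * (1 - 2 * y)) ≤ (144 / ρ) / (1 - 4 * y ^ 2) := by
      have h12 : 0 < 1 - 2 * y := by linarith
      rw [div_div, div_le_div_iff₀ (by positivity) (by positivity)]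
      have h3 : (1 - 4 * y ^ 2) ≤ 2 * (1 - 2 * y) := by nlinarith
      have h4 : ρ * (1 - 4 * y ^ 2) ≤ (2 * y) * (2 * (1 - 2 * y)) := by
        apply mul_le_mul _ h3 hm.le (by positivity)
        linarith
      nlinarith
    have h3 : (144 / ρ) / (1 - 4 * y ^ 2) ≤ (144 / ρ) / (1 - 4 * y ^ 2) ^ 4 := by
      apply div_le_div_of_nonneg_left h144.le (by positivity)
      exact pow_le_of_le_one hm.le hm1 (by norm_num)
    have h4 : B y / Nn x y * D y ≤ C / (1 - 4 * y ^ 2) ^ 4 := by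
      have h5 : B y / Nn x y ≤ 1 := by
        rw [div_le_one hN]; exact B_le_Nn hx hy hy'
      have h6 : D y ≤ C / (1 - 4 * y ^ 2) ^ 3 := by
        unfold D
        have h7 := hCd (y ^ 2) (by positivity) (by nlinarith)
        have h8 : 0 ≤ C / (1 - 4 * y ^ 2) ^ 3 := by positivity
        nlinarith
      have h7 := D_nonneg hy.le hy'
      have h8 : B y / Nn x y * D y ≤ 1 * D y := mul_le_mul_of_nonneg_right h5 h7
      have h9 : C / (1 - 4 * y ^ 2) ^ 3 ≤ C / (1 - 4 * y ^ 2) ^ 4 := by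
        apply div_le_div_of_nonneg_left hC.le (by positivity)
        exact pow_le_pow_of_le_one hm.le hm1 (by norm_num)
      linarith
    have h10 : (100 + 144 / ρ + C) / (1 - 4 * y ^ 2) ^ 4
        = 100 / (1 - 4 * y ^ 2) ^ 4 + 144 / ρ / (1 - 4 * y ^ 2) ^ 4 + C / (1 - 4 * y ^ 2) ^ 4 := by
      ring
    rw [h10]
    unfold hh
    have : 0 ≤ 100 / (1 - 4 * y ^ 2) ^ 4 := by positivity
    linarith

end

end Pool.Agent.H152R3
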