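import Mathlib

open Set Filter Topology Manifold ContDiff

namespace Pool.Agent.H152R3

/-- Smooth selection from convex sets over an open subset of a finite-dimensional space. -/
theorem exists_smooth_sel {V : Type*} [NormedAddCommGroup V] [NormedSpace ℝ V]
    [FiniteDimensional ℝ V] {U : Set V} (hU : IsOpen U) {t : V → Set ℝ}
    (ht : ∀ w ∈ U, Convex ℝ (t w))
    (hloc : ∀ w ∈ U, ∃ O : Set V, IsOpen O ∧ w ∈ O ∧ ∃ f : V → ℝ, ContDiffOn ℝ ∞ f O ∧
      ∀ z ∈ O, z ∈ U → f z ∈ t z) :
    ∃ G : V → ℝ, ContDiffOn ℝ ∞ G U ∧ ∀ w ∈ U, G w ∈ t w := by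
  classical
  let U' : TopologicalSpace.Opens V := ⟨U, hU⟩
  haveI : ProperSpace V := FiniteDimensional.proper ℝ V
  haveI : SecondCountableTopology V := inferInstance
  haveI : LocallyCompactSpace U' := hU.locallyCompactSpace
  haveI : SigmaCompactSpace U' := inferInstance
  obtain ⟨g, hg⟩ := exists_contMDiffMap_forall_mem_convex_of_local (M := U') (n := ⊤)
    (𝓘(ℝ, V)) (t := fun x : U' => t x) (fun x => ht x x.2) (by
      intro x
      obtain ⟨O, hO, hxO, f, hf, hft⟩ := hloc x x.2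
      refine ⟨Subtype.val ⁻¹' O, ?_, fun z => f z, ?_, ?_⟩
      · exact (hO.preimage continuous_subtype_val).mem_nhds hxO
      · intro z hz
        apply ContMDiffAt.contMDiffWithinAt
        rw [contMDiffAt_subtype_iff]
        exact ((hf z hz).contDiffAt (hO.mem_nhds hz)).contMDiffAt
      · intro z hz
        exact hft z hz z.2)
  refine ⟨fun w => if h : w ∈ U then g ⟨w, h⟩ else 0, ?_, ?_⟩
  · intro w hw
    apply ContDiffAt.contDiffWithinAt
    rw [← contMDiffAt_iff_contDiffAt]
    have h1 : ContMDiffAt 𝓘(ℝ, V) 𝓘(ℝ, ℝ) ∞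
        (fun x : U' => (fun w => if h : w ∈ U then g ⟨w, h⟩ else 0) x.1) ⟨w, hw⟩ := by
      have h2 : (fun x : U' => (fun w => if h : w ∈ U then g ⟨w, h⟩ else 0) x.1) = g := by
        funext x
        have : x.1 ∈ U := x.2
        simp [this]
      rw [h2]
      exact g.contMDiff _
    exact (contMDiffAt_subtype_iff (U := U') (x := ⟨w, hw⟩)).1 h1
  · intro w hw
    have := hg ⟨w, hw⟩
    simp only [hw, dif_pos]
    exact this

end Pool.Agent.H152R3
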