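import Pool.Agent.H152R3.Calc
import Pool.Agent.H152R3.Sel

open Set Filter Topology Real ContDiff

namespace Pool.Agent.H152R3

noncomputable section

lemma P_zero_iff {x : ℝ} (hx : 0 ≤ x) : P x = 0 ↔ x = 0 := by
  unfold P
  constructor
  · intro h; nlinarith [sq_nonneg x]
  · rintro rfl; norm_num

lemma Q_zero_iff {y : ℝ} (hy : 0 ≤ y) (hy' : y < 1 / 2) : Q y = 0 ↔ y = 0 := by
  constructor
  · intro h
    rcases hy.eq_or_lt with h' | h'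
    · exact h'.symm
    · have := Q_pos h' hy'; linarith
  · rintro rfl; unfold Q; norm_num

/-- A point of `U` on the curve is the origin or is off the axes. -/
lemma curve_cases {w : V} (hU : w ∈ U) (h : P ‖w.1‖ = Q ‖w.2‖) : w = 0 ∨ w ∈ W := by
  have hy : ‖w.2‖ < 1 / 2 := hU
  by_cases h1 : w.1 = 0
  · left
    rw [h1, norm_zero] at h
    have : Q ‖w.2‖ = 0 := by rw [← h]; unfold P; norm_num
    rw [Q_zero_iff (norm_nonneg _) hy, norm_eq_zero] at this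
    exact Prod.ext h1 this
  · by_cases h2 : w.2 = 0
    · left
      rw [h2, norm_zero] at h
      have : P ‖w.1‖ = 0 := by rw [h]; unfold Q; norm_num
      rw [P_zero_iff (norm_nonneg _), norm_eq_zero] at this
      exact Prod.ext this h2
    · right; exact ⟨h1, h2, hy⟩

lemma continuous_P : Continuous P := by unfold P; fun_prop
lemma continuous_Q : Continuous Q := by unfold Q; fun_prop

lemma U_m {w : V} (h : w ∈ U) : 0 < 1 - 4 * ‖w.2‖ ^ 2 := one_sub_pos (norm_nonneg _) h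

lemma cd_ell (ε : ℝ) {w : V} (h : w ∈ U) : ContDiffAt ℝ ∞ (fun z : V => ell ε ‖z.1‖ ‖z.2‖) w := by
  unfold ell
  have h1 : ContDiffAt ℝ ∞ (fun z : V => ‖z.1‖ ^ 2) w := ContDiffAt.norm_sq ℝ contDiffAt_fst
  have h2 : ContDiffAt ℝ ∞ (fun z : V => ‖z.2‖ ^ 2) w := ContDiffAt.norm_sq ℝ contDiffAt_snd
  have hm := U_m h
  have h3 : ContDiffAt ℝ ∞ (fun z : V => 1 + ‖z.1‖ ^ 2) w := contDiffAt_const.add h1
  have h4 : ContDiffAt ℝ ∞ (fun z : V => √(1 + ‖z.1‖ ^ 2)) w := h3.sqrt (by positivity)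
  have h5 : ContDiffAt ℝ ∞ (fun z : V => (1 - 4 * ‖z.2‖ ^ 2) ^ 2 * (1 + ‖z.1‖ ^ 2) ^ 4) w :=
    ((contDiffAt_const.sub (contDiffAt_const.mul h2)).pow 2).mul (h3.pow 4)
  apply contDiffAt_const.mul
  apply ContDiffAt.add
  · exact contDiffAt_const.div h4 (Real.sqrt_pos.2 (by positivity)).ne'
  · exact contDiffAt_const.div h5 (by positivity)

lemma cd_up (C : ℝ) {w : V} (h : w ∈ U) :
    ContDiffAt ℝ ∞ (fun z : V => C / (1 - 4 * ‖z.2‖ ^ 2) ^ 4) w := by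
  have h2 : ContDiffAt ℝ ∞ (fun z : V => ‖z.2‖ ^ 2) w := ContDiffAt.norm_sq ℝ contDiffAt_snd
  have hm := U_m h
  exact contDiffAt_const.div ((contDiffAt_const.sub (contDiffAt_const.mul h2)).pow 4)
    (by positivity)

lemma ell_pos {ε : ℝ} (hε : 0 < ε) {w : V} (h : w ∈ U) : 0 < ell ε ‖w.1‖ ‖w.2‖ := by
  have hm := U_m h
  unfold ell
  positivity

lemma ell_le_aux {ε : ℝ} (hε : 0 < ε) (hε1 : ε ≤ 1 / 100) {w : V} (h : w ∈ U) :
    ell ε ‖w.1‖ ‖w.2‖ ≤ 1 / 10 * (1 / (1 - 4 * ‖w.2‖ ^ 2) ^ 2) := by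
  have hm := U_m h
  have hm1 : 1 - 4 * ‖w.2‖ ^ 2 ≤ 1 := by nlinarith [sq_nonneg ‖w.2‖]
  have hm2 : (1 - 4 * ‖w.2‖ ^ 2) ^ 2 ≤ 1 := pow_le_one₀ hm.le hm1
  have h1 : 2 / √(1 + ‖w.1‖ ^ 2) ≤ 2 := by
    rw [div_le_iff₀ (Real.sqrt_pos.2 (by positivity))]
    have : 1 ≤ √(1 + ‖w.1‖ ^ 2) := by
      rw [Real.one_le_sqrt]; nlinarith [sq_nonneg ‖w.1‖]
    linarith
  have h2 : 8 / ((1 - 4 * ‖w.2‖ ^ 2) ^ 2 * (1 + ‖w.1‖ ^ 2) ^ 4)
      ≤ 8 * (1 / (1 - 4 * ‖w.2‖ ^ 2) ^ 2) := by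
    rw [mul_one_div]
    apply div_le_div_of_nonneg_left (by norm_num) (by positivity)
    have : 1 ≤ (1 + ‖w.1‖ ^ 2) ^ 4 := one_le_pow₀ (by nlinarith [sq_nonneg ‖w.1‖])
    have h3 : 0 < (1 - 4 * ‖w.2‖ ^ 2) ^ 2 := by positivity
    nlinarith
  have h3 : 1 ≤ 1 / (1 - 4 * ‖w.2‖ ^ 2) ^ 2 := by
    rw [le_div_iff₀ (by positivity)]; linarith
  unfold ell
  have h4 : 2 / √(1 + ‖w.1‖ ^ 2) + 8 / ((1 - 4 * ‖w.2‖ ^ 2) ^ 2 * (1 + ‖w.1‖ ^ 2) ^ 4)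
      ≤ 10 * (1 / (1 - 4 * ‖w.2‖ ^ 2) ^ 2) := by linarith
  have h5 : 0 ≤ 2 / √(1 + ‖w.1‖ ^ 2) + 8 / ((1 - 4 * ‖w.2‖ ^ 2) ^ 2 * (1 + ‖w.1‖ ^ 2) ^ 4) := by
    positivity
  nlinarith

lemma ell_le_up {ε C : ℝ} (hε : 0 < ε) (hε1 : ε ≤ 1 / 100) (hC : 100 ≤ C) {w : V} (h : w ∈ U) :
    ell ε ‖w.1‖ ‖w.2‖ ≤ C / (1 - 4 * ‖w.2‖ ^ 2) ^ 4 := by
  refine (ell_le_aux hε hε1 h).trans ?_
  have hm := U_m h
  have hm1 : 1 - 4 * ‖w.2‖ ^ 2 ≤ 1 := by nlinarith [sq_nonneg ‖w.2‖]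
  have h1 : (1 - 4 * ‖w.2‖ ^ 2) ^ 4 ≤ (1 - 4 * ‖w.2‖ ^ 2) ^ 2 :=
    pow_le_pow_of_le_one hm.le hm1 (by norm_num)
  rw [mul_one_div]
  exact div_le_div₀ (by positivity) (by linarith) (by positivity) h1

lemma sloc_ge {R : ℝ} (hR : 0 ≤ R) (hR1 : R < 1) : 19 ≤ sloc R := by
  unfold sloc
  have h1 : 6 ≤ 6 / (1 - R) := by
    rw [le_div_iff₀ (by linarith)]; linarith
  have h2 : 1 ≤ √2 := by rw [Real.one_le_sqrt]; norm_num
  nlinarith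

lemma sloc_le {R : ℝ} (hR1 : R ≤ 1 / 4) : sloc R ≤ 100 := by
  unfold sloc
  have h4 : 6 / (1 - R) ≤ 12 := by
    rw [div_le_iff₀ (by linarith)]
    linarith
  have h5 : √2 ≤ 2 := by
    rw [Real.sqrt_le_left (by norm_num)]; norm_num
  have h6 : 0 ≤ √2 := Real.sqrt_nonneg _
  nlinarith

lemma cd_sloc {w : V} (h : nsq w < 1) : ContDiffAt ℝ ∞ (fun z : V => sloc (nsq z)) w := by
  unfold sloc nsq
  unfold nsq at h
  have h1 : ContDiffAt ℝ ∞ (fun z : V => ‖z.1‖ ^ 2) w := ContDiffAt.norm_sq ℝ contDiffAt_fst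
  have h2 : ContDiffAt ℝ ∞ (fun z : V => ‖z.2‖ ^ 2) w := ContDiffAt.norm_sq ℝ contDiffAt_snd
  apply contDiffAt_const.mul
  apply contDiffAt_const.add
  apply contDiffAt_const.div
  · exact contDiffAt_const.sub (h1.add h2)
  · linarith

lemma le_comb {a b c p q : ℝ} (hp : 0 ≤ p) (hq : 0 ≤ q) (hpq : p + q = 1) (ha : c ≤ a)
    (hb : c ≤ b) : c ≤ p * a + q * b := by
  have h1 := mul_le_mul_of_nonneg_left ha hp
  have h2 := mul_le_mul_of_nonneg_left hb hq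
  calc c = (p + q) * c := by rw [hpq, one_mul]
    _ = p * c + q * c := by ring
    _ ≤ _ := by linarith

lemma comb_le {a b c p q : ℝ} (hp : 0 ≤ p) (hq : 0 ≤ q) (hpq : p + q = 1) (ha : a ≤ c)
    (hb : b ≤ c) : p * a + q * b ≤ c := by
  have h1 := mul_le_mul_of_nonneg_left ha hp
  have h2 := mul_le_mul_of_nonneg_left hb hq
  calc p * a + q * b ≤ p * c + q * c := by linarith
    _ = (p + q) * c := by ring
    _ = c := by rw [hpq, one_mul]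

/-- Existence of the conformal factor. -/
theorem exists_sigma : ∃ (ε C : ℝ) (σ : V → ℝ), 0 < ε ∧ 0 < C ∧ ContDiffOn ℝ ∞ σ U ∧
    (∀ w ∈ U, ell ε ‖w.1‖ ‖w.2‖ ≤ σ w) ∧
    (∀ w ∈ W, P ‖w.1‖ ≤ Q ‖w.2‖ → hw w ≤ σ w ∧ σ w ≤ C / (1 - 4 * ‖w.2‖ ^ 2) ^ 4) ∧
    (∀ w ∈ W, Q ‖w.2‖ ≤ P ‖w.1‖ → σ w ≤ hw w) := by
  obtain ⟨ε, hε, hε1, hlow⟩ := exists_eps
  obtain ⟨C, hC, hC1, hup⟩ := exists_upper
  obtain ⟨ρ, hρ, hρ1, hsq⟩ := squeeze_zero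
  obtain ⟨σ, hσ, hσt⟩ := exists_smooth_sel isOpen_U
    (t := fun w => {s | ell ε ‖w.1‖ ‖w.2‖ ≤ s ∧
      (w ∈ W → P ‖w.1‖ ≤ Q ‖w.2‖ → hw w ≤ s ∧ s ≤ C / (1 - 4 * ‖w.2‖ ^ 2) ^ 4) ∧
      (w ∈ W → Q ‖w.2‖ ≤ P ‖w.1‖ → s ≤ hw w)})
    (by
      intro w _ a ha b hb p q hp hq hpq
      refine ⟨?_, fun h1 h2 => ⟨?_, ?_⟩, fun h1 h2 => ?_⟩
      · exact le_comb hp hq hpq ha.1 hb.1
      · exact le_comb hp hq hpq (ha.2.1 h1 h2).1 (hb.2.1 h1 h2).1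
      · exact comb_le hp hq hpq (ha.2.1 h1 h2).2 (hb.2.1 h1 h2).2
      · exact comb_le hp hq hpq (ha.2.2 h1 h2) (hb.2.2 h1 h2))
    (by
      intro w hwU
      rcases lt_trichotomy (P ‖w.1‖) (Q ‖w.2‖) with h | h | h
      · -- inside
        refine ⟨{z | P ‖z.1‖ < Q ‖z.2‖} ∩ U, ?_, ⟨h, hwU⟩,
          fun z => C / (1 - 4 * ‖z.2‖ ^ 2) ^ 4, ?_, ?_⟩
        · exact (isOpen_lt (continuous_P.comp continuous_fst.norm)
            (continuous_Q.comp continuous_snd.norm)).inter isOpen_U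
        · intro z hz
          exact (cd_up C hz.2).contDiffWithinAt
        · intro z hz hzU
          refine ⟨ell_le_up hε hε1 hC1 hzU, fun h1 h2 => ⟨?_, le_rfl⟩, fun h1 h2 => ?_⟩
          · have hp := W_pos h1
            exact hup _ _ hp.1 hp.2.1 hp.2.2 h2
          · exact absurd hz.1 (not_lt.2 h2)
      · -- on the curve
        rcases curve_cases hwU h with h0 | hW
        · subst h0
          refine ⟨{z | nsq z < ρ ^ 2}, ?_, ?_, fun z => sloc (nsq z), ?_, ?_⟩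
          · have : Continuous nsq := by unfold nsq; fun_prop
            exact isOpen_lt this continuous_const
          · simp [nsq]; positivity
          · intro z hz
            have hz' : nsq z < ρ ^ 2 := hz
            exact (cd_sloc (by nlinarith)).contDiffWithinAt
          · intro z hz hzU
            have hz' : nsq z < ρ ^ 2 := hz
            have hn0 : 0 ≤ nsq z := by unfold nsq; positivity
            have hzn : nsq z ≤ 1 / 64 := by nlinarith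
            have hy : ‖z.2‖ ≤ 1 / 8 := by
              unfold nsq at hzn
              nlinarith [sq_nonneg ‖z.1‖, norm_nonneg z.2]
            have hhw : hw z = h0 ‖z.1‖ ‖z.2‖ := by
              unfold hw hh
              rw [D_zero (norm_nonneg _) (by linarith), mul_zero, add_zero]
            have hs1 : 19 ≤ sloc (nsq z) := sloc_ge hn0 (by linarith)
            have hs2 : sloc (nsq z) ≤ 100 := sloc_le (by linarith)
            refine ⟨?_, fun h1 h2 => ⟨?_, ?_⟩, fun h1 h2 => ?_⟩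
            · refine (ell_le_aux hε hε1 hzU).trans ?_
              have : (15 / 16 : ℝ) ≤ 1 - 4 * ‖z.2‖ ^ 2 := by nlinarith [norm_nonneg z.2]
              have h3 : 1 / (1 - 4 * ‖z.2‖ ^ 2) ^ 2 ≤ 2 := by
                rw [div_le_iff₀ (by positivity)]; nlinarith
              linarith
            · have hp := W_pos h1
              rw [hhw]
              exact (hsq _ _ hp.1 hp.2.1 hz').1 h2
            · have hm := U_m hzU
              have hm1 : 1 - 4 * ‖z.2‖ ^ 2 ≤ 1 := by nlinarith [sq_nonneg ‖z.2‖]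
              have hm4 : (1 - 4 * ‖z.2‖ ^ 2) ^ 4 ≤ 1 := pow_le_one₀ hm.le hm1
              have : C ≤ C / (1 - 4 * ‖z.2‖ ^ 2) ^ 4 := by
                rw [le_div_iff₀ (by positivity)]; nlinarith
              linarith
            · have hp := W_pos h1
              rw [hhw]
              exact (hsq _ _ hp.1 hp.2.1 hz').2 h2
        · have hp := W_pos hW
          have hlt := hlow _ _ hp.1 hp.2.1 hp.2.2 h.symm.le
          have hev : ∀ᶠ z in 𝓝 w, ell ε ‖z.1‖ ‖z.2‖ < hw z := by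
            have c1 := (cd_ell ε hwU).continuousAt
            have c2 := (cd_hw hW).continuousAt
            exact c1.eventually_lt c2 hlt
          obtain ⟨O, hOs, hO, hwO⟩ := eventually_nhds_iff.1 (hev.and (isOpen_W.mem_nhds hW))
          refine ⟨O, hO, hwO, hw, ?_, ?_⟩
          · intro z hz
            exact (cd_hw (hOs z hz).2).contDiffWithinAt
          · intro z hz hzU
            refine ⟨(hOs z hz).1.le, fun h1 h2 => ⟨le_rfl, ?_⟩, fun h1 h2 => le_rfl⟩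
            have hp := W_pos h1
            exact hup _ _ hp.1 hp.2.1 hp.2.2 h2
      · -- outside
        refine ⟨{z | Q ‖z.2‖ < P ‖z.1‖} ∩ U, ?_, ⟨h, hwU⟩,
          fun z => ell ε ‖z.1‖ ‖z.2‖, ?_, ?_⟩
        · exact (isOpen_lt (continuous_Q.comp continuous_snd.norm)
            (continuous_P.comp continuous_fst.norm)).inter isOpen_U
        · intro z hz
          exact (cd_ell ε hz.2).contDiffWithinAt
        · intro z hz hzU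
          refine ⟨le_rfl, fun h1 h2 => ?_, fun h1 h2 => ?_⟩
          · exact absurd hz.1 (not_lt.2 h2)
          · have hp := W_pos h1
            exact (hlow _ _ hp.1 hp.2.1 hp.2.2 h2).le)
  refine ⟨ε, C, σ, hε, hC, hσ, fun w hw => (hσt w hw).1, fun w hw h => (hσt w (W_sub_U hw)).2.1 hw h,
    fun w hw h => (hσt w (W_sub_U hw)).2.2 hw h⟩

/-- The exhaustion function. -/
def rho (ε : ℝ) (w : V) : ℝ :=
  ε * (Real.log (1 + ‖w.1‖ ^ 2) + 4 * ‖w.2‖ ^ 2 / (1 - 4 * ‖w.2‖ ^ 2) / (1 + ‖w.1‖ ^ 2) ^ 4)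

lemma cd_rho (ε : ℝ) {w : V} (h : w ∈ U) : ContDiffAt ℝ ∞ (rho ε) w := by
  unfold rho
  have h1 : ContDiffAt ℝ ∞ (fun z : V => ‖z.1‖ ^ 2) w := ContDiffAt.norm_sq ℝ contDiffAt_fst
  have h2 : ContDiffAt ℝ ∞ (fun z : V => ‖z.2‖ ^ 2) w := ContDiffAt.norm_sq ℝ contDiffAt_snd
  have hm := U_m h
  have h3 : ContDiffAt ℝ ∞ (fun z : V => 1 + ‖z.1‖ ^ 2) w := contDiffAt_const.add h1
  apply contDiffAt_const.mul
  apply (h3.log (by positivity)).add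
  apply ContDiffAt.div _ (h3.pow 4) (by positivity)
  exact (contDiffAt_const.mul h2).div (contDiffAt_const.sub (contDiffAt_const.mul h2)) hm.ne'

lemma rho_nonneg {ε : ℝ} (hε : 0 < ε) {w : V} (h : w ∈ U) : 0 ≤ rho ε w := by
  unfold rho
  have hm := U_m h
  have : 0 ≤ Real.log (1 + ‖w.1‖ ^ 2) := Real.log_nonneg (by nlinarith [sq_nonneg ‖w.1‖])
  positivity

lemma fderiv_rho_le {ε : ℝ} (hε : 0 < ε) {w : V} (h : w ∈ U) (v : V) :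
    |fderiv ℝ (rho ε) w v| ≤ ell ε ‖w.1‖ ‖w.2‖ * √(nsq v) := by
  have hm := U_m h
  set x := ‖w.1‖ with hx
  set y := ‖w.2‖ with hy
  have hx0 : 0 ≤ x := norm_nonneg _
  have hy0 : 0 ≤ y := norm_nonneg _
  have hy1 : y < 1 / 2 := h
  have h1 : HasFDerivAt (fun z : V => 1 + ‖z.1‖ ^ 2)
      (2 • ((innerSL ℝ w.1).comp (ContinuousLinearMap.fst ℝ E7 E7))) w :=
    ((hasFDerivAt_fst (p := w)).norm_sq).const_add 1
  have h2 : HasFDerivAt (fun z : V => ‖z.2‖ ^ 2)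
      (2 • ((innerSL ℝ w.2).comp (ContinuousLinearMap.snd ℝ E7 E7))) w :=
    (hasFDerivAt_snd (p := w)).norm_sq
  have h3 := h1.log (by positivity)
  have h4 : HasDerivAt (fun s : ℝ => 4 * s / (1 - 4 * s)) (4 / (1 - 4 * y ^ 2) ^ 2) (y ^ 2) := by
    have h5 : HasDerivAt (fun s : ℝ => 1 - 4 * s) (-4) (y ^ 2) := by
      have := ((hasDerivAt_id (y ^ 2)).const_mul 4).const_sub 1
      exact HasDerivAt.congr_deriv this (by norm_num)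
    have h6 : HasDerivAt (fun s : ℝ => 4 * s) 4 (y ^ 2) := by
      have := ((hasDerivAt_id (y ^ 2)).const_mul 4)
      exact HasDerivAt.congr_deriv this (by norm_num)
    refine HasDerivAt.congr_deriv (h6.div h5 hm.ne') ?_
    congr 1
    ring
  have h5 : HasFDerivAt (fun z : V => 4 * ‖z.2‖ ^ 2 / (1 - 4 * ‖z.2‖ ^ 2)) _ w :=
    HasDerivAt.comp_hasFDerivAt (h₂ := fun s : ℝ => 4 * s / (1 - 4 * s))
      (f := fun z : V => ‖z.2‖ ^ 2) w h4 h2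
  have h6 : HasDerivAt (fun s : ℝ => (s ^ 4)⁻¹) (-(4 / (1 + x ^ 2) ^ 5)) (1 + x ^ 2) := by
    have := (hasDerivAt_pow 4 (1 + x ^ 2)).fun_inv (by positivity)
    refine HasDerivAt.congr_deriv this ?_
    field_simp
    norm_num
    ring
  have h7 : HasFDerivAt (fun z : V => ((1 + ‖z.1‖ ^ 2) ^ 4)⁻¹) _ w :=
    HasDerivAt.comp_hasFDerivAt (h₂ := fun s : ℝ => (s ^ 4)⁻¹)
      (f := fun z : V => 1 + ‖z.1‖ ^ 2) w h6 h1
  have h8 := (h3.add (h5.mul h7)).const_mul ε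
  have e : rho ε = fun z : V => ε * (Real.log (1 + ‖z.1‖ ^ 2) +
      4 * ‖z.2‖ ^ 2 / (1 - 4 * ‖z.2‖ ^ 2) * ((1 + ‖z.1‖ ^ 2) ^ 4)⁻¹) := by
    funext z; unfold rho; simp only [div_eq_mul_inv]
  set p := inner ℝ w.1 v.1 with hp
  set q := inner ℝ w.2 v.2 with hq
  have h9 := congrArg (fun L : V →L[ℝ] ℝ => L v) h8.fderiv
  have h10 : fderiv ℝ (rho ε) w v = ε * ((1 + x ^ 2)⁻¹ * (2 * p) +
      (4 * y ^ 2 / (1 - 4 * y ^ 2) * (-(4 / (1 + x ^ 2) ^ 5) * (2 * p)) +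
      ((1 + x ^ 2) ^ 4)⁻¹ * (4 / (1 - 4 * y ^ 2) ^ 2 * (2 * q)))) := by
    rw [e]
    refine h9.trans ?_
    simp only [smul_apply, add_apply, ContinuousLinearMap.comp_apply, innerSL_apply_apply,
      ContinuousLinearMap.coe_snd', ContinuousLinearMap.coe_fst', smul_eq_mul, nsmul_eq_mul,
      Nat.cast_ofNat]
    rfl
  rw [h10]
  have hpb : |p| ≤ x * ‖v.1‖ := abs_real_inner_le_norm _ _
  have hqb : |q| ≤ y * ‖v.2‖ := abs_real_inner_le_norm _ _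
  have hM : 0 < (1 - 4 * y ^ 2) ^ 2 * (1 + x ^ 2) ^ 4 := by positivity
  have hs : 0 < √(1 + x ^ 2) := Real.sqrt_pos.2 (by positivity)
  have hs2 : √(1 + x ^ 2) ^ 2 = 1 + x ^ 2 := Real.sq_sqrt (by positivity)
  have hxs : x ≤ √(1 + x ^ 2) := Real.le_sqrt_of_sq_le (by linarith)
  -- the three pieces
  have b1 : |(1 + x ^ 2)⁻¹ * (2 * p)| ≤ 2 / √(1 + x ^ 2) * ‖v.1‖ := by
    rw [abs_mul, abs_of_pos (by positivity), abs_mul, abs_of_pos (by norm_num : (0 : ℝ) < 2)]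
    calc (1 + x ^ 2)⁻¹ * (2 * |p|) ≤ (1 + x ^ 2)⁻¹ * (2 * (x * ‖v.1‖)) := by gcongr
      _ ≤ (1 + x ^ 2)⁻¹ * (2 * (√(1 + x ^ 2) * ‖v.1‖)) := by gcongr
      _ = 2 / √(1 + x ^ 2) * ‖v.1‖ := by
          field_simp
          rw [hs2]
  have b2 : |4 * y ^ 2 / (1 - 4 * y ^ 2) * (-(4 / (1 + x ^ 2) ^ 5) * (2 * p))|
      ≤ 4 / ((1 - 4 * y ^ 2) ^ 2 * (1 + x ^ 2) ^ 4) * ‖v.1‖ := by
    rw [abs_mul, abs_of_nonneg (by positivity), abs_mul, abs_neg, abs_of_pos (by positivity),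
      abs_mul, abs_of_pos (by norm_num : (0 : ℝ) < 2)]
    have c1 : 4 * y ^ 2 / (1 - 4 * y ^ 2) ≤ 1 / (1 - 4 * y ^ 2) ^ 2 := by
      rw [div_le_div_iff₀ hm (by positivity)]
      have : 4 * y ^ 2 ≤ 1 := by linarith
      have h3 : 1 - 4 * y ^ 2 ≤ 1 := by nlinarith
      nlinarith [mul_le_mul this h3 hm.le (by norm_num)]
    have c2 : 2 * x ≤ 1 + x ^ 2 := by nlinarith [sq_nonneg (x - 1)]
    calc 4 * y ^ 2 / (1 - 4 * y ^ 2) * (4 / (1 + x ^ 2) ^ 5 * (2 * |p|))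
        ≤ 1 / (1 - 4 * y ^ 2) ^ 2 * (4 / (1 + x ^ 2) ^ 5 * (2 * (x * ‖v.1‖))) := by gcongr
      _ = 1 / (1 - 4 * y ^ 2) ^ 2 * (4 / (1 + x ^ 2) ^ 5 * ((2 * x) * ‖v.1‖)) := by ring
      _ ≤ 1 / (1 - 4 * y ^ 2) ^ 2 * (4 / (1 + x ^ 2) ^ 5 * ((1 + x ^ 2) * ‖v.1‖)) := by gcongr
      _ = 4 / ((1 - 4 * y ^ 2) ^ 2 * (1 + x ^ 2) ^ 4) * ‖v.1‖ := by field_simp
  have b3 : |((1 + x ^ 2) ^ 4)⁻¹ * (4 / (1 - 4 * y ^ 2) ^ 2 * (2 * q))|
      ≤ 4 / ((1 - 4 * y ^ 2) ^ 2 * (1 + x ^ 2) ^ 4) * ‖v.2‖ := by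
    rw [abs_mul, abs_of_pos (by positivity), abs_mul, abs_of_pos (by positivity),
      abs_mul, abs_of_pos (by norm_num : (0 : ℝ) < 2)]
    calc ((1 + x ^ 2) ^ 4)⁻¹ * (4 / (1 - 4 * y ^ 2) ^ 2 * (2 * |q|))
        ≤ ((1 + x ^ 2) ^ 4)⁻¹ * (4 / (1 - 4 * y ^ 2) ^ 2 * (2 * (y * ‖v.2‖))) := by gcongr
      _ = ((1 + x ^ 2) ^ 4)⁻¹ * (4 / (1 - 4 * y ^ 2) ^ 2 * ((2 * y) * ‖v.2‖)) := by ring
      _ ≤ ((1 + x ^ 2) ^ 4)⁻¹ * (4 / (1 - 4 * y ^ 2) ^ 2 * (1 * ‖v.2‖)) := by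
          gcongr; linarith
      _ = _ := by field_simp
  have hv1 : ‖v.1‖ ≤ √(nsq v) := Real.le_sqrt_of_sq_le (by unfold nsq; nlinarith [sq_nonneg ‖v.2‖])
  have hv2 : ‖v.2‖ ≤ √(nsq v) := Real.le_sqrt_of_sq_le (by unfold nsq; nlinarith [sq_nonneg ‖v.1‖])
  have hsn : 0 ≤ √(nsq v) := Real.sqrt_nonneg _
  rw [abs_mul, abs_of_pos hε]
  unfold ell
  rw [mul_assoc]
  apply mul_le_mul_of_nonneg_left _ hε.le
  refine (abs_add_le _ _).trans ?_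
  have b4 := abs_add_le (4 * y ^ 2 / (1 - 4 * y ^ 2) * (-(4 / (1 + x ^ 2) ^ 5) * (2 * p)))
    (((1 + x ^ 2) ^ 4)⁻¹ * (4 / (1 - 4 * y ^ 2) ^ 2 * (2 * q)))
  have e1 : 2 / √(1 + x ^ 2) * ‖v.1‖ ≤ 2 / √(1 + x ^ 2) * √(nsq v) := by gcongr
  have e2 : 4 / ((1 - 4 * y ^ 2) ^ 2 * (1 + x ^ 2) ^ 4) * ‖v.1‖
    ≤ 4 / ((1 - 4 * y ^ 2) ^ 2 * (1 + x ^ 2) ^ 4) * √(nsq v) := by gcongr
  have e3 : 4 / ((1 - 4 * y ^ 2) ^ 2 * (1 + x ^ 2) ^ 4) * ‖v.2‖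
    ≤ 4 / ((1 - 4 * y ^ 2) ^ 2 * (1 + x ^ 2) ^ 4) * √(nsq v) := by gcongr
  have e4 : (2 / √(1 + x ^ 2) + 8 / ((1 - 4 * y ^ 2) ^ 2 * (1 + x ^ 2) ^ 4)) * √(nsq v)
    = 2 / √(1 + x ^ 2) * √(nsq v) + 4 / ((1 - 4 * y ^ 2) ^ 2 * (1 + x ^ 2) ^ 4) * √(nsq v)
      + 4 / ((1 - 4 * y ^ 2) ^ 2 * (1 + x ^ 2) ^ 4) * √(nsq v) := by ring
  rw [e4]
  linarith

lemma isCompact_rho {ε : ℝ} (hε : 0 < ε) (c : ℝ) : IsCompact {w : V | w ∈ U ∧ rho ε w ≤ c} := by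
  -- contained in a compact set on which it is closed
  have key : ∀ w : V, w ∈ U → rho ε w ≤ c → ‖w.1‖ ^ 2 ≤ Real.exp (c / ε) ∧
      4 * ‖w.2‖ ^ 2 ≤ (c / ε * (1 + Real.exp (c / ε)) ^ 4) * (1 - 4 * ‖w.2‖ ^ 2) := by
    intro w hw hc
    have hm := U_m hw
    unfold rho at hc
    have hc' : Real.log (1 + ‖w.1‖ ^ 2) + 4 * ‖w.2‖ ^ 2 / (1 - 4 * ‖w.2‖ ^ 2) / (1 + ‖w.1‖ ^ 2) ^ 4
        ≤ c / ε := by rw [le_div_iff₀ hε]; linarith
    have hlog : 0 ≤ Real.log (1 + ‖w.1‖ ^ 2) := Real.log_nonneg (by nlinarith [sq_nonneg ‖w.1‖])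
    have hg : 0 ≤ 4 * ‖w.2‖ ^ 2 / (1 - 4 * ‖w.2‖ ^ 2) / (1 + ‖w.1‖ ^ 2) ^ 4 := by positivity
    have h1 : 1 + ‖w.1‖ ^ 2 ≤ Real.exp (c / ε) := by
      rw [← Real.log_le_iff_le_exp (by positivity)]; linarith
    have h2 : 4 * ‖w.2‖ ^ 2 / (1 - 4 * ‖w.2‖ ^ 2) / (1 + ‖w.1‖ ^ 2) ^ 4 ≤ c / ε := by linarith
    refine ⟨by linarith, ?_⟩
    rw [div_le_iff₀ (by positivity), div_le_iff₀ hm] at h2
    refine h2.trans ?_
    apply mul_le_mul_of_nonneg_right _ hm.le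
    have hcε : 0 ≤ c / ε := by linarith
    gcongr
    linarith
  -- closed set in V
  set K : ℝ := c / ε * (1 + Real.exp (c / ε)) ^ 4 with hK
  let S : Set V := {w | ‖w.1‖ ^ 2 ≤ Real.exp (c / ε) ∧ 4 * ‖w.2‖ ^ 2 ≤ K * (1 - 4 * ‖w.2‖ ^ 2) ∧
    ‖w.2‖ ≤ 1 / 2}
  have hSU : S ⊆ U := by
    intro w hw
    have hw3 : ‖w.2‖ ≤ 1 / 2 := hw.2.2
    rcases hw3.eq_or_lt with h | h
    · exfalso
      have := hw.2.1
      rw [h] at this
      norm_num at this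
    · exact h
  have hScl : IsClosed S := by
    have a1 : IsClosed {w : V | ‖w.1‖ ^ 2 ≤ Real.exp (c / ε)} :=
      isClosed_le (by fun_prop) continuous_const
    have a2 : IsClosed {w : V | 4 * ‖w.2‖ ^ 2 ≤ K * (1 - 4 * ‖w.2‖ ^ 2)} :=
      isClosed_le (by fun_prop) (by fun_prop)
    have a3 : IsClosed {w : V | ‖w.2‖ ≤ 1 / 2} := isClosed_le (by fun_prop) continuous_const
    exact a1.inter (a2.inter a3)
  have hSb : Bornology.IsBounded S := by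
    rw [isBounded_iff_forall_norm_le]
    refine ⟨Real.exp (c / ε) + 1, ?_⟩
    intro w hw
    have h1 : ‖w.1‖ ≤ Real.exp (c / ε) + 1 := by
      have := hw.1
      have h0 := Real.exp_pos (c / ε)
      nlinarith [norm_nonneg w.1, sq_nonneg (‖w.1‖ - 1)]
    have h2 : ‖w.2‖ ≤ Real.exp (c / ε) + 1 := by
      have := hw.2.2
      have h0 := Real.exp_pos (c / ε)
      linarith
    rw [Prod.norm_def]
    exact max_le h1 h2
  have hSc : IsCompact S := Metric.isCompact_of_isClosed_isBounded hScl hSb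
  have heq : {w : V | w ∈ U ∧ rho ε w ≤ c} = S ∩ rho ε ⁻¹' Iic c := by
    ext w
    constructor
    · rintro ⟨h1, h2⟩
      exact ⟨⟨(key w h1 h2).1, (key w h1 h2).2, (show ‖w.2‖ < 1 / 2 from h1).le⟩, h2⟩
    · rintro ⟨h1, h2⟩
      exact ⟨hSU h1, h2⟩
  rw [heq]
  have hcont : ContinuousOn (rho ε) S := fun w hw =>
    ((cd_rho ε (hSU hw)).continuousAt).continuousWithinAt
  exact hSc.of_isClosed_subset (hcont.preimage_isClosed_of_isClosed hScl isClosed_Iic)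
    inter_subset_left

end

end Pool.Agent.H152R3
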